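import Pool.Agent.TH800.LD.Asm2
import Pool.Agent.H345R2.CT.C

/-! Assembly, part 3: the large deviation bound for sums of unfolded gaps (owner helper800). -/

set_option autoImplicit false

open Complex Filter Topology Set MeasureTheory

namespace Pool.Agent.TH800.LD

open SP (RHs)
open SG (ord NZ zmult ZS)
open LG.CU (del)

/-- the exceptional set of a dyadic block -/
theorem del_block (hRH : RHs) (ε : ℝ) (hε : 0 < ε) (hε1 : ε ≤ 1) :
    ∃ c κ m0 T0 : ℝ, 0 < c ∧ 0 < κ ∧ κ ≤ 1 ∧ 3 ≤ m0 ∧ 10 ≤ T0 ∧ ∀ T : ℝ, T0 ≤ T →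
    ∀ m : ℕ, m0 ≤ m →
    ({n : ℕ | 1 ≤ n ∧ T ≤ ord n ∧ ord n ≤ 3 / 2 * T ∧ ((m : ℝ) ≤ κ * Real.log (ord n) ∧
        ε * m ≤ |∑ i ∈ Finset.range m, del (n + i) - m|)}.ncard : ℝ) ≤
      6 * Real.exp (-c * (m * Real.log m)) * (T * Real.log T) := by
  classical
  obtain ⟨c, c1, m0, T0, hc, hc1, hm0, hT0, hB⟩ := block hRH (ε / 2) (by positivity) (by linarith)
  obtain ⟨κ0, hκ00, hκ01, H⟩ := good_sum hRH (1 / 2) (by norm_num) (by norm_num)
  obtain ⟨A1, hA1, H1⟩ := H (min κ0 (c1 / 2)) (lt_min hκ00 (by positivity)) (min_le_left _ _)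
  obtain ⟨A0, hA0, hup⟩ := ord_up
  set κ : ℝ := min (min κ0 (c1 / 2)) 1 / 2 with hκ
  have hκpos : 0 < κ := by
    have : 0 < min (min κ0 (c1 / 2)) 1 := lt_min (lt_min hκ00 (by positivity)) one_pos
    positivity
  have hκle : κ ≤ 1 / 2 := by
    have : min (min κ0 (c1 / 2)) 1 ≤ 1 := min_le_right _ _
    linarith
  have hκ2 : 2 * κ ≤ min κ0 (c1 / 2) := by
    have : min (min κ0 (c1 / 2)) 1 ≤ min κ0 (c1 / 2) := min_le_left _ _
    linarith
  have hκc1 : 4 * κ ≤ c1 := by
    have : min κ0 (c1 / 2) ≤ c1 / 2 := min_le_right _ _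
    linarith
  obtain ⟨TL, hTL, hlog⟩ := LG.CTAux.log_ev (max (48 / ε + 2) (1 / κ + 2))
  refine ⟨c, κ, m0, max (max A0 A1) (max TL (2 * T0)), hc, hκpos, by linarith, hm0,
    hA0.trans ((le_max_left _ _).trans (le_max_left _ _)), fun T hT m hm => ?_⟩
  have hTA0 : A0 ≤ T := ((le_max_left _ _).trans (le_max_left _ _)).trans hT
  have hTA1 : A1 ≤ T := ((le_max_right _ _).trans (le_max_left _ _)).trans hT
  have hTTL : TL ≤ T := ((le_max_left _ _).trans (le_max_right _ _)).trans hT
  have hTT0 : 2 * T0 ≤ T := ((le_max_right _ _).trans (le_max_right _ _)).trans hT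
  obtain ⟨hL1, hL2⟩ := hlog T hTTL
  have hLε : 48 / ε + 2 ≤ Real.log T := (le_max_left _ _).trans hL1
  have hLκ : 1 / κ + 2 ≤ Real.log T := (le_max_right _ _).trans hL1
  have hT100 : 100 ≤ T := by
    have : 0 < 48 / ε := by positivity
    linarith
  have hTpos : 0 < T := by linarith
  set L := Real.log T with hLd
  have hL2' : 2 ≤ L := by
    have : 0 < 48 / ε := by positivity
    linarith
  have hm3 : (3 : ℝ) ≤ m := hm0.trans hm
  have hmpos : (0 : ℝ) < m := by linarith
  have hlogm : 0 < Real.log m := Real.log_pos (by linarith)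
  set S := {n : ℕ | 1 ≤ n ∧ T ≤ ord n ∧ ord n ≤ 3 / 2 * T ∧ ((m : ℝ) ≤ κ * Real.log (ord n) ∧
        ε * m ≤ |∑ i ∈ Finset.range m, del (n + i) - m|)} with hS
  have hSfin : S.Finite := LG.GapAux.fin_ord (3 / 2 * T) S fun n hn => ⟨hn.1, hn.2.2.1⟩
  set X := Real.exp (-c * (m * Real.log m)) with hX
  have hX0 : 0 < X := Real.exp_pos _
  -- the end points
  have hend : ∀ n ∈ S, ord (n + m) ≤ ord n + 20 ∧ ord n ≤ ord (n + m) := by
    rintro n ⟨a1, a2, a3, a4, a5⟩
    have hmono : ord n ≤ ord (n + m) := SG.ord_mono a1 (by omega)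
    refine ⟨?_, hmono⟩
    set a := ord n with ha
    have hapos : 0 < a := by linarith
    have hlogaT : L ≤ Real.log a := Real.log_le_log hTpos a2
    set κ' := min κ0 (c1 / 2) with hκ'
    have hκ'1 : κ' ≤ 1 := (min_le_left _ _).trans hκ01
    have hκ'0 : 0 < κ' := lt_min hκ00 (by positivity)
    have h1 := H1 n a1 (by linarith)
    rw [← ha] at h1
    set f := ⌊κ' * Real.log a⌋₊ with hf
    have hf1 : (f : ℝ) ≤ κ' * Real.log a := Nat.floor_le (by
      have : 0 ≤ Real.log a := by linarith
      positivity)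
    have hf2 : κ' * Real.log a < f + 1 := Nat.lt_floor_add_one _
    have hκL : 1 ≤ κ * Real.log a := by
      have h2 : κ * (1 / κ) ≤ κ * Real.log a :=
        mul_le_mul_of_nonneg_left (by linarith) hκpos.le
      have h3 : κ * (1 / κ) = 1 := by field_simp
      linarith
    have hmf : (m : ℝ) ≤ f := by
      have h2 : 2 * κ * Real.log a ≤ κ' * Real.log a :=
        mul_le_mul_of_nonneg_right hκ2 (by linarith)
      linarith
    have hmf' : m ≤ f := by exact_mod_cast hmf
    have hlog' := (hlog a (by linarith)).2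
    have hfa : (f : ℝ) ≤ a := by
      have : κ' * Real.log a ≤ 1 * Real.log a := mul_le_mul_of_nonneg_right hκ'1 (by linarith)
      linarith
    have h2 := hup n f a1 (by linarith) hfa
    rw [← ha] at h2
    have h3 := transfer (n := n) (m := f) (R := a) a1 (by linarith) (by linarith) (by linarith)
      (by linarith)
    rw [← ha] at h3
    set D := (ord (n + f) - a) / (2 * Real.pi) with hD
    have hmf2 : ord (n + m) ≤ ord (n + f) := SG.ord_mono (by omega) (by omega)
    have hD0 : 0 ≤ D := div_nonneg (by linarith) (by linarith [Real.pi_pos])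
    have h4 : D * Real.log a ≤ 3 / 2 * f + 3 * D := by
      have g1 := (abs_le.mp h1).2
      have g2 := (abs_le.mp h3).1
      linarith
    have h5 : D * Real.log a ≤ 3 / 2 * Real.log a + 3 * D := by
      have : κ' * Real.log a ≤ 1 * Real.log a := mul_le_mul_of_nonneg_right hκ'1 (by linarith)
      linarith
    have h48 : 48 ≤ 48 / ε := by
      rw [le_div_iff₀ hε]; nlinarith
    have h6 : D ≤ 5 / 3 := by
      by_contra hcon
      push Not at hcon
      have h7 : 0 < (D - 5 / 3) * (Real.log a - 3) := mul_pos (by linarith) (by linarith)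
      have h8 : (D - 5 / 3) * (Real.log a - 3) = D * Real.log a - 3 * D - 5 / 3 * Real.log a + 5 := by
        ring
      rw [h8] at h7
      linarith
    have h7 : ord (n + f) - a = D * (2 * Real.pi) := by
      rw [hD, div_mul_cancel₀]
      have := Real.pi_pos
      positivity
    have hpi4 := Real.pi_lt_four
    have h8 : D * (2 * Real.pi) ≤ 5 / 3 * (2 * 4) := by
      apply mul_le_mul h6 (by linarith) (by linarith [Real.pi_pos]) (by norm_num)
    linarith
  -- block bound
  have key : ∀ r : ℝ, 7 / 10 ≤ r → r ≤ 13 / 10 → ∀ F : Finset ℕ,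
      (∀ n ∈ F, n ∈ S ∧ r * T + 3 * Real.log (r * T) ≤ ord n ∧
        ord (n + m) ≤ 2 * (r * T) - 3 * Real.log (r * T)) →
      (F.card : ℝ) ≤ 26 / 10 * X * (T * L) := by
    intro r hr1 hr2 F hF
    have hrT : T0 ≤ r * T := by nlinarith
    have hrT0 : 0 < r * T := by positivity
    have hrT1 : 60 ≤ r * T := by nlinarith
    have hlog2 : Real.log (r * T) ≤ 2 * L := by
      have h1 : r * T ≤ T ^ 2 := by nlinarith
      have h2 := Real.log_le_log hrT0 h1
      rw [Real.log_pow] at h2
      push_cast at h2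
      exact h2
    have hlog3 : L - 1 ≤ Real.log (r * T) := by
      rw [Real.log_mul (by linarith) hTpos.ne']
      have h2 := Real.one_sub_inv_le_log_of_pos (show (0 : ℝ) < r by linarith)
      have h3 : r⁻¹ ≤ 2 := by
        rw [inv_le_comm₀ (by linarith) (by norm_num)]; linarith
      linarith
    have hlogpos : 0 < Real.log (r * T) := Real.log_pos (by linarith)
    have hlog1 : Real.log (3 / 2 * T) ≤ 4 * Real.log (r * T) := by
      have h1 : Real.log (3 / 2 * T) ≤ L + 1 := by
        rw [Real.log_mul (by norm_num) hTpos.ne']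
        have := Real.log_le_sub_one_of_pos (show (0 : ℝ) < 3 / 2 by norm_num)
        linarith
      linarith
    by_cases hne : F.Nonempty
    · obtain ⟨n1, hn1⟩ := hne
      have hmc : (m : ℝ) ≤ c1 * Real.log (r * T) := by
        obtain ⟨⟨a1, a2, a3, a4, a5⟩, -, -⟩ := hF n1 hn1
        have h1 : Real.log (ord n1) ≤ Real.log (3 / 2 * T) := Real.log_le_log (by linarith) a3
        have h2 : κ * Real.log (ord n1) ≤ κ * (4 * Real.log (r * T)) :=
          mul_le_mul_of_nonneg_left (by linarith) hκpos.le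
        have h3 : 4 * κ * Real.log (r * T) ≤ c1 * Real.log (r * T) :=
          mul_le_mul_of_nonneg_right hκc1 hlogpos.le
        linarith
      have h1 := hB (r * T) hrT m hm hmc F (by
        intro n hn
        obtain ⟨hnS, a5, a6⟩ := hF n hn
        obtain ⟨e1, e2⟩ := hend n hnS
        obtain ⟨a1, a2, a3, a4, a7⟩ := hnS
        refine ⟨a1, a5, a6, ?_⟩
        have h3 := transfer (n := n) (m := m) (R := r * T) a1 (by linarith) (by nlinarith)
          (by nlinarith) (by linarith)
        set D := (ord (n + m) - ord n) / (2 * Real.pi) with hD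
        have hD0 : 0 ≤ D := div_nonneg (by linarith) (by linarith [Real.pi_pos])
        have e3 : (ord (n + m) - ord n) * Real.log (r * T) / (2 * Real.pi) =
            D * Real.log (r * T) := by rw [hD]; ring
        rw [e3]
        have hℓ : 48 / ε ≤ Real.log (r * T) := by linarith
        have h4 : 3 * D ≤ ε / 16 * (D * Real.log (r * T)) := by
          have h5 : D * (48 / ε) ≤ D * Real.log (r * T) := mul_le_mul_of_nonneg_left hℓ hD0
          have h6 := mul_le_mul_of_nonneg_left h5 (show 0 ≤ ε / 16 by positivity)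
          have h7 : ε / 16 * (D * (48 / ε)) = 3 * D := by field_simp; ring
          linarith
        have h5 := abs_sub_le (∑ i ∈ Finset.range m, del (n + i)) (D * Real.log (r * T)) m
        rcases le_or_gt (D * Real.log (r * T)) (2 * m) with h6 | h6
        · have h7 : ε / 16 * (D * Real.log (r * T)) ≤ ε / 16 * (2 * m) :=
            mul_le_mul_of_nonneg_left h6 (by positivity)
          have h8 : 0 ≤ ε * m := by positivity
          linarith
        · have h7 := le_abs_self (D * Real.log (r * T) - m)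
          have h8 : ε / 2 * m ≤ 1 * m := mul_le_mul_of_nonneg_right (by linarith) hmpos.le
          linarith)
      refine h1.trans ?_
      have h2 : r * T * Real.log (r * T) ≤ 13 / 10 * T * (2 * L) := by
        apply mul_le_mul _ hlog2 hlogpos.le (by positivity)
        exact mul_le_mul_of_nonneg_right hr2 hTpos.le
      calc r * T * Real.log (r * T) * X ≤ 13 / 10 * T * (2 * L) * X :=
            mul_le_mul_of_nonneg_right h2 hX0.le
        _ = _ := by ring
    · rw [Finset.not_nonempty_iff_eq_empty] at hne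
      rw [hne, Finset.card_empty]
      have : 0 ≤ T * L := by positivity
      simp only [Nat.cast_zero]
      positivity
  -- split
  have hlog7 : Real.log (7 / 10 * T) ≤ L := Real.log_le_log (by positivity) (by linarith)
  have hlog13 : Real.log (13 / 10 * T) ≤ L + 1 := by
    rw [Real.log_mul (by norm_num) hTpos.ne']
    have := Real.log_le_sub_one_of_pos (show (0 : ℝ) < 13 / 10 by norm_num)
    linarith
  have hT2000 : 20 + 6 * L + 3 ≤ T / 10 := by
    have h48 : 48 ≤ 48 / ε := by
      rw [le_div_iff₀ hε]; nlinarith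
    linarith
  set F1 : Finset ℕ := hSfin.toFinset.filter
    (fun n => ord (n + m) ≤ 2 * (7 / 10 * T) - 3 * Real.log (7 / 10 * T)) with hF1
  set F2 : Finset ℕ := hSfin.toFinset.filter
    (fun n => ¬ (ord (n + m) ≤ 2 * (7 / 10 * T) - 3 * Real.log (7 / 10 * T))) with hF2
  have hcard : S.ncard = F1.card + F2.card := by
    rw [Set.ncard_eq_toFinset_card S hSfin, hF1, hF2, Finset.card_filter_add_card_filter_not]
  have hb1 : (F1.card : ℝ) ≤ 26 / 10 * X * (T * L) := by
    apply key (7 / 10) le_rfl (by norm_num)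
    intro n hn
    rw [hF1, Finset.mem_filter, Set.Finite.mem_toFinset] at hn
    obtain ⟨hnS, a5⟩ := hn
    exact ⟨hnS, by linarith [hnS.2.1], a5⟩
  have hb2 : (F2.card : ℝ) ≤ 26 / 10 * X * (T * L) := by
    apply key (13 / 10) (by norm_num) le_rfl
    intro n hn
    rw [hF2, Finset.mem_filter, Set.Finite.mem_toFinset] at hn
    obtain ⟨hnS, a5⟩ := hn
    push Not at a5
    obtain ⟨e1, e2⟩ := hend n hnS
    exact ⟨hnS, by linarith, by linarith [hnS.2.2.1]⟩
  have htot : (S.ncard : ℝ) ≤ 52 / 10 * X * (T * L) := by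
    rw [hcard]
    push_cast
    linarith
  refine htot.trans ?_
  have : 0 ≤ X * (T * L) := by positivity
  linarith

/-- On RH the sums of `m` consecutive unfolded gaps deviate from `m` by `ε m` with frequency at most
`exp (-c m log m)`, uniformly in the number `N` of gaps -/
theorem main (hRH : RHs) (ε : ℝ) (hε : 0 < ε) (hε1 : ε ≤ 1) :
    ∃ c : ℝ, 0 < c ∧ ∃ m0 : ℕ, 1 ≤ m0 ∧ ∀ N : ℕ, 1 ≤ N → ∀ m : ℕ, m0 ≤ m →
    ({n : ℕ | 1 ≤ n ∧ n ≤ N ∧ ε * m ≤ |∑ i ∈ Finset.range m, del (n + i) - m|}.ncard : ℝ) ≤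
      N * Real.exp (-c * (m * Real.log m)) := by
  obtain ⟨c2, κ, m1, T1, hc2, hκ0, hκ1, hm1, hT1, hblock⟩ := del_block hRH ε hε hε1
  obtain ⟨A, hA10, hall⟩ := all_sum hRH (ε / 2) (by positivity) (by linarith) κ hκ0 hκ1
  obtain ⟨c1, T2, hc1, hT2, hlow⟩ := LG.GapAux.NZ_low
  set T3 : ℝ := max (max A (2 * T1)) (3 * T2 + 3) with hT3
  have hT30 : A ≤ T3 := (le_max_left _ _).trans (le_max_left _ _)
  have hT31 : 2 * T1 ≤ T3 := (le_max_right _ _).trans (le_max_left _ _)
  have hT32 : 3 * T2 + 3 ≤ T3 := le_max_right _ _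
  -- small indices
  set n3 : ℕ := NZ T3 + 1 with hn3
  have hordn3 : T3 < ord n3 := by
    by_contra hcon
    push Not at hcon
    have := (SG.ord_le_iff (by omega : 1 ≤ n3) T3).mp hcon
    omega
  set M : ℝ := ∑ n ∈ Finset.Icc 1 n3, |del n| with hM
  have hM0 : 0 ≤ M := Finset.sum_nonneg fun n _ => abs_nonneg _
  set K1 : ℝ := 18 * 3 * (2 / c1) with hK1
  have hK1pos : 0 < K1 := by positivity
  set y0 : ℝ := max (max (n3 + κ * Real.log (ord n3) + 1) (4 * (M + 2 * n3 + 1) / ε))
    (max (max m1 3) (2 * |Real.log K1| / c2)) with hy0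
  have hy1 : n3 + κ * Real.log (ord n3) + 1 ≤ y0 := (le_max_left _ _).trans (le_max_left _ _)
  have hy2 : 4 * (M + 2 * n3 + 1) / ε ≤ y0 := (le_max_right _ _).trans (le_max_left _ _)
  have hy3 : m1 ≤ y0 := ((le_max_left _ _).trans (le_max_left _ _)).trans (le_max_right _ _)
  have hy4 : 3 ≤ y0 := ((le_max_right _ _).trans (le_max_left _ _)).trans (le_max_right _ _)
  have hy5 : 2 * |Real.log K1| / c2 ≤ y0 := (le_max_right _ _).trans (le_max_right _ _)
  refine ⟨c2 / 2, by positivity, ⌈y0⌉₊, ?_, fun N hN m hm => ?_⟩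
  · have : (0 : ℝ) < ⌈y0⌉₊ := lt_of_lt_of_le (by linarith) (Nat.le_ceil y0)
    exact_mod_cast this
  have hym : y0 ≤ m := (Nat.le_ceil y0).trans (by exact_mod_cast hm)
  have hm3 : (3 : ℝ) ≤ m := hy4.trans hym
  have hmpos : (0 : ℝ) < m := by linarith
  have hm1' : 1 ≤ m := by
    have : (1 : ℝ) ≤ m := by linarith
    exact_mod_cast this
  have hlogm : 1 ≤ Real.log m := by
    rw [Real.le_log_iff_exp_le hmpos]
    have := Real.exp_one_lt_d9
    linarith
  set Y : ℝ := ord N with hYdef
  set S : Set ℕ := {n : ℕ | 1 ≤ n ∧ n ≤ N ∧ ε * m ≤ |∑ i ∈ Finset.range m, del (n + i) - m|} with hS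
  -- members of `S` have large ordinates
  have hbig : ∀ n ∈ S, T3 < ord n := by
    rintro n ⟨a1, a2, a3⟩
    by_contra hcon
    push Not at hcon
    have h1 : n ≤ NZ T3 := (SG.ord_le_iff a1 T3).mp hcon
    set d : ℕ := n3 - n with hd
    have hnd : n + d = n3 := by omega
    have hdn : d ≤ n3 := by omega
    have hlogn3 : 0 ≤ κ * Real.log (ord n3) :=
      mul_nonneg (by linarith) (Real.log_nonneg (by linarith))
    have hdm : n3 < m := by
      have : (n3 : ℝ) < m := by linarith
      exact_mod_cast this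
    set m' : ℕ := m - d with hm'
    have hmm : m = d + m' := by omega
    have hsplit : ∑ i ∈ Finset.range m, del (n + i) =
        ∑ i ∈ Finset.range d, del (n + i) + ∑ i ∈ Finset.range m', del (n3 + i) := by
      rw [hmm, Finset.sum_range_add]
      congr 1
      apply Finset.sum_congr rfl
      intro i _
      congr 1
      omega
    have hpart : |∑ i ∈ Finset.range d, del (n + i)| ≤ M := by
      refine (Finset.abs_sum_le_sum_abs _ _).trans ?_
      have h3 : ∑ i ∈ Finset.range d, |del (n + i)| =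
          ∑ j ∈ (Finset.range d).image (fun i => n + i), |del j| := by
        rw [Finset.sum_image]
        intro a _ b _ hab
        simp only at hab
        omega
      rw [h3]
      apply Finset.sum_le_sum_of_subset_of_nonneg
      · intro j hj
        rw [Finset.mem_image] at hj
        obtain ⟨i, hi, rfl⟩ := hj
        rw [Finset.mem_range] at hi
        rw [Finset.mem_Icc]
        omega
      · intro j _ _
        exact abs_nonneg _
    have hm'r : (m' : ℝ) = m - d := by
      rw [hm', Nat.cast_sub (by omega)]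
    have hdr : (d : ℝ) ≤ n3 := by exact_mod_cast hdn
    have hd0 : (0 : ℝ) ≤ d := Nat.cast_nonneg _
    have h2 := hall n3 (by omega) (by linarith) m' (by rw [hm'r]; linarith)
    have h3 : ε * m ≤ M + d + ε / 2 * m := by
      refine a3.trans ?_
      rw [hsplit]
      have e1 : ∑ i ∈ Finset.range d, del (n + i) + ∑ i ∈ Finset.range m', del (n3 + i) - m =
          ∑ i ∈ Finset.range d, del (n + i) + ((∑ i ∈ Finset.range m', del (n3 + i) - m') + (-d)) := by
        rw [hm'r]; ring
      rw [e1]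
      refine (abs_add_le _ _).trans ?_
      have h4 := abs_add_le (∑ i ∈ Finset.range m', del (n3 + i) - m') (-(d : ℝ))
      rw [abs_neg, abs_of_nonneg hd0] at h4
      rw [hm'r] at h2 h4 ⊢
      have h5 : 0 ≤ ε / 2 * (d : ℝ) := by positivity
      linarith
    have h4 : 4 * (M + 2 * n3 + 1) ≤ m * ε := by
      have := hy2.trans hym
      rwa [div_le_iff₀ hε] at this
    have h5 : (0 : ℝ) ≤ n3 := Nat.cast_nonneg _
    linarith
  have hRpos : 0 ≤ (N : ℝ) * Real.exp (-(c2 / 2) * (m * Real.log m)) := by positivity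
  by_cases hYT : Y ≤ T3
  · have hemp : S = ∅ := by
      rw [Set.eq_empty_iff_forall_notMem]
      intro n hn
      have h1 := hbig n hn
      have h2 : ord n ≤ Y := SG.ord_mono hn.1 hn.2.1
      linarith
    rw [hemp, Set.ncard_empty]
    simpa using hRpos
  · push Not at hYT
    have hYpos : 0 < Y := by linarith
    set B : ℝ := 6 * Real.exp (-c2 * (m * Real.log m)) with hB
    have hB0 : 0 ≤ B := by positivity
    have h1 := LG.CU.sum_blocks (fun n => (m : ℝ) ≤ κ * Real.log (ord n) ∧
        ε * m ≤ |∑ i ∈ Finset.range m, del (n + i) - m|) B T1 hB0 hT1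
      (fun T hT => hblock T hT m (hy3.trans hym)) T3 hT31 Y (by linarith)
    have hsub : S ⊆ {n : ℕ | 1 ≤ n ∧ T3 < ord n ∧ ord n ≤ Y ∧
        ((m : ℝ) ≤ κ * Real.log (ord n) ∧ ε * m ≤ |∑ i ∈ Finset.range m, del (n + i) - m|)} := by
      intro n hn
      have hn3' := hbig n hn
      refine ⟨hn.1, hn3', SG.ord_mono hn.1 hn.2.1, ?_, hn.2.2⟩
      by_contra hcon
      push Not at hcon
      have h2 := hall n hn.1 (by linarith) m hcon.le
      have h3 := hn.2.2
      have h4 : 0 < ε * m := by positivity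
      linarith
    have hfin : {n : ℕ | 1 ≤ n ∧ T3 < ord n ∧ ord n ≤ Y ∧
        ((m : ℝ) ≤ κ * Real.log (ord n) ∧
          ε * m ≤ |∑ i ∈ Finset.range m, del (n + i) - m|)}.Finite :=
      LG.GapAux.fin_ord Y _ (fun n hn => ⟨hn.1, hn.2.2.1⟩)
    have h2 : (S.ncard : ℝ) ≤ 3 * B * (Y * Real.log Y) := by
      refine le_trans ?_ h1
      exact_mod_cast Set.ncard_le_ncard hsub hfin
    -- `N` against `Y log Y`
    have h3 := hlow (Y / 3) (by linarith)
    have h4 : NZ (2 * (Y / 3)) < N := by
      by_contra hcon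
      push Not at hcon
      have h5 : ord N ≤ 2 * (Y / 3) := (SG.ord_le_iff hN _).mpr hcon
      rw [← hYdef] at h5
      linarith
    have h5 : (NZ (2 * (Y / 3)) : ℝ) ≤ N := by exact_mod_cast h4.le
    have h6 : Real.log Y ≤ 2 * Real.log (Y / 3) := by
      have h7 : Y ≤ (Y / 3) ^ 2 := by nlinarith
      have h8 := Real.log_le_log hYpos h7
      rw [Real.log_pow] at h8
      push_cast at h8
      exact h8
    have h9 : Y * Real.log Y ≤ 3 * (2 / c1) * N := by
      have h10 : c1 * (Y / 3 * Real.log (Y / 3)) ≤ N := h3.trans h5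
      have h11 : Y * Real.log Y ≤ Y * (2 * Real.log (Y / 3)) := mul_le_mul_of_nonneg_left h6 hYpos.le
      have h12 : Y * (2 * Real.log (Y / 3)) = 3 * (2 / c1) * (c1 * (Y / 3 * Real.log (Y / 3))) := by
        field_simp
      rw [h12] at h11
      refine h11.trans (mul_le_mul_of_nonneg_left h10 (by positivity))
    have h17 : K1 ≤ Real.exp (c2 / 2 * (m * Real.log m)) := by
      rw [← Real.log_le_iff_le_exp hK1pos]
      have h19 := hy5.trans hym
      rw [div_le_iff₀ hc2] at h19
      have h20 := le_abs_self (Real.log K1)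
      have h21 : (m : ℝ) * 1 ≤ m * Real.log m := mul_le_mul_of_nonneg_left hlogm hmpos.le
      nlinarith
    calc (S.ncard : ℝ) ≤ 3 * B * (Y * Real.log Y) := h2
      _ ≤ 3 * B * (3 * (2 / c1) * N) :=
          mul_le_mul_of_nonneg_left h9 (by positivity)
      _ = N * (K1 * Real.exp (-c2 * (m * Real.log m))) := by rw [hK1, hB]; ring
      _ ≤ N * (Real.exp (c2 / 2 * (m * Real.log m)) * Real.exp (-c2 * (m * Real.log m))) := by
          apply mul_le_mul_of_nonneg_left _ (Nat.cast_nonneg _)
          exact mul_le_mul_of_nonneg_right h17 (Real.exp_pos _).le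
      _ = N * Real.exp (-(c2 / 2) * (m * Real.log m)) := by
          rw [← Real.exp_add]
          congr 2
          ring

end Pool.Agent.TH800.LD
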