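import Pool.Agent.TH800.LD.Asm1

/-! Assembly, part 2: long sums of unfolded gaps have no exceptions (owner helper800). -/

set_option autoImplicit false

open Complex Filter Topology Set MeasureTheory

namespace Pool.Agent.TH800.LD

open SP (RHs)
open SG (ord NZ zmult ZS)
open LG.CU (del)

/-- sums of the unfolded gaps of length `κ log` are close to their length -/
theorem good_sum (hRH : RHs) (ε : ℝ) (hε : 0 < ε) (hε1 : ε ≤ 1) : ∃ κ0 : ℝ, 0 < κ0 ∧ κ0 ≤ 1 ∧
    ∀ κ : ℝ, 0 < κ → κ ≤ κ0 → ∃ A : ℝ, 10 ≤ A ∧ ∀ n : ℕ, 1 ≤ n → A ≤ ord n →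
    |∑ i ∈ Finset.range ⌊κ * Real.log (ord n)⌋₊, del (n + i) - ⌊κ * Real.log (ord n)⌋₊| ≤
      ε * ⌊κ * Real.log (ord n)⌋₊ := by
  obtain ⟨κ0, hκ00, hκ01, H⟩ := good_f hRH (ε / 4) (by positivity) (by linarith)
  obtain ⟨A0, hA0, hup⟩ := ord_up
  refine ⟨κ0, hκ00, hκ01, fun κ hκ hκ0 => ?_⟩
  obtain ⟨A1, hA1, H1⟩ := H κ hκ hκ0
  obtain ⟨TL, hTL, hlog⟩ := LG.CTAux.log_ev (24 / ε + 2)
  refine ⟨max (max A0 A1) TL, hA0.trans ((le_max_left _ _).trans (le_max_left _ _)),
    fun n hn hA => ?_⟩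
  set a := ord n with ha
  have ha1 : A0 ≤ a := ((le_max_left _ _).trans (le_max_left _ _)).trans hA
  have ha2 : A1 ≤ a := ((le_max_right _ _).trans (le_max_left _ _)).trans hA
  have ha3 : TL ≤ a := (le_max_right _ _).trans hA
  obtain ⟨hL1, hL2⟩ := hlog a ha3
  have hapos : 0 < a := by linarith
  have h1 := H1 n hn ha2
  rw [← ha] at h1
  have hLpos : 0 < Real.log a := by
    have : 0 < 24 / ε := by positivity
    linarith
  have hm1 : (⌊κ * Real.log a⌋₊ : ℝ) ≤ κ * Real.log a := Nat.floor_le (by positivity)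
  set m := ⌊κ * Real.log a⌋₊ with hm
  have hma : (m : ℝ) ≤ a := by
    have : κ * Real.log a ≤ 1 * Real.log a := mul_le_mul_of_nonneg_right (by linarith) hLpos.le
    linarith
  have h2 := hup n m hn ha1 hma
  rw [← ha] at h2
  have h3 := transfer (n := n) (m := m) (R := 9 / 10 * a) hn (by linarith) (by linarith)
    (by linarith) (by linarith)
  rw [← ha] at h3
  have hmono : a ≤ ord (n + m) := SG.ord_mono hn (by omega)
  set D := (ord (n + m) - a) / (2 * Real.pi) with hD
  have hD0 : 0 ≤ D := div_nonneg (by linarith) (by linarith [Real.pi_pos])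
  set ℓ := Real.log (9 / 10 * a) with hℓ
  have hℓ1 : 24 / ε ≤ ℓ := by
    have h5 : Real.log (9 / 10) + Real.log a = ℓ := by
      rw [hℓ, Real.log_mul (by norm_num) hapos.ne']
    have h6 := Real.one_sub_inv_le_log_of_pos (show (0 : ℝ) < 9 / 10 by norm_num)
    norm_num at h6
    linarith
  have e1 : (ord (n + m) - a) * ℓ / (2 * Real.pi) = D * ℓ := by rw [hD]; ring
  rw [e1] at h1
  have hm0 : (0 : ℝ) ≤ m := Nat.cast_nonneg _
  have h4 : D * ℓ ≤ 2 * m := by
    have := (abs_le.mp h1).2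
    nlinarith
  have h5 : 3 * D ≤ ε / 4 * m := by
    have h6 : D * (24 / ε) ≤ D * ℓ := mul_le_mul_of_nonneg_left hℓ1 hD0
    have h7 : D * (24 / ε) ≤ 2 * m := h6.trans h4
    rw [mul_div_assoc', div_le_iff₀ hε] at h7
    linarith
  have h6 := abs_sub_le (∑ i ∈ Finset.range m, del (n + i)) (D * ℓ) m
  have h7 : 0 ≤ ε * m := by positivity
  linarith

/-- `ord N ≤ N` for large `N` -/
theorem ord_le_self : ∃ N0 : ℕ, 1 ≤ N0 ∧ ∀ N : ℕ, N0 ≤ N → ord N ≤ N := by
  obtain ⟨c, T1, hc, hT1, h⟩ := LG.GapAux.NZ_low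
  obtain ⟨T2, hT2⟩ := (tendsto_atTop.mp Real.tendsto_log_atTop (2 / c)).exists_forall_of_atTop
  refine ⟨⌈2 * (max T1 T2)⌉₊, ?_, fun N hN => ?_⟩
  · have h1 : 0 < 2 * (max T1 T2) := by linarith [le_max_left T1 T2]
    exact Nat.one_le_iff_ne_zero.mpr (Nat.ceil_pos.mpr h1).ne'
  · have h1 : 2 * (max T1 T2) ≤ N := (Nat.le_ceil _).trans (by exact_mod_cast hN)
    have h2 : T1 ≤ (N : ℝ) / 2 := by linarith [le_max_left T1 T2]
    have h3 : T2 ≤ (N : ℝ) / 2 := by linarith [le_max_right T1 T2]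
    have h4 := h ((N : ℝ) / 2) h2
    have h5 := hT2 ((N : ℝ) / 2) h3
    have hN0 : (0 : ℝ) < N := by linarith
    have h6 : (N : ℝ) ≤ c * (N / 2 * Real.log (N / 2)) := by
      have h7 : (N : ℝ) / 2 * (2 / c) ≤ N / 2 * Real.log (N / 2) :=
        mul_le_mul_of_nonneg_left h5 (by linarith)
      have h8 := mul_le_mul_of_nonneg_left h7 hc.le
      have h9 : c * ((N : ℝ) / 2 * (2 / c)) = N := by field_simp
      linarith
    have h7 : (N : ℝ) ≤ NZ (2 * (N / 2)) := h6.trans h4
    have h8 : (2 : ℝ) * (N / 2) = N := by ring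
    rw [h8] at h7
    apply (SG.ord_le_iff _ _).mpr
    · exact_mod_cast h7
    · have : (0 : ℕ) < N := by exact_mod_cast hN0
      omega

/-- `n ≤ (ord n) ^ 3` for large `ord n` -/
theorem n_le_cube : ∃ A : ℝ, 10 ≤ A ∧ ∀ n : ℕ, 1 ≤ n → A ≤ ord n → (n : ℝ) ≤ ord n ^ 3 := by
  obtain ⟨C, hC, h⟩ := LG.CU.NZ_inc
  refine ⟨max 10 (NZ 3 + 20 * C), le_max_left _ _, fun n hn hA => ?_⟩
  set a := ord n with ha
  have ha1 : 10 ≤ a := (le_max_left _ _).trans hA
  have ha2 : (NZ 3 : ℝ) + 20 * C ≤ a := (le_max_right _ _).trans hA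
  have hN3 : (0 : ℝ) ≤ NZ 3 := Nat.cast_nonneg _
  set j := ⌈a⌉₊ with hj
  have hj1 : a ≤ j := Nat.le_ceil _
  have hj2 : (j : ℝ) < a + 1 := Nat.ceil_lt_add_one (by linarith)
  have h1 := h 3 le_rfl j
  have h2 : NZ a ≤ NZ (3 + 2 * j) := SG.NZ_mono (by linarith)
  have h3 : (n : ℝ) ≤ NZ (3 + 2 * j) := by
    exact_mod_cast (SG.le_NZ_ord hn).trans h2
  have h4 : Real.log (3 + 2 * j) ≤ 3 * a := by
    have := Real.log_le_sub_one_of_pos (show (0 : ℝ) < 3 + 2 * j by positivity)
    linarith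
  have h5 : C * j * Real.log (3 + 2 * j) ≤ C * (2 * a) * (3 * a) := by
    apply mul_le_mul _ h4 (Real.log_nonneg (by linarith)) (by positivity)
    apply mul_le_mul_of_nonneg_left (by linarith) hC.le
  nlinarith [mul_nonneg hN3 (sq_nonneg a), mul_nonneg hC.le (sq_nonneg a), sq_nonneg a]

/-- long sums of unfolded gaps have no exceptions -/
theorem all_sum (hRH : RHs) (ε : ℝ) (hε : 0 < ε) (hε1 : ε ≤ 1) (κ : ℝ) (hκ : 0 < κ) (hκ1 : κ ≤ 1) :
    ∃ A : ℝ, 10 ≤ A ∧ ∀ n : ℕ, 1 ≤ n → A ≤ ord n → ∀ m : ℕ, κ * Real.log (ord n) ≤ m →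
    |∑ i ∈ Finset.range m, del (n + i) - m| ≤ ε * m := by
  obtain ⟨κ0, hκ00, hκ01, H⟩ := good_sum hRH (ε / 4) (by positivity) (by linarith)
  set κ' : ℝ := min κ0 (κ * ε / 40) with hκ'
  have hκ'0 : 0 < κ' := lt_min hκ00 (by positivity)
  have hκ'1 : κ' ≤ κ0 := min_le_left _ _
  have hκ'2 : κ' ≤ κ * ε / 40 := min_le_right _ _
  obtain ⟨A1, hA1, H1⟩ := H κ' hκ'0 hκ'1
  obtain ⟨A2, hA2, H2⟩ := n_le_cube
  obtain ⟨N0, hN0, H3⟩ := ord_le_self
  obtain ⟨TL, hTL, hlog⟩ := LG.CTAux.log_ev (max (1 / κ') 2)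
  set A := max (max A1 A2) (max TL (ord N0 + 1)) with hA
  have hAA1 : A1 ≤ A := (le_max_left _ _).trans (le_max_left _ _)
  have hAA2 : A2 ≤ A := (le_max_right _ _).trans (le_max_left _ _)
  have hAA3 : TL ≤ A := (le_max_left _ _).trans (le_max_right _ _)
  have hAA4 : ord N0 + 1 ≤ A := (le_max_right _ _).trans (le_max_right _ _)
  have key : ∀ m n : ℕ, 1 ≤ n → A ≤ ord n →
      |∑ i ∈ Finset.range m, del (n + i) - m| ≤ ε / 4 * m + 2 * κ' * Real.log (ord (n + m)) := by
    intro m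
    induction m using Nat.strong_induction_on with
    | _ m ih =>
    intro n hn hAn
    set a := ord n with ha
    obtain ⟨hL1, hL2⟩ := hlog a (hAA3.trans hAn)
    have hLκ : 1 / κ' ≤ Real.log a := (le_max_left _ _).trans hL1
    have hapos : 0 < a := by linarith
    have hLpos : 0 < Real.log a := by
      have : 2 ≤ Real.log a := (le_max_right _ _).trans hL1
      linarith
    have hκL : 1 ≤ κ' * Real.log a := by
      rw [div_le_iff₀ hκ'0] at hLκ
      linarith
    set f := ⌊κ' * Real.log a⌋₊ with hf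
    have hf1 : (f : ℝ) ≤ κ' * Real.log a := Nat.floor_le (by positivity)
    have hf2 : 1 ≤ f := Nat.le_floor (by exact_mod_cast hκL)
    have hG := H1 n hn (hAA1.trans hAn)
    rw [← ha, ← hf] at hG
    have hmono : ∀ k : ℕ, a ≤ ord (n + k) := fun k => SG.ord_mono hn (by omega)
    have hlogmono : Real.log a ≤ Real.log (ord (n + m)) := Real.log_le_log hapos (hmono m)
    have hnn : ∀ i : ℕ, 0 ≤ del (n + i) := fun i => del_nonneg (by omega) (by
      have := hmono i
      linarith)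
    rcases lt_or_ge m f with hlt | hge
    · have h1 : ∑ i ∈ Finset.range m, del (n + i) ≤ ∑ i ∈ Finset.range f, del (n + i) := by
        apply Finset.sum_le_sum_of_subset_of_nonneg
        · intro x hx
          rw [Finset.mem_range] at hx ⊢
          omega
        · intro x _ _
          exact hnn x
      have h2 : 0 ≤ ∑ i ∈ Finset.range m, del (n + i) := Finset.sum_nonneg fun i _ => hnn i
      have h3 := (abs_le.mp hG).2
      have hf0 : (0 : ℝ) ≤ f := Nat.cast_nonneg _
      have h4 : ∑ i ∈ Finset.range f, del (n + i) ≤ 2 * f := by nlinarith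
      have h5 : (m : ℝ) ≤ f := by exact_mod_cast hlt.le
      have hm0 : (0 : ℝ) ≤ m := Nat.cast_nonneg _
      have h6 : κ' * Real.log a ≤ κ' * Real.log (ord (n + m)) :=
        mul_le_mul_of_nonneg_left hlogmono hκ'0.le
      have h7 : 0 ≤ ε / 4 * m := by positivity
      rw [abs_le]
      constructor
      · linarith
      · linarith
    · have hn' : 1 ≤ n + f := by omega
      have h1 := ih (m - f) (by omega) (n + f) hn' (hAn.trans (hmono f))
      have e1 : n + f + (m - f) = n + m := by omega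
      rw [e1] at h1
      have e2 : ∑ i ∈ Finset.range m, del (n + i) =
          ∑ i ∈ Finset.range f, del (n + i) + ∑ i ∈ Finset.range (m - f), del (n + f + i) := by
        have e3 : m = f + (m - f) := by omega
        conv_lhs => rw [e3]
        rw [Finset.sum_range_add]
        congr 1
        apply Finset.sum_congr rfl
        intro i _
        rw [add_assoc]
      have e4 : ((m - f : ℕ) : ℝ) = m - f := by rw [Nat.cast_sub hge]
      rw [e4] at h1
      rw [e2]
      have h2 := abs_add_le (∑ i ∈ Finset.range f, del (n + i) - f)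
        (∑ i ∈ Finset.range (m - f), del (n + f + i) - (m - f))
      have e5 : ∑ i ∈ Finset.range f, del (n + i) + ∑ i ∈ Finset.range (m - f), del (n + f + i) - m =
          (∑ i ∈ Finset.range f, del (n + i) - f) +
          (∑ i ∈ Finset.range (m - f), del (n + f + i) - (m - f)) := by ring
      rw [e5]
      refine h2.trans ?_
      have h3 : ε / 4 * ((m : ℝ) - f) = ε / 4 * m - ε / 4 * f := by ring
      linarith
  refine ⟨A, hA1.trans hAA1, fun n hn hAn m hm => ?_⟩
  have h1 := key m n hn hAn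
  refine h1.trans ?_
  set a := ord n with ha
  obtain ⟨hL1, hL2⟩ := hlog a (hAA3.trans hAn)
  have hL2' : 2 ≤ Real.log a := (le_max_right _ _).trans hL1
  have hLκ : 1 / κ' ≤ Real.log a := (le_max_left _ _).trans hL1
  have hapos : 0 < a := by linarith
  have hκL : 1 ≤ κ' * Real.log a := by
    rw [div_le_iff₀ hκ'0] at hLκ
    linarith
  have hκ'κ : κ' ≤ κ := by
    have h0 : κ * ε ≤ κ * 1 := mul_le_mul_of_nonneg_left hε1 hκ.le
    have h00 : 0 < κ * ε := by positivity
    linarith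
  have hm1 : (1 : ℝ) ≤ m := by
    have : κ' * Real.log a ≤ κ * Real.log a := mul_le_mul_of_nonneg_right hκ'κ (by linarith)
    linarith
  -- `n` is beyond `N0`
  have hnN0 : N0 ≤ n := by
    by_contra hcon
    push Not at hcon
    have h2 : ord n ≤ ord N0 := SG.ord_mono hn hcon.le
    linarith
  have h2 := H3 (n + m) (by omega)
  have h3 := H2 n hn (hAA2.trans hAn)
  rw [← ha] at h3
  have hge : a ≤ ord (n + m) := SG.ord_mono hn (by omega)
  have hn1 : (1 : ℝ) ≤ n := by exact_mod_cast hn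
  have h4 : Real.log (ord (n + m)) ≤ Real.log (2 * n * m) := by
    apply Real.log_le_log (by linarith)
    refine h2.trans ?_
    push_cast
    nlinarith
  have h5 : Real.log (2 * n * m) = Real.log 2 + Real.log n + Real.log m := by
    rw [Real.log_mul (by positivity) (by positivity), Real.log_mul (by norm_num) (by positivity)]
  have h6 : Real.log n ≤ 3 * Real.log a := by
    have h7 := Real.log_le_log (by linarith) h3
    rw [Real.log_pow] at h7
    push_cast at h7
    exact h7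
  have h7 : Real.log m ≤ m := by
    have := Real.log_le_sub_one_of_pos (show (0 : ℝ) < m by linarith)
    linarith
  have h8 := Real.log_two_lt_d9
  have h9 : Real.log (ord (n + m)) ≤ 5 * m / κ := by
    have h10 : Real.log a ≤ m / κ := by
      rw [le_div_iff₀ hκ]; linarith
    have h11 : (m : ℝ) ≤ m / κ := by
      rw [le_div_iff₀ hκ]
      nlinarith
    have h12 : 5 * (m : ℝ) / κ = 5 * (m / κ) := by ring
    rw [h12]
    linarith
  have h10 : 2 * κ' * Real.log (ord (n + m)) ≤ 2 * (κ * ε / 40) * (5 * m / κ) := by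
    apply mul_le_mul (by linarith) h9 _ (by positivity)
    apply Real.log_nonneg
    linarith
  have h11 : 2 * (κ * ε / 40) * (5 * m / κ) = ε / 4 * m := by
    field_simp
    norm_num
  rw [h11] at h10
  have h12 : 0 ≤ ε * m := by positivity
  linarith

end Pool.Agent.TH800.LD
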