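import Pool.Agent.TH800.LD.Blk
import Pool.Agent.H345R2.CT.A

/-! Assembly, part 1: growth of the ordinates, transfer to the unfolded gaps (owner helper800). -/

set_option autoImplicit false

open Complex Filter Topology Set MeasureTheory

namespace Pool.Agent.TH800.LD

open SP (RHs)
open SG (ord NZ zmult ZS)
open LG.CU (del)

/-- many zeros in `(a, 7 a / 4]` -/
theorem NZ_grow : ∃ A0 : ℝ, 10 ≤ A0 ∧ ∀ a : ℝ, A0 ≤ a → (NZ a : ℝ) + a ≤ NZ (7 / 4 * a) := by
  obtain ⟨C, T0, hC, hT0, h⟩ := H370.nn_asymp H370.good_zeta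
  have hpi3 := Real.pi_gt_three
  have hpi4 := Real.pi_lt_four
  obtain ⟨T2, hT2⟩ := (tendsto_atTop.mp Real.tendsto_log_atTop (50 * (2 * C + 1))).exists_forall_of_atTop
  refine ⟨max (2 * T0) (2 * T2), by linarith [le_max_left (2 * T0) (2 * T2)], fun a ha => ?_⟩
  have ha1 : 2 * T0 ≤ a := (le_max_left _ _).trans ha
  have ha2 : 2 * T2 ≤ a := (le_max_right _ _).trans ha
  have hl := hT2 (a / 2) (by linarith)
  have hapos : 0 < a := by linarith
  have h1 := h (7 / 8 * a) (by linarith) (7 / 8 * a) (7 / 4 * a) le_rfl (by linarith) (by linarith)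
    (by linarith)
  have h2 := h (a / 2) (by linarith) (a / 2) a le_rfl (by linarith) (by linarith) (by linarith)
  have h1' := (abs_le.mp h1).1
  have h2' := (abs_le.mp h2).2
  have hfin : (H370.zset riemannZeta a (7 / 4 * a)).Finite :=
    H370.zset_finite H370.good_zeta a (7 / 4 * a) (by linarith)
  have h3 : NZ a + H370.NN riemannZeta a (7 / 4 * a) ≤ NZ (7 / 4 * a) := by
    have h4 := SG.NZ_add_le a (7 / 4 * a) (by linarith) hfin.toFinset (by
      intro s hs
      rw [Set.Finite.mem_toFinset] at hs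
      obtain ⟨s1, s2, s3, s4, s5⟩ := hs
      exact ⟨⟨s5, s1, s2, by linarith, s4⟩, s3⟩)
    have h5 : H370.NN riemannZeta a (7 / 4 * a) = ∑ s ∈ hfin.toFinset, zmult s := by
      unfold H370.NN
      rw [finsum_mem_eq_finite_toFinset_sum _ hfin]
      rfl
    rw [h5]
    exact h4
  have h6 : H370.NN riemannZeta (7 / 8 * a) (7 / 4 * a) =
      H370.NN riemannZeta (7 / 8 * a) a + H370.NN riemannZeta a (7 / 4 * a) :=
    H370.NN_add H370.good_zeta (by linarith) (by linarith) (by linarith)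
  have h7 : H370.NN riemannZeta (7 / 8 * a) a ≤ H370.NN riemannZeta (a / 2) a :=
    H370.NN_mono H370.good_zeta (by linarith) (by linarith) le_rfl
  have h3r : (NZ a : ℝ) + (H370.NN riemannZeta a (7 / 4 * a) : ℝ) ≤ NZ (7 / 4 * a) := by
    exact_mod_cast h3
  have h6r : (H370.NN riemannZeta (7 / 8 * a) (7 / 4 * a) : ℝ) =
      H370.NN riemannZeta (7 / 8 * a) a + H370.NN riemannZeta a (7 / 4 * a) := by exact_mod_cast h6
  have h7r : (H370.NN riemannZeta (7 / 8 * a) a : ℝ) ≤ H370.NN riemannZeta (a / 2) a := by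
    exact_mod_cast h7
  have h8 : Real.log (a / 2) ≤ Real.log (7 / 8 * a) := Real.log_le_log (by linarith) (by linarith)
  have hlpos : 0 < Real.log (a / 2) := by nlinarith
  have h9 : 7 / 8 * a * Real.log (a / 2) ≤ 7 / 8 * a * Real.log (7 / 8 * a) :=
    mul_le_mul_of_nonneg_left h8 (by linarith)
  have h10 : 7 / 8 * a * Real.log (7 / 8 * a) / (2 * Real.pi) -
      a / 2 * Real.log (a / 2) / (2 * Real.pi) ≥ 3 / 8 * a * Real.log (a / 2) / 8 := by
    have e1 : 7 / 8 * a * Real.log (7 / 8 * a) / (2 * Real.pi) -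
      a / 2 * Real.log (a / 2) / (2 * Real.pi) =
      (7 / 8 * a * Real.log (7 / 8 * a) - a / 2 * Real.log (a / 2)) / (2 * Real.pi) := by ring
    rw [e1, ge_iff_le, div_le_div_iff₀ (by norm_num) (by positivity)]
    have h11 : 3 / 8 * a * Real.log (a / 2) ≤
        7 / 8 * a * Real.log (7 / 8 * a) - a / 2 * Real.log (a / 2) := by linarith
    have h12 : 0 < 3 / 8 * a * Real.log (a / 2) := by positivity
    nlinarith
  have h11 : (2 * C + 1) * a ≤ 3 / 8 * a * Real.log (a / 2) / 8 := by nlinarith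
  nlinarith

/-- the ordinates grow slowly -/
theorem ord_up : ∃ A0 : ℝ, 10 ≤ A0 ∧ ∀ n m : ℕ, 1 ≤ n → A0 ≤ ord n → (m : ℝ) ≤ ord n →
    ord (n + m) ≤ 7 / 4 * ord n := by
  obtain ⟨A0, hA0, h⟩ := NZ_grow
  refine ⟨A0, hA0, fun n m hn hA hm => ?_⟩
  have h1 := h (ord n) hA
  have h2 : (n : ℝ) ≤ NZ (ord n) := by exact_mod_cast SG.le_NZ_ord hn
  apply (SG.ord_le_iff (by omega) _).mpr
  have h3 : ((n + m : ℕ) : ℝ) ≤ NZ (7 / 4 * ord n) := by push_cast; linarith
  exact_mod_cast h3

/-- comparison with the unfolded gaps -/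
theorem transfer {n m : ℕ} {R : ℝ} (hn : 1 ≤ n) (hR : 3 ≤ R) (h1 : ord n ≤ 2 * R)
    (h2 : R ≤ 2 * ord n) (h3 : ord (n + m) ≤ 2 * ord n) :
    |∑ i ∈ Finset.range m, del (n + i) - (ord (n + m) - ord n) / (2 * Real.pi) * Real.log R| ≤
      3 * ((ord (n + m) - ord n) / (2 * Real.pi)) := by
  have hpi := Real.pi_gt_three
  have hpi4 := Real.pi_lt_d2
  have htel : ∑ i ∈ Finset.range m, (ord (n + i + 1) - ord (n + i)) = ord (n + m) - ord n := by
    have := Finset.sum_range_sub (fun i => ord (n + i)) m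
    simp only [add_zero] at this
    rw [← this]
    rfl
  have e1 : (ord (n + m) - ord n) / (2 * Real.pi) * Real.log R =
      ∑ i ∈ Finset.range m, (ord (n + i + 1) - ord (n + i)) / (2 * Real.pi) * Real.log R := by
    rw [← htel, Finset.sum_div, Finset.sum_mul]
  have e2 : 3 * ((ord (n + m) - ord n) / (2 * Real.pi)) =
      ∑ i ∈ Finset.range m, 3 * ((ord (n + i + 1) - ord (n + i)) / (2 * Real.pi)) := by
    rw [← htel, Finset.sum_div, Finset.mul_sum]
  rw [e1, e2, ← Finset.sum_sub_distrib]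
  refine (Finset.abs_sum_le_sum_abs _ _).trans (Finset.sum_le_sum fun i hi => ?_)
  rw [Finset.mem_range] at hi
  have g1 : ord n ≤ ord (n + i) := SG.ord_mono hn (by omega)
  have g2 : ord (n + i) ≤ ord (n + m) := SG.ord_mono (by omega) (by omega)
  have g3 : ord (n + i) ≤ ord (n + i + 1) := SG.ord_mono (by omega) (by omega)
  have hx0 : 0 ≤ (ord (n + i + 1) - ord (n + i)) / (2 * Real.pi) :=
    div_nonneg (by linarith) (by linarith)
  have hp : 0 < ord (n + i) := by linarith
  unfold del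
  rw [← mul_sub, abs_mul, abs_of_nonneg hx0, mul_comm (3 : ℝ)]
  apply mul_le_mul_of_nonneg_left _ hx0
  rw [← Real.log_div (by positivity) (by linarith), abs_le]
  have hq : 0 < ord (n + i) / (2 * Real.pi) / R := by positivity
  have hup : ord (n + i) / (2 * Real.pi) / R ≤ 1 := by
    rw [div_div, div_le_one (by positivity)]
    nlinarith
  have hlow : 1 / 13 ≤ ord (n + i) / (2 * Real.pi) / R := by
    rw [div_div, div_le_div_iff₀ (by norm_num) (by positivity)]
    nlinarith
  constructor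
  · have h4 : Real.log (1 / 13) ≤ Real.log (ord (n + i) / (2 * Real.pi) / R) :=
      Real.log_le_log (by norm_num) hlow
    have h5 : Real.log 13 ≤ 3 := by
      rw [Real.log_le_iff_le_exp (by norm_num)]
      have e3 : Real.exp 3 = Real.exp 1 ^ 3 := by rw [← Real.exp_nat_mul]; norm_num
      have e4 := Real.exp_one_gt_d9
      have e5 : (2.7182818283 : ℝ) ^ 3 ≤ Real.exp 1 ^ 3 :=
        pow_le_pow_left₀ (by norm_num) e4.le 3
      rw [e3]
      norm_num at e5
      linarith
    rw [one_div, Real.log_inv] at h4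
    linarith
  · have h4 := Real.log_nonpos hq.le hup
    linarith

/-- the unfolded gaps are non-negative -/
theorem del_nonneg {n : ℕ} (hn : 1 ≤ n) (h : 10 ≤ ord n) : 0 ≤ del n := by
  have hpi4 := Real.pi_lt_four
  have hpi := Real.pi_gt_three
  have g3 : ord n ≤ ord (n + 1) := SG.ord_mono hn (by omega)
  unfold del
  apply mul_nonneg (div_nonneg (by linarith) (by linarith))
  apply Real.log_nonneg
  rw [le_div_iff₀ (by positivity)]
  linarith

/-- no exceptional sums of length `κ log` -/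
theorem good_f (hRH : RHs) (ε : ℝ) (hε : 0 < ε) (hε1 : ε ≤ 1) : ∃ κ0 : ℝ, 0 < κ0 ∧ κ0 ≤ 1 ∧
    ∀ κ : ℝ, 0 < κ → κ ≤ κ0 → ∃ A : ℝ, 10 ≤ A ∧ ∀ n : ℕ, 1 ≤ n → A ≤ ord n →
    |(ord (n + ⌊κ * Real.log (ord n)⌋₊) - ord n) * Real.log (9 / 10 * ord n) / (2 * Real.pi) -
      ⌊κ * Real.log (ord n)⌋₊| ≤ ε * ⌊κ * Real.log (ord n)⌋₊ := by
  obtain ⟨c, c1, m0, T0, hc, hc1, hm0, hT0, hB⟩ := block hRH ε hε hε1
  obtain ⟨A0, hA0, hup⟩ := ord_up
  refine ⟨min (c1 / 2) 1, lt_min (by positivity) one_pos, min_le_right _ _, fun κ hκ hκ0 => ?_⟩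
  have hκ1 : κ ≤ c1 / 2 := hκ0.trans (min_le_left _ _)
  have hκ2 : κ ≤ 1 := hκ0.trans (min_le_right _ _)
  obtain ⟨TL, hTL, hlog⟩ := LG.CTAux.log_ev (max 400 ((max m0 (Real.exp (6 / (c * κ))) + 2) * (2 / κ)))
  refine ⟨max (max A0 TL) (2 * T0), hA0.trans ((le_max_left _ _).trans (le_max_left _ _)),
    fun n hn hA => ?_⟩
  set a := ord n with ha
  have ha1 : A0 ≤ a := ((le_max_left _ _).trans (le_max_left _ _)).trans hA
  have ha2 : TL ≤ a := ((le_max_right _ _).trans (le_max_left _ _)).trans hA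
  have ha3 : 2 * T0 ≤ a := (le_max_right _ _).trans hA
  obtain ⟨hL1, hL2⟩ := hlog a ha2
  have hL400 : 400 ≤ Real.log a := (le_max_left _ _).trans hL1
  have hLm := (le_max_right _ _).trans hL1
  set L := Real.log a with hL
  have hapos : 0 < a := by linarith
  set T := 9 / 10 * a with hT
  set m := ⌊κ * L⌋₊ with hm
  have hm1 : (m : ℝ) ≤ κ * L := Nat.floor_le (by positivity)
  have hm2 : κ * L < m + 1 := Nat.lt_floor_add_one _
  have hLm' : max m0 (Real.exp (6 / (c * κ))) + 2 ≤ κ / 2 * L := by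
    have h1 := mul_le_mul_of_nonneg_left hLm (show 0 ≤ κ / 2 by positivity)
    have h2 : κ / 2 * ((max m0 (Real.exp (6 / (c * κ))) + 2) * (2 / κ)) =
        max m0 (Real.exp (6 / (c * κ))) + 2 := by field_simp
    linarith
  have hmm0 : max m0 (Real.exp (6 / (c * κ))) ≤ m := by linarith [mul_pos hκ (show 0 < L by linarith)]
  have hm3 : m0 ≤ m := (le_max_left _ _).trans hmm0
  have hm4 : Real.exp (6 / (c * κ)) ≤ m := (le_max_right _ _).trans hmm0
  have hmhalf : κ / 2 * L ≤ m := by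
    have : 1 ≤ κ / 2 * L := by
      have : 3 ≤ max m0 (Real.exp (6 / (c * κ))) := hm0.trans (le_max_left _ _)
      linarith
    linarith
  have hmpos : (0 : ℝ) < m := by linarith
  have hLa : L ≤ a / 100 := by
    have hsq : Real.sqrt a * Real.sqrt a = a := Real.mul_self_sqrt hapos.le
    have h1 : Real.log (Real.sqrt a) ≤ Real.sqrt a := by
      have := Real.log_le_sub_one_of_pos (Real.sqrt_pos.mpr hapos)
      linarith
    rw [Real.log_sqrt hapos.le] at h1
    have h2 : (200 : ℝ) ≤ Real.sqrt a := by linarith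
    nlinarith
  have hlogT : Real.log T ≤ L := Real.log_le_log (by positivity) (by linarith)
  have hlogT' : L / 2 ≤ Real.log T := by
    have h1 : Real.log (9 / 10) + L = Real.log T := by
      rw [hT, Real.log_mul (by norm_num) hapos.ne']
    have h2 := Real.one_sub_inv_le_log_of_pos (show (0 : ℝ) < 9 / 10 by norm_num)
    norm_num at h2
    linarith
  have hma : (m : ℝ) ≤ a := by nlinarith
  have hordup := hup n m hn ha1 hma
  by_contra hcon
  push Not at hcon
  have h1 := hB T (by linarith) m hm3 (by nlinarith) {n} (by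
    intro k hk
    rw [Finset.mem_singleton] at hk
    subst hk
    refine ⟨hn, by linarith, by linarith, hcon.le⟩)
  rw [Finset.card_singleton] at h1
  have h2 : 6 / (c * κ) ≤ Real.log m := by
    rw [Real.le_log_iff_exp_le hmpos]; exact hm4
  have h3 : 3 * L ≤ c * (m * Real.log m) := by
    have h4 : κ / 2 * L * (6 / (c * κ)) ≤ m * Real.log m :=
      mul_le_mul hmhalf h2 (by positivity) hmpos.le
    have h5 := mul_le_mul_of_nonneg_left h4 hc.le
    have h6 : c * (κ / 2 * L * (6 / (c * κ))) = 3 * L := by field_simp; norm_num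
    linarith
  have h4 : Real.exp (-c * (m * Real.log m)) ≤ Real.exp (-(3 * L)) :=
    Real.exp_le_exp.mpr (by linarith)
  have h5 : T * Real.log T ≤ a * a := by
    apply mul_le_mul (by linarith) (by linarith) _ hapos.le
    linarith
  have h6 : Real.exp (-(3 * L)) = 1 / a ^ 3 := by
    rw [Real.exp_neg, one_div]
    congr 1
    rw [mul_comm, Real.exp_mul, hL, Real.exp_log hapos]
    norm_num
  have h7 : T * Real.log T * Real.exp (-c * (m * Real.log m)) ≤ a * a * (1 / a ^ 3) := by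
    rw [← h6]
    apply mul_le_mul h5 h4 (Real.exp_pos _).le
    positivity
  have h8 : a * a * (1 / a ^ 3) = 1 / a := by field_simp
  rw [h8] at h7
  have h9 : 1 / a < 1 := by rw [div_lt_one hapos]; linarith
  have h10 := h1.trans h7
  simp only [Nat.cast_one] at h10
  linarith

end Pool.Agent.TH800.LD
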