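import Pool.Agent.TH800.LD.Mom

/-! Large deviations for sums of `m` consecutive gaps in a dyadic block (owner helper800). -/

set_option autoImplicit false

open Complex Filter Topology Set MeasureTheory

namespace Pool.Agent.TH800.LD

open SP (zs ps QW ell W1 RHs ZZ mu Q1 wt)
open SG (dd ord NZ zmult ZS)

/-- super-exponential decay -/
theorem decay (A ρ G : ℝ) (hA : 0 < A) (hρ : 0 < ρ) : ∃ c m0 : ℝ, 0 < c ∧ 3 ≤ m0 ∧
    ∀ m : ℝ, m0 ≤ m → ∀ k : ℕ, ρ * m / 4 ≤ k → G * (A / k) ^ k ≤ Real.exp (-c * (m * Real.log m)) := by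
  set m0 : ℝ := max (max 3 (4 / ρ * (A ^ 2 + 1))) (max ((4 / ρ) ^ 2) (32 / ρ * |G|)) with hm0
  refine ⟨ρ / 32, m0, by positivity, (le_max_left _ _).trans (le_max_left _ _), ?_⟩
  intro m hm k hk
  have m3 : 3 ≤ m := ((le_max_left _ _).trans (le_max_left _ _)).trans hm
  have mA : 4 / ρ * (A ^ 2 + 1) ≤ m := ((le_max_right _ _).trans (le_max_left _ _)).trans hm
  have mρ : (4 / ρ) ^ 2 ≤ m := ((le_max_left _ _).trans (le_max_right _ _)).trans hm
  have mG : 32 / ρ * |G| ≤ m := ((le_max_right _ _).trans (le_max_right _ _)).trans hm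
  have hmpos : 0 < m := by linarith
  set x : ℝ := ρ * m / 4 with hx
  have hx0 : 0 < x := by positivity
  have hxA : A ^ 2 + 1 ≤ x := by
    rw [hx]
    calc A ^ 2 + 1 = ρ * (4 / ρ * (A ^ 2 + 1)) / 4 := by field_simp
      _ ≤ ρ * m / 4 := by gcongr
  have hkpos : (0 : ℝ) < k := by linarith
  have hA2 : 0 < A ^ 2 := by positivity
  have hk1 : 1 ≤ (k : ℝ) := by linarith
  have hlogk : 0 ≤ Real.log k := Real.log_nonneg hk1
  -- (A/k)^k ≤ exp (-(k/2) log k)
  have h1 : (A / k) ^ k ≤ Real.exp (-((k : ℝ) / 2 * Real.log k)) := by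
    have h2 : A ≤ Real.sqrt k := by
      rw [Real.le_sqrt' hA]
      linarith
    have h3 : A / k ≤ Real.exp (-(Real.log k / 2)) := by
      rw [div_le_iff₀ hkpos]
      have h4 : Real.exp (-(Real.log k / 2)) * k = Real.sqrt k := by
        rw [Real.sqrt_eq_rpow, Real.rpow_def_of_pos hkpos]
        nth_rewrite 2 [← Real.exp_log hkpos]
        rw [← Real.exp_add]
        congr 1
        ring
      rw [h4]
      exact h2
    calc (A / k) ^ k ≤ (Real.exp (-(Real.log k / 2))) ^ k :=
          pow_le_pow_left₀ (by positivity) h3 k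
      _ = Real.exp (-((k : ℝ) / 2 * Real.log k)) := by
          rw [← Real.exp_nat_mul]
          congr 1
          ring
  have hlogm : 1 ≤ Real.log m := by
    rw [Real.le_log_iff_exp_le hmpos]
    have := Real.exp_one_lt_d9
    linarith
  have h5 : ρ / 16 * (m * Real.log m) ≤ (k : ℝ) / 2 * Real.log k := by
    have h6 : Real.log m / 2 ≤ Real.log x := by
      have h7 : Real.log x = Real.log m - Real.log (4 / ρ) := by
        rw [← Real.log_div hmpos.ne' (by positivity)]
        congr 1
        rw [hx]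
        field_simp
      have h8 : Real.log (4 / ρ) ≤ Real.log m / 2 := by
        have h9 := Real.log_le_log (by positivity) mρ
        rw [Real.log_pow] at h9
        push_cast at h9
        linarith
      linarith
    have h9 : Real.log x ≤ Real.log k := Real.log_le_log hx0 hk
    have h10 : x / 2 * (Real.log m / 2) ≤ (k : ℝ) / 2 * Real.log k := by
      apply mul_le_mul (by linarith) (h6.trans h9) (by linarith) (by positivity)
    have h11 : x / 2 * (Real.log m / 2) = ρ / 16 * (m * Real.log m) := by rw [hx]; ring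
    linarith
  have h6 : G ≤ Real.exp (ρ / 32 * (m * Real.log m)) := by
    have h7 : |G| ≤ ρ / 32 * m := by
      calc |G| = ρ / 32 * (32 / ρ * |G|) := by field_simp
        _ ≤ ρ / 32 * m := by gcongr
    have h8 : ρ / 32 * m ≤ ρ / 32 * (m * Real.log m) := by
      apply mul_le_mul_of_nonneg_left _ (by positivity)
      nlinarith
    have h9 := Real.add_one_le_exp (ρ / 32 * (m * Real.log m))
    have h10 := le_abs_self G
    linarith
  have h0 : 0 ≤ (A / k) ^ k := by positivity
  calc G * (A / k) ^ k ≤ Real.exp (ρ / 32 * (m * Real.log m)) * (A / k) ^ k :=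
        mul_le_mul_of_nonneg_right h6 h0
    _ ≤ Real.exp (ρ / 32 * (m * Real.log m)) * Real.exp (-((k : ℝ) / 2 * Real.log k)) :=
        mul_le_mul_of_nonneg_left h1 (Real.exp_pos _).le
    _ = Real.exp (ρ / 32 * (m * Real.log m) - (k : ℝ) / 2 * Real.log k) := by
        rw [← Real.exp_add]; congr 1
    _ ≤ Real.exp (-(ρ / 32) * (m * Real.log m)) := by
        apply Real.exp_le_exp.mpr
        linarith

theorem pow_big {x η : ℝ} (hη : 0 < η) (hx : η ≤ x) {k : ℕ} (hk : 1 ≤ k) :
    1 ≤ (x / η) ^ (2 * k) ∧ 2 + x ≤ (2 + η) * (x / η) ^ (2 * k) := by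
  have h1 : 1 ≤ x / η := by rw [le_div_iff₀ hη]; linarith
  have h2 : x / η ≤ (x / η) ^ (2 * k) := le_self_pow₀ h1 (by omega)
  have h3 : x = η * (x / η) := by field_simp
  refine ⟨h1.trans h2, ?_⟩
  have h4 : (2 + η) * (x / η) ≤ (2 + η) * (x / η) ^ (2 * k) :=
    mul_le_mul_of_nonneg_left h2 (by linarith)
  have h5 : 2 + x ≤ (2 + η) * (x / η) := by
    nlinarith
  linarith

theorem pw (x η : ℝ) (k : ℕ) : (x / η) ^ (2 * k) = (1 / η ^ 2) ^ k * x ^ (2 * k) := by
  rw [pow_mul, pow_mul, ← mul_pow]
  congr 1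
  ring

theorem cancel1 (X : ℝ) {p q : ℝ} (hp : 0 < p) (hq : 0 < q) : X = X * (p / q) * (q / p) := by
  field_simp

theorem block (hRH : RHs) (ε : ℝ) (hε : 0 < ε) (hε1 : ε ≤ 1) :
    ∃ c c1 m0 T0 : ℝ, 0 < c ∧ 0 < c1 ∧ 3 ≤ m0 ∧ 10 ≤ T0 ∧ ∀ T : ℝ, T0 ≤ T → ∀ m : ℕ, m0 ≤ m →
    (m : ℝ) ≤ c1 * Real.log T → ∀ B : Finset ℕ,
    (∀ n ∈ B, 1 ≤ n ∧ T + 3 * Real.log T ≤ ord n ∧ ord (n + m) ≤ 2 * T - 3 * Real.log T ∧
      ε * m ≤ |(ord (n + m) - ord n) * Real.log T / (2 * Real.pi) - m|) →
    (B.card : ℝ) ≤ T * Real.log T * Real.exp (-c * (m * Real.log m)) := by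
  classical
  set η : ℝ := ε / 8 with hη
  have hη0 : 0 < η := by positivity
  have hη1 : η ≤ 1 / 8 := by rw [hη]; linarith
  obtain ⟨e, ρ, c0, y0, T1, he0, he1, hρ0, hρ1, hc00, hy0, hρy0, hT1, hP⟩ := pointwise hRH η hη0
  obtain ⟨C, T2, hC, hT2, hM⟩ := PP_mom
  have hpi := Real.pi_gt_three
  have hpi4 := Real.pi_lt_four
  have hpi0 : 0 < Real.pi := by linarith
  obtain ⟨c, m1, hc, hm1, hdec⟩ := decay (C / η ^ 2) ρ (54 / (Real.pi * ε) * 4) (by positivity) hρ0
  refine ⟨c, min (c0 / 2) (1 / 16), max m1 (2 * y0), max (max T1 T2) 1000, hc,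
    lt_min (by positivity) (by norm_num), hm1.trans (le_max_left _ _),
    hT1.trans ((le_max_left _ _).trans (le_max_left _ _)), ?_⟩
  intro T hT m hm hmL B hB
  have hTT1 : T1 ≤ T := ((le_max_left _ _).trans (le_max_left _ _)).trans hT
  have hTT2 : T2 ≤ T := ((le_max_right _ _).trans (le_max_left _ _)).trans hT
  have hT1000 : 1000 ≤ T := (le_max_right _ _).trans hT
  have hTone : 1 ≤ T := by linarith
  have hmm1 : m1 ≤ m := (le_max_left _ _).trans hm
  have hmy : 2 * y0 ≤ m := (le_max_right _ _).trans hm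
  set L := Real.log T with hLd
  have hL1 : 1 ≤ L := by
    rw [hLd, Real.le_log_iff_exp_le (by linarith)]
    have := Real.exp_one_lt_d9
    linarith
  have hL0 : 0 < L := by linarith
  have hm0 : (0 : ℝ) < m := by linarith
  have hmnat : 1 ≤ m := by
    have : (0 : ℝ) < m := hm0
    exact_mod_cast this
  have hmc0 : (m : ℝ) ≤ c0 / 2 * L :=
    hmL.trans (mul_le_mul_of_nonneg_right (min_le_left _ _) hL0.le)
  have hm16 : (m : ℝ) ≤ 1 / 16 * L :=
    hmL.trans (mul_le_mul_of_nonneg_right (min_le_right _ _) hL0.le)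
  have hLT : 10 * L ≤ T := by
    have h1 : Real.log T ≤ Real.sqrt T * 2 := by
      have h2 := Real.log_le_sub_one_of_pos (Real.sqrt_pos.mpr (by linarith : 0 < T))
      rw [Real.log_sqrt (by linarith)] at h2
      linarith
    have h2 : 20 * Real.sqrt T ≤ T := by
      have h3 : 20 ≤ Real.sqrt T := by
        rw [Real.le_sqrt' (by norm_num)]
        linarith
      have h4 := Real.mul_self_sqrt (by linarith : 0 ≤ T)
      nlinarith
    rw [← hLd] at h1
    linarith
  set V1 : ℝ := T + 2 * L with hV1
  set V2 : ℝ := 2 * T - 2 * L with hV2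
  have hV : V1 ≤ V2 := by rw [hV1, hV2]; linarith
  set D : ℕ → ℝ := fun n => (ord (n + m) - ord n) * L / (2 * Real.pi) with hD
  have hDL : ∀ n, ord (n + m) - ord n = 2 * Real.pi / L * D n := by
    intro n
    rw [hD]
    field_simp
  -- the two parts
  set Bm := B.filter (fun n => D n ≤ (1 - ε) * m) with hBm
  set Bp := B.filter (fun n => (1 + ε) * m ≤ D n) with hBp
  have hcover : B ⊆ Bm ∪ Bp := by
    intro n hn
    rw [Finset.mem_union, hBm, hBp, Finset.mem_filter, Finset.mem_filter]
    obtain ⟨_, _, _, h4⟩ := hB n hn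
    have h5 : ε * m ≤ |D n - m| := h4
    rcases le_abs.mp h5 with h6 | h6
    · right; exact ⟨hn, by linarith⟩
    · left; exact ⟨hn, by linarith⟩
  -- moments
  have hmom : ∀ y : ℝ, (m : ℝ) / 2 ≤ y → y ≤ 2 * m → 1 ≤ ⌊ρ * y⌋₊ ∧
      54 / (Real.pi * ε) * 4 * ∫ t in V1..V2, (PP e ρ T y t / η) ^ (2 * ⌊ρ * y⌋₊) ≤
        18 * T * Real.exp (-c * (m * Real.log m)) := by
    intro y hy1 hy2
    have hyy0 : y0 ≤ y := by linarith
    have hypos : 0 < y := by linarith
    have hρy : 1 ≤ ρ * y := hρy0.trans (mul_le_mul_of_nonneg_left hyy0 hρ0.le)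
    have hk1 : 1 ≤ ⌊ρ * y⌋₊ := by
      rw [Nat.one_le_floor_iff]
      exact hρy
    refine ⟨hk1, ?_⟩
    set k := ⌊ρ * y⌋₊ with hk
    have hkr : (1 : ℝ) ≤ k := by exact_mod_cast hk1
    have hk2 : ρ * y < k + 1 := Nat.lt_floor_add_one _
    have hk3 : ρ * m / 4 ≤ k := by
      have h1 : ρ * y ≤ 2 * k := by linarith
      have h2 : ρ * (m / 2) ≤ ρ * y := mul_le_mul_of_nonneg_left hy1 hρ0.le
      linarith
    have h1 := hM T hTT2 e ρ y hypos hk1 V1 V2 (by rw [hV1]; linarith) hV (by rw [hV2]; linarith)
    rw [← hk] at h1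
    have h2 : ∫ t in V1..V2, (PP e ρ T y t / η) ^ (2 * k) =
        (1 / η ^ 2) ^ k * ∫ t in V1..V2, PP e ρ T y t ^ (2 * k) := by
      rw [← intervalIntegral.integral_const_mul]
      apply intervalIntegral.integral_congr
      intro t _
      exact pw _ _ _
    rw [h2]
    have h3 : (C / η ^ 2 / k) ^ k = (1 / η ^ 2) ^ k * (C / k) ^ k := by
      rw [← mul_pow]; congr 1; ring
    have h4 := hdec m hmm1 k hk3
    rw [h3] at h4
    have h5 : 0 ≤ 54 / (Real.pi * ε) * 4 * (1 / η ^ 2) ^ k := by positivity
    calc 54 / (Real.pi * ε) * 4 * ((1 / η ^ 2) ^ k * ∫ t in V1..V2, PP e ρ T y t ^ (2 * k))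
        = 54 / (Real.pi * ε) * 4 * (1 / η ^ 2) ^ k * ∫ t in V1..V2, PP e ρ T y t ^ (2 * k) := by ring
      _ ≤ 54 / (Real.pi * ε) * 4 * (1 / η ^ 2) ^ k * (18 * T * (C / k) ^ k) :=
          mul_le_mul_of_nonneg_left h1 h5
      _ = 18 * T * (54 / (Real.pi * ε) * 4 * ((1 / η ^ 2) ^ k * (C / k) ^ k)) := by ring
      _ ≤ 18 * T * Real.exp (-c * (m * Real.log m)) :=
          mul_le_mul_of_nonneg_left h4 (by linarith)
  -- small sums
  have hsmall : (Bm.card : ℝ) ≤ T * L * Real.exp (-c * (m * Real.log m)) / 2 := by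
    set y : ℝ := (1 - ε / 2) * m with hy
    have hy1 : (m : ℝ) / 2 ≤ y := by rw [hy]; nlinarith
    have hy2 : y ≤ m := by rw [hy]; nlinarith
    obtain ⟨hk1, hI⟩ := hmom y hy1 (by linarith)
    set k := ⌊ρ * y⌋₊ with hk
    have hypos : 0 < y := by linarith
    set r : ℝ := Real.pi * y / L with hr
    have hr0 : 0 < r := by positivity
    have hr1 : r ≤ 1 := by
      rw [hr, div_le_one hL0]
      calc Real.pi * y ≤ 4 * m := mul_le_mul hpi4.le hy2 hypos.le (by norm_num)
        _ ≤ L := by linarith
    have hcount := count_gen Bm (fun n => ord (n + m) - r) (fun n => ord n + r) V1 V2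
      (Real.pi * ε * m / L) (fun t => y * (2 + η) * (PP e ρ T y t / η) ^ (2 * k)) hV
      (by
        have := PP_cont e ρ T y
        exact continuous_const.mul ((this.div_const η).pow _))
      (by positivity)
      (by
        intro n hn
        rw [hBm, Finset.mem_filter] at hn
        obtain ⟨a1, a2, a3, _⟩ := hB n hn.1
        have a5 : ord n ≤ ord (n + m) := SG.ord_mono a1 (by omega)
        refine ⟨by rw [hV1]; linarith, by rw [hV2]; linarith, ?_⟩
        have e1 : ord n + r - (ord (n + m) - r) = 2 * r - (ord (n + m) - ord n) := by ring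
        rw [e1, hDL n, hr]
        have e2 : 2 * (Real.pi * y / L) - 2 * Real.pi / L * D n = 2 * Real.pi / L * (y - D n) := by ring
        rw [e2]
        have e3 : Real.pi * ε * m / L = 2 * Real.pi / L * (ε / 2 * m) := by ring
        rw [e3]
        apply mul_le_mul_of_nonneg_left _ (by positivity)
        have : D n ≤ (1 - ε) * m := hn.2
        rw [hy]
        linarith)
      (by
        intro t ht1 ht2
        set F := Bm.filter (fun n => ord (n + m) - r ≤ t ∧ t ≤ ord n + r) with hF
        by_cases hne : F.Nonempty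
        · obtain ⟨n, hn⟩ := hne
          have hnF := hn
          rw [hF, Finset.mem_filter, hBm, Finset.mem_filter] at hn
          obtain ⟨⟨hnB, hnD⟩, hn1, hn2⟩ := hn
          obtain ⟨a1, a2, a3, _⟩ := hB n hnB
          have h1 := cnt_ge hTone (t := t) (r := r) (m := m) a1 (by linarith) (by linarith)
            (by linarith) (by linarith)
          have h2 := hP T hTT1 hTone t (by rw [hV1] at ht1; linarith) (by rw [hV2] at ht2; linarith)
            y (by linarith) (by linarith)
          rw [← hLd, ← hr] at h2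
          have h3 := (abs_le.mp h2).2
          set p := PP e ρ T y t with hp
          have h4 : η ≤ p := by
            have e1 : 4 * η * y ≤ m - y := by
              rw [hη, hy]
              nlinarith [mul_pos hε hm0, mul_pos (mul_pos hε hε) hm0]
            have e2 : y * (4 * η) ≤ y * (η + p) := by linarith
            have e3 := le_of_mul_le_mul_left e2 hypos
            linarith
          have h5 := card_win hTone (t := t) (r := r) F (by
            intro n' hn'
            rw [hF, Finset.mem_filter, hBm, Finset.mem_filter] at hn'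
            obtain ⟨⟨hnB', _⟩, hn1', hn2'⟩ := hn'
            obtain ⟨b1, b2, b3, _⟩ := hB n' hnB'
            have b5 : ord n' ≤ ord (n' + m) := SG.ord_mono b1 (by omega)
            refine ⟨b1, by linarith, by linarith, ?_⟩
            rw [abs_le]
            constructor <;> linarith)
          have h6 := (pow_big hη0 h4 hk1).2
          calc (F.card : ℝ) ≤ cnt hTone t r := h5
            _ ≤ y * (2 + p) := by
              have : y * (η + p) + y = y * (1 + η + p) := by ring
              have h7 : y * (1 + η + p) ≤ y * (2 + p) :=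
                mul_le_mul_of_nonneg_left (by linarith) hypos.le
              linarith
            _ ≤ y * ((2 + η) * (p / η) ^ (2 * k)) := mul_le_mul_of_nonneg_left h6 hypos.le
            _ = _ := by ring
        · rw [Finset.not_nonempty_iff_eq_empty] at hne
          rw [hne]
          have := PP_nonneg e ρ T y t
          simp only [Finset.card_empty, Nat.cast_zero]
          positivity)
    rw [intervalIntegral.integral_const_mul] at hcount
    set I := ∫ t in V1..V2, (PP e ρ T y t / η) ^ (2 * k) with hId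
    have hI0 : 0 ≤ I := intervalIntegral.integral_nonneg hV fun t _ => by
      have := PP_nonneg e ρ T y t
      positivity
    have h1 : (Bm.card : ℝ) * (Real.pi * ε * m / L) ≤ m * 3 * I := by
      refine hcount.trans ?_
      apply mul_le_mul_of_nonneg_right _ hI0
      apply mul_le_mul hy2 (by linarith) (by linarith) hm0.le
    have h2 : (Bm.card : ℝ) ≤ 3 * L / (Real.pi * ε) * I := by
      have h3 : (Bm.card : ℝ) * (Real.pi * ε * m / L) = (Bm.card : ℝ) * (Real.pi * ε / L) * m := by ring
      rw [h3] at h1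
      have h4 : (Bm.card : ℝ) * (Real.pi * ε / L) * m ≤ 3 * I * m := by linarith
      have h5 := le_of_mul_le_mul_right h4 hm0
      calc (Bm.card : ℝ) = (Bm.card : ℝ) * (Real.pi * ε / L) * (L / (Real.pi * ε)) :=
            cancel1 _ (by positivity) hL0
        _ ≤ 3 * I * (L / (Real.pi * ε)) := mul_le_mul_of_nonneg_right h5 (by positivity)
        _ = _ := by ring
    have h3 : 54 / (Real.pi * ε) * 4 * I = 72 * (3 / (Real.pi * ε) * I) := by ring
    rw [h3] at hI
    have h4 : 3 * L / (Real.pi * ε) * I = L * (3 / (Real.pi * ε) * I) := by ring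
    rw [h4] at h2
    have h5 : L * (3 / (Real.pi * ε) * I) ≤ L * (18 * T * Real.exp (-c * (m * Real.log m)) / 72) :=
      mul_le_mul_of_nonneg_left (by linarith) hL0.le
    have h6 : 0 ≤ T * L * Real.exp (-c * (m * Real.log m)) := by positivity
    calc (Bm.card : ℝ) ≤ _ := h2
      _ ≤ _ := h5
      _ = T * L * Real.exp (-c * (m * Real.log m)) / 4 := by ring
      _ ≤ _ := by linarith
  -- large sums
  have hlarge : (Bp.card : ℝ) ≤ T * L * Real.exp (-c * (m * Real.log m)) / 2 := by
    set y : ℝ := (1 + ε / 2) * m with hy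
    have hy1 : (m : ℝ) ≤ y := by rw [hy]; nlinarith
    have hy2 : y ≤ 3 / 2 * m := by rw [hy]; nlinarith
    obtain ⟨hk1, hI⟩ := hmom y (by linarith) (by linarith)
    set k := ⌊ρ * y⌋₊ with hk
    have hypos : 0 < y := by linarith
    set r : ℝ := Real.pi * y / L with hr
    have hr0 : 0 < r := by positivity
    set s0 : ℝ := Real.pi * ε * m / (4 * L) with hs0
    have hs00 : 0 < s0 := by positivity
    have hcount := count_gen Bp (fun n => ord n + r + s0) (fun n => ord (n + m) - r - s0) V1 V2
      (Real.pi * ε * m / (2 * L)) (fun t => m * (PP e ρ T y t / η) ^ (2 * k)) hV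
      (by
        have := PP_cont e ρ T y
        exact continuous_const.mul ((this.div_const η).pow _))
      (by positivity)
      (by
        intro n hn
        rw [hBp, Finset.mem_filter] at hn
        obtain ⟨a1, a2, a3, _⟩ := hB n hn.1
        refine ⟨by rw [hV1]; linarith, by rw [hV2]; linarith, ?_⟩
        have e1 : ord (n + m) - r - s0 - (ord n + r + s0) = (ord (n + m) - ord n) - 2 * r - 2 * s0 := by
          ring
        rw [e1, hDL n, hr, hs0]
        have e2 : 2 * Real.pi / L * D n - 2 * (Real.pi * y / L) - 2 * (Real.pi * ε * m / (4 * L)) =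
          2 * Real.pi / L * (D n - y - ε / 4 * m) := by ring
        rw [e2]
        have e3 : Real.pi * ε * m / (2 * L) = 2 * Real.pi / L * (ε / 4 * m) := by ring
        rw [e3]
        apply mul_le_mul_of_nonneg_left _ (by positivity)
        have : (1 + ε) * m ≤ D n := hn.2
        rw [hy]
        linarith)
      (by
        intro t ht1 ht2
        set F := Bp.filter (fun n => ord n + r + s0 ≤ t ∧ t ≤ ord (n + m) - r - s0) with hF
        by_cases hne : F.Nonempty
        · obtain ⟨n, hn⟩ := hne
          have hnF := hn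
          rw [hF, Finset.mem_filter, hBp, Finset.mem_filter] at hn
          obtain ⟨⟨hnB, hnD⟩, hn1, hn2⟩ := hn
          obtain ⟨a1, a2, a3, _⟩ := hB n hnB
          have h1 := cnt_le hTone (t := t) (r := r) (m := m) a1 hmnat (by linarith) (by linarith) hr0.le
          have h2 := hP T hTT1 hTone t (by rw [hV1] at ht1; linarith) (by rw [hV2] at ht2; linarith)
            y (by linarith) (by linarith)
          rw [← hLd, ← hr] at h2
          have h3 := (abs_le.mp h2).1
          set p := PP e ρ T y t with hp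
          have h4 : η ≤ p := by
            have e1 : 2 * η * y ≤ y - m := by
              rw [hη]
              have : y - m = ε / 2 * m := by rw [hy]; ring
              rw [this]
              nlinarith [mul_pos hε hm0]
            have e2 : y * (2 * η) ≤ y * (η + p) := by linarith
            have e3 := le_of_mul_le_mul_left e2 hypos
            linarith
          have h5 : F.card ≤ m := by
            have h6 : F ⊆ Finset.Ioc (NZ t - m) (NZ t) := by
              intro n' hn'
              rw [hF, Finset.mem_filter, hBp, Finset.mem_filter] at hn'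
              obtain ⟨⟨hnB', _⟩, hn1', hn2'⟩ := hn'
              obtain ⟨b1, b2, b3, _⟩ := hB n' hnB'
              have b4 : n' ≤ NZ t := (SG.ord_le_iff b1 t).mp (by linarith)
              have b5 : ¬ n' + m ≤ NZ t := by
                intro h
                have := (SG.ord_le_iff (by omega : 1 ≤ n' + m) t).mpr h
                linarith
              rw [Finset.mem_Ioc]
              omega
            have h7 := Finset.card_le_card h6
            rw [Nat.card_Ioc] at h7
            omega
          have h6 := (pow_big hη0 h4 hk1).1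
          calc (F.card : ℝ) ≤ m := by exact_mod_cast h5
            _ = m * 1 := (mul_one _).symm
            _ ≤ m * (p / η) ^ (2 * k) := mul_le_mul_of_nonneg_left h6 hm0.le
        · rw [Finset.not_nonempty_iff_eq_empty] at hne
          rw [hne]
          have := PP_nonneg e ρ T y t
          simp only [Finset.card_empty, Nat.cast_zero]
          positivity)
    rw [intervalIntegral.integral_const_mul] at hcount
    set I := ∫ t in V1..V2, (PP e ρ T y t / η) ^ (2 * k) with hId
    have h2 : (Bp.card : ℝ) ≤ 2 * L / (Real.pi * ε) * I := by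
      have h3 : (Bp.card : ℝ) * (Real.pi * ε * m / (2 * L)) =
          (Bp.card : ℝ) * (Real.pi * ε / (2 * L)) * m := by ring
      rw [h3] at hcount
      have h4 : (Bp.card : ℝ) * (Real.pi * ε / (2 * L)) * m ≤ I * m := by linarith
      have h5 := le_of_mul_le_mul_right h4 hm0
      calc (Bp.card : ℝ) = (Bp.card : ℝ) * (Real.pi * ε / (2 * L)) * (2 * L / (Real.pi * ε)) :=
            cancel1 _ (by positivity) (by positivity)
        _ ≤ I * (2 * L / (Real.pi * ε)) := mul_le_mul_of_nonneg_right h5 (by positivity)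
        _ = _ := by ring
    have h3 : 54 / (Real.pi * ε) * 4 * I = 108 * (2 / (Real.pi * ε) * I) := by ring
    rw [h3] at hI
    have h4 : 2 * L / (Real.pi * ε) * I = L * (2 / (Real.pi * ε) * I) := by ring
    rw [h4] at h2
    have h5 : L * (2 / (Real.pi * ε) * I) ≤ L * (18 * T * Real.exp (-c * (m * Real.log m)) / 108) :=
      mul_le_mul_of_nonneg_left (by linarith) hL0.le
    have h6 : 0 ≤ T * L * Real.exp (-c * (m * Real.log m)) := by positivity
    calc (Bp.card : ℝ) ≤ _ := h2
      _ ≤ _ := h5
      _ = T * L * Real.exp (-c * (m * Real.log m)) / 6 := by ring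
      _ ≤ _ := by linarith
  have h1 := Finset.card_le_card hcover
  have h2 := Finset.card_union_le Bm Bp
  have h3 : (B.card : ℝ) ≤ Bm.card + Bp.card := by exact_mod_cast h1.trans h2
  linarith

end Pool.Agent.TH800.LD
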