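import Pool.Agent.TH800.LD.Win

/-! The deviation of the number of zeros in a window (owner helper800). -/

set_option autoImplicit false

open Complex Filter Topology Set MeasureTheory

namespace Pool.Agent.TH800.LD

open SP (zs ps QW ell W1 RHs ZZ mu Q1)

/-- the three prime sums -/
noncomputable def PP (e ρ T y t : ℝ) : ℝ :=
  2 * ‖QW T t (ell (1 / 4) T ⌊ρ * y⌋₊) (Wc ((1 + e) * (Real.pi * y / Real.log T))
    (ell (1 / 4) T ⌊ρ * y⌋₊))‖ +
  ‖QW T t (ell (1 / 4) T ⌊ρ * y⌋₊) (Wc ((1 - e) * (Real.pi * y / Real.log T))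
    (ell (1 / 4) T ⌊ρ * y⌋₊))‖ +
  ‖QW T t (ell (1 / 4) T ⌊ρ * y⌋₊) (W1 (Real.log T / (Real.pi * y)))‖

theorem PP_nonneg (e ρ T y t : ℝ) : 0 ≤ PP e ρ T y t := by
  unfold PP; positivity


namespace Alg

theorem a1 {e y qm q3 N : ℝ} (he : 0 < e) (hy : 0 < y) (h1 : 0 ≤ qm) (h2 : 0 ≤ q3)
    (h : (1 - e) * y * (1 - 3 * e - qm - q3) ≤ N) : y * (1 - 4 * e - qm - q3) ≤ N := by
  have h3 : (1 - e) * y * (1 - 3 * e - qm - q3) - y * (1 - 4 * e - qm - q3) =
      y * (3 * e ^ 2 + e * (qm + q3)) := by ring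
  have h4 : 0 ≤ y * (3 * e ^ 2 + e * (qm + q3)) := by positivity
  linarith

theorem a2 {e y q N : ℝ} (he : 0 < e) (he1 : e ≤ 1 / 40) (hy : 0 < y) (h1 : 0 ≤ q)
    (h : N * (1 - e) ^ 2 ≤ (1 + e) * y * (1 + e + q)) : N ≤ y * (1 + 5 * e + 2 * q) := by
  have g11 : (1 + e) * y * (1 + e + q) ≤ y * (1 + 5 * e + 2 * q) * (1 - e) ^ 2 := by
    have h1 : y * (1 + 5 * e + 2 * q) * (1 - e) ^ 2 - (1 + e) * y * (1 + e + q) =
        y * (e * (1 - 10 * e + 5 * e ^ 2) + q * (1 - 5 * e + 2 * e ^ 2)) := by ring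
    have h2 : 0 ≤ y * (e * (1 - 10 * e + 5 * e ^ 2) + q * (1 - 5 * e + 2 * e ^ 2)) := by
      apply mul_nonneg hy.le
      apply add_nonneg
      · apply mul_nonneg he.le
        have := sq_nonneg e
        linarith
      · apply mul_nonneg (by assumption)
        have := sq_nonneg e
        linarith
    linarith
  have h1 : 0 < (1 - e) ^ 2 := by
    have : 0 < 1 - e := by linarith
    positivity
  exact le_of_mul_le_mul_right (h.trans g11) h1

theorem a3 {L k ρ y : ℝ} (hL : 0 < L) (hk : k ≤ ρ * y) (hρ : 0 < ρ) (hy : 0 < y) :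
    L * (8 * k / 3) ≤ ρ * L * (Real.pi * y) := by
  have h1 : L * (8 * k / 3) ≤ L * (8 * (ρ * y) / 3) := by gcongr
  have h2 : 0 < ρ * y * L := by positivity
  have h3 := mul_le_mul_of_nonneg_left Real.pi_gt_three.le h2.le
  calc L * (8 * k / 3) ≤ L * (8 * (ρ * y) / 3) := h1
    _ = ρ * y * L * (8 / 3) := by ring
    _ ≤ ρ * y * L * 3 := by
      apply mul_le_mul_of_nonneg_left _ h2.le
      norm_num
    _ ≤ ρ * y * L * Real.pi := h3
    _ = _ := by ring

theorem a4 {L e q3 : ℝ} (hL : 0 < L) (he : 0 < e) (he1 : e ≤ 1 / 40) (hq : 0 ≤ q3) {qm : ℝ} :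
    L * (1 - 3 * e - qm - q3) ≤ L - L * qm - e * L - (e / 4 * L * (1 + q3) + e * L) := by
  have h1 : L - L * qm - e * L - (e / 4 * L * (1 + q3) + e * L) - L * (1 - 3 * e - qm - q3) =
      L * (3 / 4 * e + (1 - e / 4) * q3) := by ring
  have h2 : 0 ≤ L * (3 / 4 * e + (1 - e / 4) * q3) := by
    apply mul_nonneg hL.le
    have h3 : 0 ≤ (1 - e / 4) * q3 := mul_nonneg (by linarith) hq
    linarith
  linarith

theorem a5 {e k ρ y C2 : ℝ} (he : 0 < e) (hk : k ≤ ρ * y) (hk0 : 0 < k) (hy : 0 < y) (hC : 1 ≤ C2)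
    (hρ0 : 0 < ρ) (hρ : ρ * (32 * C2) = e ^ 2) : 4 ≤ Real.pi * (3 * e ^ 2 * y / (8 * k)) ∧
      4 * Real.pi ≤ Real.pi * (3 * e ^ 2 * y / (8 * k)) * 1 ∨ False := by
  left
  have h4 : 4 ≤ 3 * e ^ 2 * y / (8 * k) := by
    rw [le_div_iff₀ (by positivity)]
    have h5 : 32 * k ≤ 32 * (ρ * y) := by linarith
    have h6 : 32 * (ρ * y) ≤ e ^ 2 * y := by
      rw [← hρ]
      have : ρ * y * 32 ≤ ρ * y * (32 * C2) := by
        apply mul_le_mul_of_nonneg_left _ (by positivity)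
        linarith
      linarith
    have h7 : 0 < e ^ 2 * y := by positivity
    linarith
  have hpi := Real.pi_gt_three
  constructor
  · nlinarith
  · nlinarith

theorem a6 {b L y e C2 y0 : ℝ} (hb : b = L / (Real.pi * y)) (hL : 0 < L) (hy : 0 < y) (he : 0 < e)
    (h1 : 8 * C2 / e ^ 2 ≤ y0) (h2 : y0 ≤ y) : 8 * C2 / e * b ≤ e * L := by
  have hpi := Real.pi_gt_three
  have h9 : 8 * C2 / e ^ 2 ≤ Real.pi * y := by nlinarith
  have h10 : 8 * C2 / e ≤ e * (Real.pi * y) := by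
    have : 8 * C2 / e = e * (8 * C2 / e ^ 2) := by field_simp
    rw [this]
    exact mul_le_mul_of_nonneg_left h9 he.le
  have hpos : 0 < Real.pi * y := by positivity
  rw [hb, mul_div_assoc', div_le_iff₀ hpos]
  calc 8 * C2 / e * L ≤ e * (Real.pi * y) * L := mul_le_mul_of_nonneg_right h10 hL.le
    _ = _ := by ring

theorem a7 {C1 L k e ρ c0 y : ℝ} (hC1 : 0 < C1) (hL : 0 < L) (he : 0 < e) (hρ0 : 0 < ρ) (hρ1 : ρ ≤ 1)
    (hk : k ≤ ρ * y) (hy : y ≤ c0 * L) (hc : c0 * (200 * C1) = e) :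
    C1 * (8 * k / 3) ≤ e / 4 * L := by
  have h0 : k ≤ ρ * (c0 * L) := hk.trans (mul_le_mul_of_nonneg_left hy hρ0.le)
  have h2 : C1 * (8 * k / 3) ≤ C1 * (8 * (ρ * (c0 * L)) / 3) := by
    apply mul_le_mul_of_nonneg_left _ hC1.le
    linarith
  have h3 : C1 * (8 * (ρ * (c0 * L)) / 3) = (c0 * (200 * C1)) * ρ * L * (8 / 600) := by ring
  rw [h3, hc] at h2
  refine h2.trans ?_
  have h4 : e * ρ * L * (8 / 600) ≤ e * 1 * L * (8 / 600) := by gcongr
  have h5 : 0 < e * L := by positivity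
  linarith

theorem a8 {C1 L a e c0 r : ℝ} (hC1 : 0 < C1) (hL : 0 < L) (he : 0 < e) (ha0 : 0 < a) (ha : a ≤ 2 * r)
    (hr : r ≤ 4 * c0) (hc : c0 * (200 * C1) = e) (hc0 : 0 < c0) (hc1 : c0 ≤ 1 / 200) :
    C1 * (L * a ^ 2) ≤ e / 4 * L := by
  have h2 : a ^ 2 ≤ (8 * c0) ^ 2 := pow_le_pow_left₀ ha0.le (by linarith) 2
  have h3 : C1 * (L * a ^ 2) ≤ C1 * (L * (8 * c0) ^ 2) := by gcongr
  have h4 : C1 * (L * (8 * c0) ^ 2) = (c0 * (200 * C1)) * c0 * L * (64 / 200) := by ring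
  rw [h4, hc] at h3
  refine h3.trans ?_
  have h6 : e * c0 * L ≤ e * (1 / 200) * L := by gcongr
  have h7 : 0 < e * L := by positivity
  linarith

theorem a9 {C1 L k e l : ℝ} (hC1 : 0 < C1) (hL : 0 < L) (he : 0 < e) (hk : 0 < k)
    (hl : l = 3 * L / (8 * k)) (hkb : 4 * C1 / e ≤ k) : C1 * l ≤ e / 4 * L := by
  have h2 : l ≤ L / k := by
    rw [hl, div_le_div_iff₀ (by positivity) hk]
    have : 0 < L * k := by positivity
    linarith
  have h3 : C1 * l ≤ C1 * (L / k) := mul_le_mul_of_nonneg_left h2 hC1.le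
  refine h3.trans ?_
  rw [div_le_iff₀ he] at hkb
  rw [mul_div_assoc', div_le_iff₀ hk]
  have := mul_le_mul_of_nonneg_right hkb hL.le
  linarith

theorem b1 {L y c0 : ℝ} (hy : 0 < y) (h : y ≤ c0 * L) : Real.pi * y ≤ 4 * c0 * L := by
  have h1 : Real.pi * y ≤ 4 * y := mul_le_mul_of_nonneg_right Real.pi_lt_four.le hy.le
  linarith

theorem b2 {e r : ℝ} (h1 : e ≤ 1) (hr : 0 < r) : (1 + e) * r ≤ 2 * r :=
  mul_le_mul_of_nonneg_right (by linarith) hr.le

theorem b3 {e r : ℝ} (h1 : 0 < e) (hr : 0 < r) : (1 - e) * r ≤ 2 * r :=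
  mul_le_mul_of_nonneg_right (by linarith) hr.le

theorem b4 {e r : ℝ} (h1 : 0 < e) (hr : 0 < r) : (1 - e) * r < r := by
  have := mul_pos h1 hr
  linarith

theorem b5 {e r : ℝ} (h1 : 0 < e) (hr : 0 < r) : r < (1 + e) * r := by
  have := mul_pos h1 hr
  linarith

theorem b6 {e : ℝ} (h1 : 0 < e) (h2 : e ≤ 1) : e ≤ 1 - (1 - e) ^ 2 := by nlinarith

theorem b7 {e c0 : ℝ} (h0 : 0 < c0) (h1 : c0 ≤ e / 200) (h2 : e ≤ 1 / 40) (he : 0 < e) :
    (4 * c0) ^ 2 ≤ 2 * e := by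
  have h3 : c0 ^ 2 ≤ (e / 200) ^ 2 := pow_le_pow_left₀ h0.le h1 2
  nlinarith

theorem b8 {L k ρ y : ℝ} (hL : 0 < L) (hk : k ≤ ρ * y) (hρ : ρ ≤ 1) (hy : 0 < y) :
    L * (8 * k) ≤ 3 * L * (Real.pi * y) := by
  have h0 : k ≤ y := hk.trans (by
    have := mul_le_mul_of_nonneg_right hρ hy.le
    linarith)
  have h1 : L * (8 * k) ≤ L * (8 * y) := mul_le_mul_of_nonneg_left (by linarith) hL.le
  have h2 : 3 * (L * y) ≤ Real.pi * (L * y) :=
    mul_le_mul_of_nonneg_right Real.pi_gt_three.le (by positivity)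
  have h3 : 0 < L * y := by positivity
  have e1 : 3 * L * (Real.pi * y) = 3 * (Real.pi * (L * y)) := by ring
  rw [e1]
  linarith

theorem b9 {e : ℝ} (h0 : 0 < e) (h1 : e ≤ 1 / 40) : e ^ 2 ≤ 1 := by nlinarith

end Alg

theorem pointwise (hRH : RHs) (ε : ℝ) (hε : 0 < ε) :
    ∃ e ρ c0 y0 T0 : ℝ, 0 < e ∧ e < 1 ∧ 0 < ρ ∧ ρ ≤ 1 ∧ 0 < c0 ∧ 1 ≤ y0 ∧ 1 ≤ ρ * y0 ∧ 10 ≤ T0 ∧
    ∀ T : ℝ, T0 ≤ T → ∀ (hT : 1 ≤ T) (t : ℝ), T + Real.log T ≤ t → t ≤ 2 * T - Real.log T →
    ∀ y : ℝ, y0 ≤ y → y ≤ c0 * Real.log T →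
    |cnt hT t (Real.pi * y / Real.log T) - y| ≤ y * (ε + PP e ρ T y t) := by
  obtain ⟨C1, T1, hC1, hT1, hF⟩ := formula hRH
  obtain ⟨C2, T2, hC2, hT2, hS⟩ := far_sum hRH
  have hpi := Real.pi_gt_three
  have hpi4 := Real.pi_lt_four
  set e : ℝ := min (ε / 5) (1 / 40) with he
  have he0 : 0 < e := lt_min (by positivity) (by norm_num)
  have he1 : e ≤ 1 / 40 := min_le_right _ _
  have heε : 5 * e ≤ ε := by
    have : e ≤ ε / 5 := min_le_left _ _
    linarith
  -- the parameters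
  set ρ : ℝ := e ^ 2 / (32 * C2) with hρ
  have hC20 : 0 < C2 := by linarith
  have hC10 : 0 < C1 := by linarith
  have hρ0 : 0 < ρ := by positivity
  have hρC : ρ * (32 * C2) = e ^ 2 := by rw [hρ]; field_simp
  have hρe : ρ ≤ e ^ 2 / 32 := by
    rw [hρ]
    apply div_le_div_of_nonneg_left (by positivity) (by norm_num)
    linarith
  have hρ1 : ρ ≤ 1 := by
    have : e ^ 2 ≤ 1 := Alg.b9 he0 he1
    linarith
  set c0 : ℝ := e / (200 * C1) with hc0
  have hc00 : 0 < c0 := by positivity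
  have hc0C : c0 * (200 * C1) = e := by rw [hc0]; field_simp
  have hc01 : c0 ≤ e / 200 := by
    rw [hc0]
    apply div_le_div_of_nonneg_left he0.le (by norm_num)
    linarith
  set y0 : ℝ := max ((8 * C2) / e ^ 2) ((2 + 4 * C1 / e) / ρ) with hy0
  have hy01 : (8 * C2) / e ^ 2 ≤ y0 := le_max_left _ _
  have hy02 : (2 + 4 * C1 / e) / ρ ≤ y0 := le_max_right _ _
  have hρy0 : 2 + 4 * C1 / e ≤ ρ * y0 := by
    rw [div_le_iff₀ hρ0] at hy02
    linarith
  have hC1e : 0 < 4 * C1 / e := by positivity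
  have hy0pos : 0 < y0 := by
    have : 0 < ρ * y0 := by linarith
    exact (mul_pos_iff_of_pos_left hρ0).mp this
  have hy0one : 1 ≤ y0 := by
    have h1 : ρ * y0 ≤ 1 * y0 := mul_le_mul_of_nonneg_right hρ1 hy0pos.le
    linarith
  refine ⟨e, ρ, c0, y0, max (max T1 T2) (Real.exp (4 * C1 / e)), he0, by linarith, hρ0, hρ1, hc00,
    hy0one, by linarith, ?_, ?_⟩
  · exact hT1.trans ((le_max_left _ _).trans (le_max_left _ _))
  intro T hT0 hT t ht1 ht2 y hy hyL
  have hTT1 : T1 ≤ T := ((le_max_left _ _).trans (le_max_left _ _)).trans hT0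
  have hTT2 : T2 ≤ T := ((le_max_right _ _).trans (le_max_left _ _)).trans hT0
  have hT10 : 10 ≤ T := hT1.trans hTT1
  have hLbig : 4 * C1 / e ≤ Real.log T := by
    rw [Real.le_log_iff_exp_le (by linarith)]
    exact (le_max_right _ _).trans hT0
  set L := Real.log T with hLdef
  have hL : 0 < L := Real.log_pos (by linarith)
  have hypos : 0 < y := by linarith
  -- k and l
  set k : ℕ := ⌊ρ * y⌋₊ with hk
  have hρy : ρ * y0 ≤ ρ * y := mul_le_mul_of_nonneg_left hy hρ0.le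
  have hk1 : (k : ℝ) ≤ ρ * y := Nat.floor_le (by positivity)
  have hk2 : ρ * y < k + 1 := Nat.lt_floor_add_one _
  have hkbig : 4 * C1 / e ≤ k := by linarith
  have hkr : (1 : ℝ) ≤ k := by linarith
  have hk0 : 1 ≤ k := by exact_mod_cast hkr
  have hkpos : (0 : ℝ) < k := by linarith
  set l := ell (1 / 4) T k with hl
  have hlv : l = 3 * L / (8 * k) := by
    rw [hl]; unfold ell; rw [← hLdef]; field_simp; norm_num
  have hl0 : 0 < l := by rw [hlv]; positivity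
  have hlL : l ≤ L := SP.MkB.ell_le_log (by norm_num) hT10 hk0
  have hLl : L / l = 8 * k / 3 := by rw [hlv]; field_simp
  -- windows
  set r : ℝ := Real.pi * y / L with hr
  have hr0 : 0 < r := by positivity
  have hrc : r ≤ 4 * c0 := by
    rw [hr, div_le_iff₀ hL]
    exact Alg.b1 hypos hyL
  set ap : ℝ := (1 + e) * r with hap
  set am : ℝ := (1 - e) * r with ham
  have hap0 : 0 < ap := by positivity
  have h1e : 0 < 1 - e := by linarith
  have ham0 : 0 < am := by positivity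
  set qp := ‖QW T t l (Wc ap l)‖ with hqp
  set qm := ‖QW T t l (Wc am l)‖ with hqm
  set b : ℝ := L / (Real.pi * y) with hb
  have hb0 : 0 < b := by positivity
  set q3 := ‖QW T t l (W1 b)‖ with hq3
  have hqp0 : 0 ≤ qp := norm_nonneg _
  have hqm0 : 0 ≤ qm := norm_nonneg _
  have hq30 : 0 ≤ q3 := norm_nonneg _
  have hPP : PP e ρ T y t = 2 * qp + qm + q3 := rfl
  rw [hPP]
  -- common error term
  have herr : ∀ a : ℝ, 0 < a → a ≤ 2 * r → C1 * (L / l + L * a ^ 2 + 1 + l) ≤ e * L := by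
    intro a ha0 ha
    have f1 : C1 * (L / l) ≤ e / 4 * L := by
      rw [hLl]
      exact Alg.a7 hC10 hL he0 hρ0 hρ1 hk1 hyL hc0C
    have f2 : C1 * (L * a ^ 2) ≤ e / 4 * L :=
      Alg.a8 hC10 hL he0 ha0 ha hrc hc0C hc00 (by linarith)
    have f3 : C1 * 1 ≤ e / 4 * L := by
      rw [div_le_iff₀ he0] at hLbig
      linarith
    have f4 : C1 * l ≤ e / 4 * L := Alg.a9 hC10 hL he0 hkpos hlv hkbig
    linarith
  have Fp := hF T hTT1 hT t ht1 ht2 ap l hap0 hl0 hlL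
  have Fm := hF T hTT1 hT t ht1 ht2 am l ham0 hl0 hlL
  have Ep := herr ap hap0 (Alg.b2 (by linarith) hr0)
  have Em := herr am ham0 (Alg.b3 he0 hr0)
  rw [abs_le] at Fp Fm
  set N := cnt hT t r with hN
  have hN0 : 0 ≤ N := cnt_nonneg _ _ _
  rw [abs_le]
  constructor
  · -- lower bound
    have hbl : b ≤ l := by
      rw [hb, hlv, div_le_div_iff₀ (by positivity) (by positivity)]
      exact Alg.b8 hL hk1 hρ1 hypos
    have hba : b * r = 1 := by rw [hb, hr]; field_simp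
    have g1 := cnt_low hT (t := t) (a2 := r) (a := am) (l := l) (b := b) ham0
      (Alg.b4 he0 hr0) hl0 hba.ge
    have g2 := hS T hTT2 hT t ht1 ht2 b l hb0 hbl hlL
    have hram : am / r = 1 - e := by rw [ham]; field_simp
    rw [hram] at g1
    set X := ∑ s ∈ (ZZf hT).toFinset, (mu s : ℝ) * Real.exp (-(s.im - t) ^ 2 / 2) *
        (1 / (1 + (b * (s.im - t)) ^ 2)) with hX
    have h2e : e ≤ 1 - (1 - e) ^ 2 := Alg.b6 he0 (by linarith)
    have g3 : 8 * b ^ 2 / (l * (1 - (1 - e) ^ 2)) ≤ 8 * b ^ 2 / (l * e) := by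
      apply div_le_div_of_nonneg_left (by positivity) (by positivity)
      exact mul_le_mul_of_nonneg_left h2e hl0.le
    have hX0 : 0 ≤ X := Finset.sum_nonneg fun s _ => by positivity
    have g4 : 8 * b ^ 2 / (l * (1 - (1 - e) ^ 2)) * X ≤
        8 * b ^ 2 / (l * e) * (C2 * (L / b) * (1 + q3) + C2 * (l / b)) :=
      mul_le_mul g3 g2 hX0 (by positivity)
    have g5 : 8 * b ^ 2 / (l * e) * (C2 * (L / b) * (1 + q3) + C2 * (l / b)) =
        8 * C2 / e * ((b * (L / l)) * (1 + q3) + b) := by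
      field_simp
    rw [g5] at g4
    have g6 : b * (L / l) ≤ ρ * L := by
      rw [hLl, hb]
      rw [div_mul_eq_mul_div, div_le_iff₀ (by positivity)]
      exact Alg.a3 hL hk1 hρ0 hypos
    have g7 : 8 * C2 / e * (b * (L / l)) ≤ e / 4 * L := by
      calc 8 * C2 / e * (b * (L / l)) ≤ 8 * C2 / e * (ρ * L) := by gcongr
        _ = (ρ * (32 * C2)) / (4 * e) * L := by field_simp; ring
        _ = e / 4 * L := by rw [hρC]; field_simp
    have g8 : 8 * C2 / e * b ≤ e * L := Alg.a6 hb hL hypos he0 hy01 hy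
    have g9 : 8 * C2 / e * ((b * (L / l)) * (1 + q3) + b) ≤ e / 4 * L * (1 + q3) + e * L := by
      have h1 : 8 * C2 / e * ((b * (L / l)) * (1 + q3) + b) =
          8 * C2 / e * (b * (L / l)) * (1 + q3) + 8 * C2 / e * b := by ring
      rw [h1]
      have h2 := mul_le_mul_of_nonneg_right g7 (by linarith : 0 ≤ 1 + q3)
      linarith
    have g10 : Real.pi / am = L / ((1 - e) * y) := by
      rw [ham, hr]; field_simp
    rw [g10] at g1
    -- combine
    have g11 : L - L * qm - e * L - (e / 4 * L * (1 + q3) + e * L) ≤ L / ((1 - e) * y) * N := by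
      linarith [Fm.1]
    have g12 : L * (1 - 3 * e - qm - q3) ≤ L / ((1 - e) * y) * N :=
      (Alg.a4 hL he0 he1 hq30).trans g11
    have g13 : (1 - e) * y * (1 - 3 * e - qm - q3) ≤ N := by
      have h1 : L / ((1 - e) * y) * N = L * (N / ((1 - e) * y)) := by ring
      rw [h1] at g12
      have h2 := le_of_mul_le_mul_left g12 hL
      rw [le_div_iff₀ (by positivity)] at h2
      linarith
    have g14 : y * (1 - 4 * e - qm - q3) ≤ N := Alg.a1 he0 hypos hqm0 hq30 g13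
    have g15 : y * (4 * e) ≤ y * ε := mul_le_mul_of_nonneg_left (by linarith) hypos.le
    have g16 : 0 ≤ y * qp := by positivity
    have g17 : y * (1 - 4 * e - qm - q3) = y - y * (4 * e) - y * qm - y * q3 := by ring
    have g18 : y * (ε + (2 * qp + qm + q3)) = y * ε + 2 * (y * qp) + y * qm + y * q3 := by ring
    rw [g17] at g14
    rw [g18]
    linarith
  · -- upper bound
    have g1 := cnt_up hT (t := t) (a1 := r) (a := ap) (l := l) hr0 (Alg.b5 he0 hr0) hl0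
    have g2 : Real.pi / ap = L / ((1 + e) * y) := by
      rw [hap, hr]; field_simp
    have g3 : 4 * Real.pi ^ 2 / (ap * l * (ap - r)) ≤ e * (Real.pi / ap) := by
      have h1 : ap - r = e * r := by rw [hap]; ring
      have h2 : 4 * Real.pi ^ 2 / (ap * l * (ap - r)) = Real.pi / ap * (4 * Real.pi / (l * (e * r))) := by
        rw [h1]; field_simp
      rw [h2, mul_comm e (Real.pi / ap)]
      apply mul_le_mul_of_nonneg_left _ (by positivity)
      rw [div_le_iff₀ (by positivity), hlv, hr]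
      have h3 : e * (3 * L / (8 * k) * (e * (Real.pi * y / L))) = Real.pi * (3 * e ^ 2 * y / (8 * k)) := by
        field_simp
      rw [h3]
      have h4 := (Alg.a5 he0 hk1 hkpos hypos hC2 hρ0 hρC).resolve_right (fun h => h)
      linarith [h4.2]
    have hpa : 0 < Real.pi / ap := by positivity
    have g4 : (1 - e) * (Real.pi / ap) ≤ Real.pi / ap - 4 * Real.pi ^ 2 / (ap * l * (ap - r)) := by
      linarith
    have g5 : ¬ (Real.pi / ap - 4 * Real.pi ^ 2 / (ap * l * (ap - r)) < 0) := by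
      have : 0 < (1 - e) * (Real.pi / ap) := by positivity
      linarith
    have g6 := g1.resolve_right g5
    have g7 : 1 - e ≤ Real.exp (-r ^ 2 / 2) := by
      have h1 := Real.add_one_le_exp (-r ^ 2 / 2)
      have h2 : r ^ 2 ≤ 2 * e := by
        have : r ^ 2 ≤ (4 * c0) ^ 2 := pow_le_pow_left₀ hr0.le hrc 2
        have : (4 * c0) ^ 2 ≤ 2 * e := Alg.b7 hc00 hc01 he1 he0
        linarith
      linarith
    have g8 : (1 - e) * (Real.pi / ap) * (1 - e) ≤
        (Real.pi / ap - 4 * Real.pi ^ 2 / (ap * l * (ap - r))) * Real.exp (-r ^ 2 / 2) :=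
      mul_le_mul g4 g7 h1e.le (by linarith [not_lt.mp g5])
    have g9 : N * ((1 - e) * (Real.pi / ap) * (1 - e)) ≤ L * (1 + e + qp) := by
      have := mul_le_mul_of_nonneg_left g8 hN0
      linarith [Fp.2]
    rw [g2] at g9
    have g10 : N * (1 - e) ^ 2 ≤ (1 + e) * y * (1 + e + qp) := by
      have h1 : N * ((1 - e) * (L / ((1 + e) * y)) * (1 - e)) =
          L * (N * (1 - e) ^ 2 / ((1 + e) * y)) := by ring
      rw [h1] at g9
      have h2 := le_of_mul_le_mul_left g9 hL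
      rw [div_le_iff₀ (by positivity)] at h2
      linarith
    have g12 : N ≤ y * (1 + 5 * e + 2 * qp) := Alg.a2 he0 he1 hypos hqp0 g10
    have g13 : y * (5 * e) ≤ y * ε := mul_le_mul_of_nonneg_left heε hypos.le
    have g14 : 0 ≤ y * (qm + q3) := by positivity
    have g17 : y * (1 + 5 * e + 2 * qp) = y + y * (5 * e) + 2 * (y * qp) := by ring
    have g18 : y * (ε + (2 * qp + qm + q3)) = y * ε + 2 * (y * qp) + y * (qm + q3) := by ring
    rw [g17] at g12
    rw [g18]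
    linarith

end Pool.Agent.TH800.LD
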