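import Pool.Agent.H382L.NoZero
import Pool.Agent.H336R2.V.ExistsLam

/-! The Fejér kernel smoothed window (owner helper800). -/

set_option autoImplicit false

open Filter Topology Set MeasureTheory

namespace Pool.Agent.TH800.LD

/-- the Fejér kernel of bandwidth `l`, with integral `π` -/
noncomputable def K (l y : ℝ) : ℝ := l / 2 * Real.sinc (l * y / 2) ^ 2

theorem K_cont (l : ℝ) : Continuous (K l) := by
  unfold K
  have := Real.continuous_sinc
  fun_prop

theorem K_nonneg {l : ℝ} (hl : 0 < l) (y : ℝ) : 0 ≤ K l y := by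
  unfold K; positivity

theorem K_even (l y : ℝ) : K l (-y) = K l y := by
  unfold K
  rw [show l * -y / 2 = -(l * y / 2) by ring, Real.sinc_neg]

theorem K_eq {l : ℝ} (hl : 0 < l) (y : ℝ) :
    ∫ u in (0 : ℝ)..l, (1 - u / l) * Real.cos (u * y) = K l y := by
  by_cases hy : y = 0
  · subst hy
    have h1 : ∀ u : ℝ, (1 - u / l) * Real.cos (u * 0) = 1 - u / l := by intro u; simp
    simp_rw [h1]
    rw [intervalIntegral.integral_sub (by simp) (by
      apply Continuous.intervalIntegrable; fun_prop), intervalIntegral.integral_div,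
      integral_id]
    unfold K
    simp
    field_simp
    try ring
  · rw [LG.NoZero.int_tri hl hy]
    unfold K
    have h1 : l * y / 2 ≠ 0 := by positivity
    rw [Real.sinc_of_ne_zero h1]
    have h2 : Real.cos (l * y) = 1 - 2 * Real.sin (l * y / 2) ^ 2 := by
      rw [show l * y = 2 * (l * y / 2) by ring, Real.cos_two_mul, Real.cos_sq']
      ring_nf
    rw [h2]
    have := hl.ne'
    field_simp
    ring

theorem K_le {l y : ℝ} (hl : 0 < l) (hy : y ≠ 0) : K l y ≤ 2 / l * (1 / y ^ 2) := by
  unfold K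
  have h1 : l * y / 2 ≠ 0 := by positivity
  rw [Real.sinc_of_ne_zero h1, div_pow]
  have h2 : Real.sin (l * y / 2) ^ 2 ≤ 1 := by
    have := Real.sin_sq_add_cos_sq (l * y / 2)
    nlinarith [sq_nonneg (Real.cos (l * y / 2))]
  have h3 : 0 < (l * y / 2) ^ 2 := by positivity
  calc l / 2 * (Real.sin (l * y / 2) ^ 2 / (l * y / 2) ^ 2) ≤ l / 2 * (1 / (l * y / 2) ^ 2) := by
        gcongr
    _ = 2 / l * (1 / y ^ 2) := by field_simp

theorem K_sub {l : ℝ} (hl : 0 < l) (d : ℝ) : ∫ y in (0 : ℝ)..d, K l y =
    Real.pi * ∫ w in (0 : ℝ)..(l * d / (2 * Real.pi)), Real.sinc (Real.pi * w) ^ 2 := by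
  have hpi := Real.pi_pos
  have e1 : ∀ y : ℝ, K l y = l / 2 * (Real.sinc (Real.pi * (l / (2 * Real.pi) * y)) ^ 2) := by
    intro y
    unfold K
    congr 3
    field_simp
  simp_rw [e1]
  have hc : l / (2 * Real.pi) ≠ 0 := by positivity
  rw [intervalIntegral.integral_const_mul,
    intervalIntegral.integral_comp_mul_left (fun w => Real.sinc (Real.pi * w) ^ 2) hc]
  rw [smul_eq_mul, mul_zero, show l / (2 * Real.pi) * d = l * d / (2 * Real.pi) by ring]
  field_simp

/-- lower bound for the mass on `[-d, d]` -/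
theorem K_mass {l d : ℝ} (hl : 0 < l) (hd : 0 < d) :
    Real.pi - 4 * Real.pi ^ 2 / (l * d) ≤ ∫ y in (-d)..d, K l y := by
  have hpi := Real.pi_pos
  set β : ℝ := l * d / (2 * Real.pi) with hβ
  have hβ0 : 0 < β := by positivity
  have h1 : ∫ y in (0 : ℝ)..d, K l y = Real.pi * ∫ w in (0 : ℝ)..β, Real.sinc (Real.pi * w) ^ 2 := by
    exact K_sub hl d
  have h2 : 1 / 2 - 1 / β ≤ ∫ w in (0 : ℝ)..β, Real.sinc (Real.pi * w) ^ 2 := by
    apply le_of_forall_pos_le_add
    intro e he
    set α := min e β with hα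
    have hα0 : 0 < α := lt_min he hβ0
    have h3 := H336V.ExistsLam.middle hα0 (min_le_right e β)
    have hc : Continuous (fun w : ℝ => Real.sinc (Real.pi * w) ^ 2) := by
      have := Real.continuous_sinc
      fun_prop
    have h4 : ∫ w in α..β, Real.sinc (Real.pi * w) ^ 2 ≤ ∫ w in (0 : ℝ)..β, Real.sinc (Real.pi * w) ^ 2 := by
      rw [← intervalIntegral.integral_add_adjacent_intervals (hc.intervalIntegrable 0 α)
        (hc.intervalIntegrable α β)]
      have := intervalIntegral.integral_nonneg (μ := volume) hα0.le (fun w _ => sq_nonneg (Real.sinc (Real.pi * w)))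
      linarith
    have h5 : α ≤ e := min_le_left _ _
    linarith
  have h3 : ∫ y in (-d)..0, K l y = ∫ y in (0 : ℝ)..d, K l y := by
    have := intervalIntegral.integral_comp_neg (f := K l) (a := 0) (b := d)
    simp only [K_even, neg_zero] at this
    exact this.symm
  rw [← intervalIntegral.integral_add_adjacent_intervals ((K_cont l).intervalIntegrable (-d) 0)
    ((K_cont l).intervalIntegrable 0 d), h3, h1]
  have h4 : Real.pi * (1 / 2 - 1 / β) ≤ Real.pi * ∫ w in (0 : ℝ)..β, Real.sinc (Real.pi * w) ^ 2 :=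
    mul_le_mul_of_nonneg_left h2 hpi.le
  have h5 : Real.pi * (1 / 2 - 1 / β) = Real.pi / 2 - 2 * Real.pi ^ 2 / (l * d) := by
    rw [hβ]; field_simp
  rw [h5] at h4
  have h6 : 4 * Real.pi ^ 2 / (l * d) = 2 * (2 * Real.pi ^ 2 / (l * d)) := by ring
  linarith

/-- upper bound for the mass -/
theorem K_mass_le {l d : ℝ} (hl : 0 < l) (hd : 0 < d) : ∫ y in (-d)..d, K l y ≤ Real.pi := by
  have hpi := Real.pi_pos
  set β : ℝ := l * d / (2 * Real.pi) with hβ
  have hβ0 : 0 < β := by positivity
  have h1 : ∫ y in (0 : ℝ)..d, K l y = Real.pi * ∫ w in (0 : ℝ)..β, Real.sinc (Real.pi * w) ^ 2 := by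
    exact K_sub hl d
  have h2 : ∫ w in (0 : ℝ)..β, Real.sinc (Real.pi * w) ^ 2 ≤ 1 / 2 := by
    rw [intervalIntegral.integral_of_le hβ0.le, ← H336V.ExistsLam.integral_sinc_sq]
    exact setIntegral_mono_set H336V.ExistsLam.sinc_sq_integrable.integrableOn
      (Filter.Eventually.of_forall fun w => sq_nonneg _) (Filter.Eventually.of_forall fun w hw => hw.1)
  have h3 : ∫ y in (-d)..0, K l y = ∫ y in (0 : ℝ)..d, K l y := by
    have := intervalIntegral.integral_comp_neg (f := K l) (a := 0) (b := d)
    simp only [K_even, neg_zero] at this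
    exact this.symm
  rw [← intervalIntegral.integral_add_adjacent_intervals ((K_cont l).intervalIntegrable (-d) 0)
    ((K_cont l).intervalIntegrable 0 d), h3, h1]
  have h4 := mul_le_mul_of_nonneg_left h2 hpi.le
  linarith

/-- the weight `2 (1 - |u|/l)_+ sinc(a u)` -/
noncomputable def w (a l u : ℝ) : ℝ := 2 * max 0 (1 - |u| / l) * Real.sinc (a * u)

theorem w_cont (a : ℝ) {l : ℝ} (_hl : 0 < l) : Continuous (w a l) := by
  unfold w
  have := Real.continuous_sinc
  fun_prop

theorem w_abs (a : ℝ) {l : ℝ} (hl : 0 < l) (u : ℝ) : |w a l u| ≤ 2 := by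
  unfold w
  have h1 := Real.abs_sinc_le_one (a * u)
  have h2 : |2 * max 0 (1 - |u| / l)| ≤ 2 := by
    have h3 : 0 ≤ |u| / l := by positivity
    rw [abs_of_nonneg (by positivity)]
    have : max 0 (1 - |u| / l) ≤ 1 := max_le (by norm_num) (by linarith)
    linarith
  rw [abs_mul]
  calc |2 * max 0 (1 - |u| / l)| * |Real.sinc (a * u)| ≤ 2 * 1 :=
        mul_le_mul h2 h1 (abs_nonneg _) (by norm_num)
    _ = 2 := by norm_num

theorem w_zero {a l u : ℝ} (hl : 0 < l) (hu : l ≤ u) : w a l u = 0 := by
  unfold w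
  have h1 : 1 ≤ |u| / l := by
    rw [le_div_iff₀ hl, abs_of_nonneg (by linarith)]
    linarith
  rw [max_eq_left (by linarith)]
  ring

theorem w_eq {a l u : ℝ} (hl : 0 < l) (h0 : 0 ≤ u) (hu : u ≤ l) :
    w a l u = 2 * (1 - u / l) * Real.sinc (a * u) := by
  unfold w
  have h1 : u / l ≤ 1 := by rw [div_le_one hl]; exact hu
  rw [abs_of_nonneg h0, max_eq_right (by linarith)]

/-- the smoothed window -/
noncomputable def G (a l x : ℝ) : ℝ := 1 / a * ∫ v in (-a)..a, K l (x - v)

theorem sinc_cos {a u x : ℝ} (ha : 0 < a) :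
    2 * Real.sinc (a * u) * Real.cos (u * x) = 1 / a * ∫ v in (-a)..a, Real.cos (u * (x - v)) := by
  by_cases hu : u = 0
  · subst hu
    simp
    field_simp
    try ring
  · have hd : ∀ v ∈ uIcc (-a) a, HasDerivAt (fun v => -(Real.sin (u * (x - v)) / u))
        (Real.cos (u * (x - v))) v := by
      intro v _
      have h1 : HasDerivAt (fun v => u * (x - v)) (-u) v := by
        simpa using ((hasDerivAt_id v).const_sub x).const_mul u
      have h2 := (h1.sin.div_const u).neg
      refine h2.congr_deriv ?_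
      field_simp
    rw [intervalIntegral.integral_eq_sub_of_hasDerivAt hd
      (by apply Continuous.intervalIntegrable; fun_prop)]
    have hau : a * u ≠ 0 := by positivity
    rw [Real.sinc_of_ne_zero hau]
    have e1 : u * (x - a) = u * x - a * u := by ring
    have e2 : u * (x - -a) = u * x + a * u := by ring
    rw [e1, e2, Real.sin_sub, Real.sin_add]
    field_simp
    ring

theorem G_eq {a l L : ℝ} (ha : 0 < a) (hl : 0 < l) (hL : l ≤ L) (x : ℝ) :
    ∫ u in (0 : ℝ)..L, w a l u * Real.cos (u * x) = G a l x := by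
  have hc : Continuous (fun u => w a l u * Real.cos (u * x)) := by
    have := w_cont a hl
    fun_prop
  rw [← intervalIntegral.integral_add_adjacent_intervals (hc.intervalIntegrable 0 l)
    (hc.intervalIntegrable l L)]
  have h1 : ∫ u in l..L, w a l u * Real.cos (u * x) = 0 := by
    have : ∀ u ∈ uIcc l L, w a l u * Real.cos (u * x) = 0 := by
      intro u hu
      rw [uIcc_of_le hL] at hu
      rw [w_zero hl hu.1, zero_mul]
    rw [intervalIntegral.integral_congr this]
    simp
  rw [h1, add_zero]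
  have h2 : ∀ u ∈ uIcc 0 l, w a l u * Real.cos (u * x) =
      1 / a * ∫ v in (-a)..a, (1 - u / l) * Real.cos (u * (x - v)) := by
    intro u hu
    rw [uIcc_of_le hl.le] at hu
    rw [w_eq hl hu.1 hu.2, intervalIntegral.integral_const_mul]
    have := sinc_cos (a := a) (u := u) (x := x) ha
    calc 2 * (1 - u / l) * Real.sinc (a * u) * Real.cos (u * x)
        = (1 - u / l) * (2 * Real.sinc (a * u) * Real.cos (u * x)) := by ring
      _ = _ := by rw [this]; ring
  rw [intervalIntegral.integral_congr h2, intervalIntegral.integral_const_mul]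
  unfold G
  congr 1
  rw [intervalIntegral_intervalIntegral_swap]
  · apply intervalIntegral.integral_congr
    intro v _
    exact K_eq hl (x - v)
  · rw [uIoc_of_le hl.le, uIoc_of_le (by linarith : -a ≤ a)]
    have : Continuous (Function.uncurry fun u v : ℝ => (1 - u / l) * Real.cos (u * (x - v))) := by
      simp only [Function.uncurry_def]
      fun_prop
    exact (this.continuousOn.integrableOn_compact (isCompact_Icc.prod isCompact_Icc)).mono_set
      (Set.prod_mono Ioc_subset_Icc_self Ioc_subset_Icc_self)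

theorem G_shift (a l x : ℝ) : G a l x = 1 / a * ∫ y in (x - a)..(x + a), K l y := by
  unfold G
  congr 1
  rw [intervalIntegral.integral_comp_sub_left (fun y => K l y) x]
  congr 1
  ring

theorem G_nonneg {a l : ℝ} (ha : 0 < a) (hl : 0 < l) (x : ℝ) : 0 ≤ G a l x := by
  unfold G
  have := intervalIntegral.integral_nonneg (μ := volume) (by linarith : -a ≤ a)
    (fun v _ => K_nonneg hl (x - v))
  positivity

theorem G_even (a l x : ℝ) : G a l (-x) = G a l x := by
  rw [G_shift, G_shift]
  congr 1
  have := intervalIntegral.integral_comp_neg (f := K l) (a := x - a) (b := x + a)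
  simp only [K_even] at this
  rw [this]
  congr 1 <;> ring

theorem G_low {a l a1 x : ℝ} (_h1 : 0 < a1) (h2 : a1 < a) (hl : 0 < l) (hx : |x| ≤ a1) :
    Real.pi / a - 4 * Real.pi ^ 2 / (a * l * (a - a1)) ≤ G a l x := by
  have ha : 0 < a := by linarith
  have hd : 0 < a - a1 := by linarith
  obtain ⟨x1, x2⟩ := abs_le.mp hx
  rw [G_shift]
  have h3 := K_mass hl hd
  have hi : ∀ p q : ℝ, IntervalIntegrable (K l) volume p q := fun p q =>
    (K_cont l).intervalIntegrable p q
  have h4 : ∫ y in (-(a - a1))..(a - a1), K l y ≤ ∫ y in (x - a)..(x + a), K l y := by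
    rw [← intervalIntegral.integral_add_adjacent_intervals (hi (x - a) (-(a - a1))) (hi (-(a - a1)) (x + a)),
      ← intervalIntegral.integral_add_adjacent_intervals (hi (-(a - a1)) (a - a1)) (hi (a - a1) (x + a))]
    have e1 := intervalIntegral.integral_nonneg (μ := volume) (by linarith : x - a ≤ -(a - a1))
      (fun v _ => K_nonneg hl v)
    have e2 := intervalIntegral.integral_nonneg (μ := volume) (by linarith : a - a1 ≤ x + a)
      (fun v _ => K_nonneg hl v)
    linarith
  have h5 : 1 / a * (Real.pi - 4 * Real.pi ^ 2 / (l * (a - a1))) ≤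
      1 / a * ∫ y in (x - a)..(x + a), K l y :=
    mul_le_mul_of_nonneg_left (h3.trans h4) (by positivity)
  refine le_trans (le_of_eq ?_) h5
  field_simp

theorem G_le_all {a l : ℝ} (ha : 0 < a) (hl : 0 < l) (x : ℝ) : G a l x ≤ Real.pi / a := by
  rw [G_shift]
  have hi : ∀ p q : ℝ, IntervalIntegrable (K l) volume p q := fun p q =>
    (K_cont l).intervalIntegrable p q
  set R : ℝ := |x| + a with hR
  have hR0 : 0 < R := by positivity
  have x1 := neg_abs_le x
  have x2 := le_abs_self x
  have h3 := K_mass_le hl hR0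
  have h4 : ∫ y in (x - a)..(x + a), K l y ≤ ∫ y in (-R)..R, K l y := by
    rw [← intervalIntegral.integral_add_adjacent_intervals (hi (-R) (x - a)) (hi (x - a) R),
      ← intervalIntegral.integral_add_adjacent_intervals (hi (x - a) (x + a)) (hi (x + a) R)]
    have e1 := intervalIntegral.integral_nonneg (μ := volume) (by linarith : -R ≤ x - a)
      (fun v _ => K_nonneg hl v)
    have e2 := intervalIntegral.integral_nonneg (μ := volume) (by linarith : x + a ≤ R)
      (fun v _ => K_nonneg hl v)
    linarith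
  rw [div_eq_mul_one_div Real.pi a, mul_comm Real.pi]
  exact mul_le_mul_of_nonneg_left (h4.trans h3) (by positivity)

theorem G_far {a l x : ℝ} (ha : 0 < a) (hl : 0 < l) (hx : a < |x|) :
    G a l x ≤ 4 / (l * (x ^ 2 - a ^ 2)) := by
  wlog h0 : 0 ≤ x generalizing x with H
  · have h1 := H (x := -x) (by rwa [abs_neg]) (by linarith)
    rwa [G_even, neg_sq] at h1
  rw [abs_of_nonneg h0] at hx
  rw [G_shift]
  have hi : ∀ p q : ℝ, IntervalIntegrable (K l) volume p q := fun p q =>
    (K_cont l).intervalIntegrable p q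
  have hne : ∀ y ∈ uIcc (x - a) (x + a), y ≠ 0 := by
    intro y hy
    rw [uIcc_of_le (by linarith)] at hy
    have := hy.1
    intro h
    linarith
  have hd : ∀ y ∈ uIcc (x - a) (x + a), HasDerivAt (fun y => -(2 / l * y⁻¹)) (2 / l * (1 / y ^ 2)) y := by
    intro y hy
    have h1 := ((hasDerivAt_inv (hne y hy)).const_mul (2 / l)).neg
    refine h1.congr_deriv ?_
    ring
  have hii : IntervalIntegrable (fun y => 2 / l * (1 / y ^ 2)) volume (x - a) (x + a) := by
    apply ContinuousOn.intervalIntegrable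
    intro y hy
    have := hne y hy
    have h2 : y ^ 2 ≠ 0 := by positivity
    exact (ContinuousAt.mul continuousAt_const (ContinuousAt.div continuousAt_const
      (continuousAt_id.pow 2) h2)).continuousWithinAt
  have h3 : ∫ y in (x - a)..(x + a), K l y ≤ ∫ y in (x - a)..(x + a), 2 / l * (1 / y ^ 2) := by
    apply intervalIntegral.integral_mono_on (by linarith) (hi _ _) hii
    intro y hy
    exact K_le hl (hne y (by rwa [uIcc_of_le (by linarith)]))
  rw [intervalIntegral.integral_eq_sub_of_hasDerivAt hd hii] at h3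
  have h4 : 1 / a * ∫ y in (x - a)..(x + a), K l y ≤
      1 / a * (-(2 / l * (x + a)⁻¹) - -(2 / l * (x - a)⁻¹)) :=
    mul_le_mul_of_nonneg_left h3 (by positivity)
  refine h4.trans (le_of_eq ?_)
  have e1 : x + a ≠ 0 := by linarith
  have e2 : x - a ≠ 0 := by linarith
  have e3 : x ^ 2 - a ^ 2 ≠ 0 := by
    have : x ^ 2 - a ^ 2 = (x + a) * (x - a) := by ring
    rw [this]; positivity
  have e4 : x ^ 2 - a ^ 2 = (x + a) * (x - a) := by ring
  rw [e4]
  field_simp
  ring

end Pool.Agent.TH800.LD
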