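import Pool.Agent.TH800.LD.Ker

/-! The Gaussian mean of the weight (owner helper800). -/

set_option autoImplicit false

open Filter Topology Set MeasureTheory

namespace Pool.Agent.TH800.LD

theorem sinc_near (x : ℝ) : |1 - Real.sinc x| ≤ 2 * x ^ 2 := by
  wlog h0 : 0 ≤ x generalizing x with H
  · have h1 := H (-x) (by linarith)
    rwa [Real.sinc_neg, neg_sq] at h1
  rcases le_or_gt x 1 with h1 | h1
  · rcases h0.eq_or_lt with h2 | h2
    · rw [← h2]; simp
    · rw [Real.sinc_of_ne_zero h2.ne']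
      have h3 := Real.sin_gt_sub_cube h2
      have h4 := Real.sin_lt h2
      have h5 : Real.sin x / x ≤ 1 := by rw [div_le_one h2]; exact h4.le
      have h6 : 1 - x ^ 2 / 4 ≤ Real.sin x / x := by
        rw [le_div_iff₀ h2]
        nlinarith
      rw [abs_of_nonneg (by linarith)]
      nlinarith [sq_nonneg x]
  · have h2 := Real.abs_sinc_le_one x
    rw [abs_le] at h2
    rw [abs_le]
    constructor <;> nlinarith

theorem w_near {a l u : ℝ} (hl : 0 < l) (hu : 0 ≤ u) :
    |w a l u - 2| ≤ 2 * (u / l) + 4 * a ^ 2 * u ^ 2 := by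
  unfold w
  rw [abs_of_nonneg hu]
  set p := max 0 (1 - u / l) with hp
  have hul : 0 ≤ u / l := by positivity
  have p0 : 0 ≤ p := le_max_left _ _
  have p1 : p ≤ 1 := max_le (by norm_num) (by linarith)
  have p2 : 1 - p ≤ u / l := by
    have : 1 - u / l ≤ p := le_max_right _ _
    linarith
  have q := sinc_near (a * u)
  have e : 2 * p * Real.sinc (a * u) - 2 = -(2 * (1 - p)) - 2 * p * (1 - Real.sinc (a * u)) := by ring
  rw [e]
  have h1 : |-(2 * (1 - p))| ≤ 2 * (u / l) := by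
    rw [abs_neg, abs_of_nonneg (by linarith)]
    linarith
  have h2 : |2 * p * (1 - Real.sinc (a * u))| ≤ 4 * a ^ 2 * u ^ 2 := by
    rw [abs_mul, abs_of_nonneg (by linarith)]
    have h3 : 2 * p * |1 - Real.sinc (a * u)| ≤ 2 * 1 * (2 * (a * u) ^ 2) := by
      apply mul_le_mul (by linarith) q (abs_nonneg _) (by norm_num)
    calc 2 * p * |1 - Real.sinc (a * u)| ≤ _ := h3
      _ = 4 * a ^ 2 * u ^ 2 := by ring
  calc |-(2 * (1 - p)) - 2 * p * (1 - Real.sinc (a * u))|
      ≤ |-(2 * (1 - p))| + |2 * p * (1 - Real.sinc (a * u))| := abs_sub _ _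
    _ ≤ _ := by linarith

theorem int_u {L : ℝ} : ∫ u in (0 : ℝ)..L, u * Real.exp (-u ^ 2 / 2) = 1 - Real.exp (-L ^ 2 / 2) := by
  have hd : ∀ u ∈ uIcc 0 L, HasDerivAt (fun u : ℝ => -Real.exp (-u ^ 2 / 2))
      (u * Real.exp (-u ^ 2 / 2)) u := by
    intro u _
    have h1 : HasDerivAt (fun u : ℝ => -u ^ 2 / 2) (-u) u := by
      have := ((hasDerivAt_pow 2 u).neg).div_const 2
      refine this.congr_deriv ?_
      norm_num
      ring
    refine h1.exp.neg.congr_deriv ?_
    ring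
  rw [intervalIntegral.integral_eq_sub_of_hasDerivAt hd
    (by apply Continuous.intervalIntegrable; fun_prop)]
  simp
  ring

theorem int_u2 {L : ℝ} : ∫ u in (0 : ℝ)..L, u ^ 2 * Real.exp (-u ^ 2 / 2) =
    -(L * Real.exp (-L ^ 2 / 2)) + ∫ u in (0 : ℝ)..L, Real.exp (-u ^ 2 / 2) := by
  have hd : ∀ u ∈ uIcc 0 L, HasDerivAt (fun u : ℝ => -(u * Real.exp (-u ^ 2 / 2)))
      (u ^ 2 * Real.exp (-u ^ 2 / 2) - Real.exp (-u ^ 2 / 2)) u := by
    intro u _
    have h1 : HasDerivAt (fun u : ℝ => -u ^ 2 / 2) (-u) u := by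
      have := ((hasDerivAt_pow 2 u).neg).div_const 2
      refine this.congr_deriv ?_
      norm_num
      ring
    refine ((hasDerivAt_id u).mul h1.exp).neg.congr_deriv ?_
    simp
    ring
  have h := intervalIntegral.integral_eq_sub_of_hasDerivAt hd
    (by apply Continuous.intervalIntegrable; fun_prop)
  rw [intervalIntegral.integral_sub (by apply Continuous.intervalIntegrable; fun_prop)
    (by apply Continuous.intervalIntegrable; fun_prop)] at h
  simp only [zero_mul, neg_zero, sub_zero] at h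
  linarith

theorem gauss_fact : IntegrableOn (fun u : ℝ => Real.exp (-u ^ 2 / 2)) (Ioi 0) ∧
    ∫ u in Ioi (0 : ℝ), Real.exp (-u ^ 2 / 2) = Real.sqrt (2 * Real.pi) / 2 := by
  have h1 := integrable_exp_neg_mul_sq (show (0 : ℝ) < 1 / 2 by norm_num)
  have h2 := integral_gaussian_Ioi (1 / 2)
  have e : ∀ u : ℝ, Real.exp (-(1 / 2) * u ^ 2) = Real.exp (-u ^ 2 / 2) := by
    intro u; congr 1; ring
  simp_rw [e] at h1 h2
  refine ⟨h1.integrableOn, ?_⟩
  rw [h2]
  congr 2
  ring

theorem gauss_head {L : ℝ} (hL : 0 < L) : 0 ≤ ∫ u in (0 : ℝ)..L, Real.exp (-u ^ 2 / 2) ∧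
    ∫ u in (0 : ℝ)..L, Real.exp (-u ^ 2 / 2) ≤ Real.sqrt (2 * Real.pi) / 2 ∧
    Real.sqrt (2 * Real.pi) / 2 - 1 / L ≤ ∫ u in (0 : ℝ)..L, Real.exp (-u ^ 2 / 2) := by
  obtain ⟨hi, hv⟩ := gauss_fact
  have h1 : ∫ u in Ioi (0 : ℝ), Real.exp (-u ^ 2 / 2) = (∫ u in (0 : ℝ)..L, Real.exp (-u ^ 2 / 2)) +
      ∫ u in Ioi L, Real.exp (-u ^ 2 / 2) := by
    rw [intervalIntegral.integral_of_le hL.le, ← Ioc_union_Ioi_eq_Ioi hL.le]
    exact setIntegral_union (Ioc_disjoint_Ioi le_rfl) measurableSet_Ioi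
      (hi.mono_set Ioc_subset_Ioi_self) (hi.mono_set (Ioi_subset_Ioi hL.le))
  have h2 : 0 ≤ ∫ u in Ioi L, Real.exp (-u ^ 2 / 2) :=
    setIntegral_nonneg measurableSet_Ioi fun u _ => (Real.exp_pos _).le
  have h3 : ∫ u in Ioi L, Real.exp (-u ^ 2 / 2) ≤ 1 / L := by
    have hd : ∀ u ∈ Ici L, HasDerivAt (fun u : ℝ => -(1 / L * Real.exp (-u ^ 2 / 2)))
        (u / L * Real.exp (-u ^ 2 / 2)) u := by
      intro u _
      have h1 : HasDerivAt (fun u : ℝ => -u ^ 2 / 2) (-u) u := by
        have := ((hasDerivAt_pow 2 u).neg).div_const 2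
        refine this.congr_deriv ?_
        norm_num
        ring
      refine (h1.exp.const_mul (1 / L)).neg.congr_deriv ?_
      ring
    have hlim : Tendsto (fun u : ℝ => -(1 / L * Real.exp (-u ^ 2 / 2))) atTop (𝓝 0) := by
      have h1 : Tendsto (fun u : ℝ => -u ^ 2 / 2) atTop atBot := by
        have : Tendsto (fun u : ℝ => u ^ 2 / 2) atTop atTop :=
          (tendsto_pow_atTop (by norm_num)).atTop_div_const (by norm_num)
        have := tendsto_neg_atTop_atBot.comp this
        refine this.congr fun u => ?_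
        simp only [Function.comp]
        ring
      have h2 := (Real.tendsto_exp_atBot.comp h1).const_mul (-(1 / L))
      simp only [mul_zero] at h2
      refine h2.congr fun u => ?_
      simp only [Function.comp]
      ring
    have hpos : ∀ u ∈ Ioi L, 0 ≤ u / L * Real.exp (-u ^ 2 / 2) := by
      intro u hu
      have : 0 < u := hL.trans hu
      positivity
    have hint := integrableOn_Ioi_deriv_of_nonneg' hd hpos hlim
    have hval := integral_Ioi_of_hasDerivAt_of_nonneg' hd hpos hlim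
    have h4 : ∫ u in Ioi L, Real.exp (-u ^ 2 / 2) ≤ ∫ u in Ioi L, u / L * Real.exp (-u ^ 2 / 2) := by
      apply setIntegral_mono_on (hi.mono_set (Ioi_subset_Ioi hL.le)) hint measurableSet_Ioi
      intro u hu
      have h5 : 1 ≤ u / L := by
        rw [le_div_iff₀ hL]
        have : L < u := hu
        linarith
      have := (Real.exp_pos (-u ^ 2 / 2)).le
      nlinarith
    rw [hval] at h4
    have h5 : Real.exp (-L ^ 2 / 2) ≤ 1 := by
      apply Real.exp_le_one_iff.mpr
      have := sq_nonneg L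
      linarith
    calc ∫ u in Ioi L, Real.exp (-u ^ 2 / 2) ≤ 0 - -(1 / L * Real.exp (-L ^ 2 / 2)) := h4
      _ = 1 / L * Real.exp (-L ^ 2 / 2) := by ring
      _ ≤ 1 / L * 1 := mul_le_mul_of_nonneg_left h5 (by positivity)
      _ = 1 / L := mul_one _
  refine ⟨intervalIntegral.integral_nonneg hL.le fun u _ => (Real.exp_pos _).le, ?_, ?_⟩ <;> linarith

theorem main_int {a l L : ℝ} (hl : 0 < l) (hL : 0 < L) :
    |(∫ u in (0 : ℝ)..L, w a l u * Real.exp (-u ^ 2 / 2)) - Real.sqrt (2 * Real.pi)| ≤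
      2 / l + 8 * a ^ 2 + 2 / L := by
  obtain ⟨g0, g1, g2⟩ := gauss_head hL
  have hwc := w_cont a hl
  have hi1 : IntervalIntegrable (fun u => w a l u * Real.exp (-u ^ 2 / 2)) volume 0 L := by
    apply Continuous.intervalIntegrable; fun_prop
  have hi2 : IntervalIntegrable (fun u : ℝ => 2 * Real.exp (-u ^ 2 / 2)) volume 0 L := by
    apply Continuous.intervalIntegrable; fun_prop
  have h1 : |(∫ u in (0 : ℝ)..L, w a l u * Real.exp (-u ^ 2 / 2)) -
      ∫ u in (0 : ℝ)..L, 2 * Real.exp (-u ^ 2 / 2)| ≤ 2 / l + 8 * a ^ 2 := by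
    rw [← intervalIntegral.integral_sub hi1 hi2]
    have h2 : |∫ u in (0 : ℝ)..L, (w a l u * Real.exp (-u ^ 2 / 2) - 2 * Real.exp (-u ^ 2 / 2))| ≤
        ∫ u in (0 : ℝ)..L, (2 / l * (u * Real.exp (-u ^ 2 / 2)) +
          4 * a ^ 2 * (u ^ 2 * Real.exp (-u ^ 2 / 2))) := by
      rw [← Real.norm_eq_abs]
      apply intervalIntegral.norm_integral_le_of_norm_le hL.le
      · refine Filter.Eventually.of_forall fun u hu => ?_
        rw [Real.norm_eq_abs, ← sub_mul, abs_mul, abs_of_pos (Real.exp_pos _)]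
        have h3 := w_near (a := a) hl hu.1.le
        have h4 := (Real.exp_pos (-u ^ 2 / 2)).le
        calc |w a l u - 2| * Real.exp (-u ^ 2 / 2)
            ≤ (2 * (u / l) + 4 * a ^ 2 * u ^ 2) * Real.exp (-u ^ 2 / 2) :=
              mul_le_mul_of_nonneg_right h3 h4
          _ = _ := by ring
      · apply Continuous.intervalIntegrable; fun_prop
    refine h2.trans ?_
    rw [intervalIntegral.integral_add (by apply Continuous.intervalIntegrable; fun_prop)
      (by apply Continuous.intervalIntegrable; fun_prop), intervalIntegral.integral_const_mul,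
      intervalIntegral.integral_const_mul, int_u, int_u2]
    have e1 := (Real.exp_pos (-L ^ 2 / 2)).le
    have e2 : 2 / l * (1 - Real.exp (-L ^ 2 / 2)) ≤ 2 / l := by
      have : 0 < 2 / l := by positivity
      nlinarith
    have e3 : -(L * Real.exp (-L ^ 2 / 2)) + ∫ u in (0 : ℝ)..L, Real.exp (-u ^ 2 / 2) ≤ 2 := by
      have e4 : Real.sqrt (2 * Real.pi) ≤ 4 := by
        rw [Real.sqrt_le_left (by norm_num)]
        linarith [Real.pi_le_four]
      have e5 : 0 ≤ L * Real.exp (-L ^ 2 / 2) := by positivity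
      linarith
    have e4 : 4 * a ^ 2 * (-(L * Real.exp (-L ^ 2 / 2)) + ∫ u in (0 : ℝ)..L, Real.exp (-u ^ 2 / 2)) ≤
        4 * a ^ 2 * 2 := mul_le_mul_of_nonneg_left e3 (by positivity)
    linarith
  rw [intervalIntegral.integral_const_mul] at h1
  rw [abs_le] at h1 ⊢
  have e6 : 2 / L = 2 * (1 / L) := by ring
  have e7 : 0 < 1 / L := by positivity
  constructor <;> linarith

end Pool.Agent.TH800.LD
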