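import Pool.Agent.TH800.LD.Dev
import Pool.Agent.H382L.GapTail0

/-! Moments of the prime sums, counting lemmas (owner helper800). -/

set_option autoImplicit false

open Complex Filter Topology Set MeasureTheory

namespace Pool.Agent.TH800.LD

open SP (zs ps QW ell W1 RHs ZZ mu Q1 wt)
open SG (dd ord NZ zmult ZS)

/-- moments for the Lebesgue measure, general weight -/
theorem leb_QW (κ : ℝ) (hκ : 0 < κ) (hκ1 : κ < 1 / 2) :
    ∃ C T0 : ℝ, 0 < C ∧ 10 ≤ T0 ∧ ∀ T : ℝ, T0 ≤ T → ∀ k : ℕ, 1 ≤ k → ∀ W : ℝ → ℂ, Continuous W →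
    (∀ u, ‖W u‖ ≤ 2) → ∀ V1 V2 : ℝ, T ≤ V1 → V1 ≤ V2 → V2 ≤ 2 * T →
    ∫ t in V1..V2, ‖QW T t (ell κ T k) W‖ ^ (2 * k) ≤ 6 * T * (C / k) ^ k := by
  obtain ⟨C, T0, hC, h10, h⟩ := LG.mom_QW κ hκ hκ1
  refine ⟨C, T0, hC, h10, fun T hT k hk W hW hW2 V1 V2 hV1 hV hV2 => ?_⟩
  have hT10 : 10 ≤ T := h10.trans hT
  have hTpos : 0 < T := by linarith
  set D := dd κ T with hDdef
  have hD : 0 < D := SP.Mom2.dd_pos κ T hTpos
  have hDT : D ≤ T := by
    calc dd κ T ≤ T ^ (1 : ℝ) := Real.rpow_le_rpow_of_exponent_le (by linarith) (by linarith)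
      _ = T := Real.rpow_one T
  set J := ⌈T / D⌉₊ with hJ
  set F : ℝ → ℝ := fun t => ‖QW T t (ell κ T k) W‖ ^ (2 * k) with hF
  have hFc : Continuous F := (LG.GapAux.QW_cont T (ell κ T k) W).norm.pow _
  have hF0 : ∀ t, 0 ≤ F t := fun t => by positivity
  have hwc : ∀ t0, Continuous (fun t => wt t0 D t) := fun t0 => SP.Mom2.wt_continuous t0 D
  have hw0 : ∀ t0 t, 0 ≤ wt t0 D t := fun t0 t => SP.Mom2.wt_nonneg t0 D t
  -- pointwise
  have hpt : ∀ t ∈ Set.Icc V1 V2, F t ≤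
      ∑ j ∈ Finset.range (J + 1), 2 * (wt (T + j * D) D t * F t) := by
    intro t ht
    set j := ⌊(t - T) / D⌋₊ with hj
    have hx0 : 0 ≤ (t - T) / D := div_nonneg (by linarith [ht.1]) hD.le
    have hj1 : (j : ℝ) ≤ (t - T) / D := Nat.floor_le hx0
    have hj2 : (t - T) / D < j + 1 := Nat.lt_floor_add_one _
    rw [le_div_iff₀ hD] at hj1
    rw [div_lt_iff₀ hD] at hj2
    have hjJ : j ∈ Finset.range (J + 1) := by
      rw [Finset.mem_range, Nat.lt_succ_iff]
      have h1 : (t - T) / D ≤ T / D := by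
        apply div_le_div_of_nonneg_right _ hD.le
        linarith [ht.2]
      have h2 : (j : ℝ) ≤ J := (Nat.floor_le hx0).trans (h1.trans (Nat.le_ceil _))
      exact_mod_cast h2
    have hw : 1 / 2 ≤ wt (T + j * D) D t := by
      unfold wt
      have h1 : (t - (T + j * D)) ^ 2 ≤ D ^ 2 := by
        apply pow_le_pow_left₀ <;> linarith
      have h2 : -(1 / 2 : ℝ) ≤ -(t - (T + j * D)) ^ 2 / (2 * D ^ 2) := by
        rw [le_div_iff₀ (by positivity)]
        linarith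
      have h3 := Real.exp_le_exp.mpr h2
      have h4 : 1 - 1 / 2 ≤ Real.exp (-(1 / 2)) := by
        have := Real.add_one_le_exp (-(1 / 2 : ℝ))
        linarith
      linarith
    have h1 : F t ≤ 2 * (wt (T + j * D) D t * F t) := by
      have := mul_le_mul_of_nonneg_right hw (hF0 t)
      linarith
    exact h1.trans (Finset.single_le_sum (f := fun j : ℕ => 2 * (wt (T + j * D) D t * F t))
      (fun i _ => mul_nonneg (by norm_num) (mul_nonneg (hw0 _ _) (hF0 t))) hjJ)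
  have hci : ∀ j : ℕ, Continuous (fun t => 2 * (wt (T + j * D) D t * F t)) := fun j =>
    continuous_const.mul ((hwc _).mul hFc)
  have h1 : ∫ t in V1..V2, F t ≤ ∫ t in V1..V2,
      ∑ j ∈ Finset.range (J + 1), 2 * (wt (T + j * D) D t * F t) := by
    apply intervalIntegral.integral_mono_on hV (hFc.intervalIntegrable _ _)
    · exact (continuous_finsetSum _ fun j _ => hci j).intervalIntegrable _ _
    · exact hpt
  have h2 : ∀ j : ℕ, ∫ t in V1..V2, 2 * (wt (T + j * D) D t * F t) ≤ 2 * (D * (C / k) ^ k) := by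
    intro j
    obtain ⟨hi, hm⟩ := h T hT (T + j * D) k W hk hW hW2
    rw [intervalIntegral.integral_const_mul, intervalIntegral.integral_of_le hV]
    apply mul_le_mul_of_nonneg_left _ (by norm_num)
    refine le_trans ?_ hm
    exact setIntegral_le_integral hi
      (Filter.Eventually.of_forall fun t => mul_nonneg (hw0 _ _) (hF0 t))
  rw [intervalIntegral.integral_finsetSum
    (fun j _ => (hci j).intervalIntegrable _ _)] at h1
  have h3 : ∑ j ∈ Finset.range (J + 1), ∫ t in V1..V2, 2 * (wt (T + j * D) D t * F t) ≤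
      ∑ j ∈ Finset.range (J + 1), 2 * (D * (C / k) ^ k) := Finset.sum_le_sum fun j _ => h2 j
  rw [Finset.sum_const, Finset.card_range, nsmul_eq_mul] at h3
  have hJ1 : (J : ℝ) ≤ T / D + 1 := (Nat.ceil_lt_add_one (by positivity)).le
  have hJD : ((J + 1 : ℕ) : ℝ) * D ≤ 3 * T := by
    push_cast
    have : (J : ℝ) * D ≤ (T / D + 1) * D := mul_le_mul_of_nonneg_right hJ1 hD.le
    have e : (T / D + 1) * D = T + D := by field_simp
    rw [e] at this
    linarith
  have hCk : 0 ≤ (C / k) ^ k := by positivity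
  calc ∫ t in V1..V2, F t ≤ _ := h1
    _ ≤ ((J + 1 : ℕ) : ℝ) * (2 * (D * (C / k) ^ k)) := h3
    _ = 2 * (((J + 1 : ℕ) : ℝ) * D) * (C / k) ^ k := by ring
    _ ≤ 2 * (3 * T) * (C / k) ^ k := by
        apply mul_le_mul_of_nonneg_right _ hCk
        linarith
    _ = 6 * T * (C / k) ^ k := by ring

theorem PP_cont (e ρ T y : ℝ) : Continuous (fun t => PP e ρ T y t) := by
  unfold PP
  have h := fun l W => LG.GapAux.QW_cont T l W
  exact ((continuous_const.mul (h _ _).norm).add (h _ _).norm).add (h _ _).norm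

/-- moments of the three prime sums -/
theorem PP_mom : ∃ C T0 : ℝ, 0 < C ∧ 10 ≤ T0 ∧ ∀ T : ℝ, T0 ≤ T → ∀ e ρ y : ℝ, 0 < y →
    1 ≤ ⌊ρ * y⌋₊ → ∀ V1 V2 : ℝ, T ≤ V1 → V1 ≤ V2 → V2 ≤ 2 * T →
    ∫ t in V1..V2, PP e ρ T y t ^ (2 * ⌊ρ * y⌋₊) ≤ 18 * T * (C / (⌊ρ * y⌋₊ : ℝ)) ^ ⌊ρ * y⌋₊ := by
  obtain ⟨C, T0, hC, h10, h⟩ := leb_QW (1 / 4) (by norm_num) (by norm_num)
  refine ⟨16 * C, T0, by positivity, h10, fun T hT e ρ y hy hk V1 V2 hV1 hV hV2 => ?_⟩
  set k := ⌊ρ * y⌋₊ with hkd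
  have hT10 : 10 ≤ T := h10.trans hT
  have hL : 0 < Real.log T := Real.log_pos (by linarith)
  have hl0 : 0 < ell (1 / 4) T k := SP.MkB.ell_pos (by norm_num) hT10 hk
  have hb : 0 < Real.log T / (Real.pi * y) := by positivity
  set l := ell (1 / 4) T k with hl
  set A1 : ℝ → ℝ := fun t => ‖QW T t l (Wc ((1 + e) * (Real.pi * y / Real.log T)) l)‖ with hA1
  set A2 : ℝ → ℝ := fun t => ‖QW T t l (Wc ((1 - e) * (Real.pi * y / Real.log T)) l)‖ with hA2
  set A3 : ℝ → ℝ := fun t => ‖QW T t l (W1 (Real.log T / (Real.pi * y)))‖ with hA3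
  have c1 : Continuous A1 := (LG.GapAux.QW_cont T l _).norm
  have c2 : Continuous A2 := (LG.GapAux.QW_cont T l _).norm
  have c3 : Continuous A3 := (LG.GapAux.QW_cont T l _).norm
  have m1 := h T hT k hk _ (Wc_cont ((1 + e) * (Real.pi * y / Real.log T)) hl0)
    (fun u => Wc_norm _ hl0 u) V1 V2 hV1 hV hV2
  have m2 := h T hT k hk _ (Wc_cont ((1 - e) * (Real.pi * y / Real.log T)) hl0)
    (fun u => Wc_norm _ hl0 u) V1 V2 hV1 hV hV2
  have m3 := h T hT k hk _ (SP.MkB.W1_cont (Real.log T / (Real.pi * y)))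
    (fun u => (SP.MkB.W1_norm hb u).trans (by norm_num)) V1 V2 hV1 hV hV2
  have hpt : ∀ t ∈ Set.Icc V1 V2, PP e ρ T y t ^ (2 * k) ≤
      16 ^ k * (A1 t ^ (2 * k) + A2 t ^ (2 * k) + A3 t ^ (2 * k)) := by
    intro t _
    have p1 : 0 ≤ A1 t := norm_nonneg _
    have p2 : 0 ≤ A2 t := norm_nonneg _
    have p3 : 0 ≤ A3 t := norm_nonneg _
    set M := max (A1 t) (max (A2 t) (A3 t)) with hM
    have q1 : A1 t ≤ M := le_max_left _ _
    have q2 : A2 t ≤ M := (le_max_left _ _).trans (le_max_right _ _)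
    have q3 : A3 t ≤ M := (le_max_right _ _).trans (le_max_right _ _)
    have hP : PP e ρ T y t = 2 * A1 t + A2 t + A3 t := rfl
    have hP1 : PP e ρ T y t ≤ 4 * M := by rw [hP]; linarith
    have h4 : PP e ρ T y t ^ (2 * k) ≤ (4 * M) ^ (2 * k) :=
      pow_le_pow_left₀ (PP_nonneg _ _ _ _ _) hP1 _
    have h5 : (4 * M) ^ (2 * k) = 16 ^ k * M ^ (2 * k) := by
      rw [mul_pow, pow_mul]; norm_num
    have h6 : M ^ (2 * k) ≤ A1 t ^ (2 * k) + A2 t ^ (2 * k) + A3 t ^ (2 * k) := by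
      have r1 : 0 ≤ A1 t ^ (2 * k) := by positivity
      have r2 : 0 ≤ A2 t ^ (2 * k) := by positivity
      have r3 : 0 ≤ A3 t ^ (2 * k) := by positivity
      rcases max_choice (A1 t) (max (A2 t) (A3 t)) with hh | hh
      · rw [hM, hh]; linarith
      · rcases max_choice (A2 t) (A3 t) with hh' | hh'
        · rw [hM, hh, hh']; linarith
        · rw [hM, hh, hh']; linarith
    rw [h5] at h4
    exact h4.trans (mul_le_mul_of_nonneg_left h6 (by positivity))
  have hi1 : IntervalIntegrable (fun t => A1 t ^ (2 * k)) volume V1 V2 :=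
    (c1.pow _).intervalIntegrable _ _
  have hi2 : IntervalIntegrable (fun t => A2 t ^ (2 * k)) volume V1 V2 :=
    (c2.pow _).intervalIntegrable _ _
  have hi3 : IntervalIntegrable (fun t => A3 t ^ (2 * k)) volume V1 V2 :=
    (c3.pow _).intervalIntegrable _ _
  have h1 := intervalIntegral.integral_mono_on hV
    (((PP_cont e ρ T y).pow (2 * k)).intervalIntegrable V1 V2)
    (((hi1.add hi2).add hi3).const_mul (16 ^ k)) hpt
  refine h1.trans ?_
  rw [intervalIntegral.integral_const_mul, intervalIntegral.integral_add (hi1.add hi2) hi3,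
    intervalIntegral.integral_add hi1 hi2]
  have h2 : (16 * C / k) ^ k = 16 ^ k * (C / k) ^ k := by rw [← mul_pow]; congr 1; ring
  rw [h2]
  calc 16 ^ k * ((∫ t in V1..V2, A1 t ^ (2 * k)) + (∫ t in V1..V2, A2 t ^ (2 * k)) +
        ∫ t in V1..V2, A3 t ^ (2 * k))
      ≤ 16 ^ k * (6 * T * (C / k) ^ k + 6 * T * (C / k) ^ k + 6 * T * (C / k) ^ k) := by
        apply mul_le_mul_of_nonneg_left _ (by positivity)
        exact add_le_add (add_le_add m1 m2) m3
    _ = _ := by ring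

/-- counting indices by covering -/
theorem count_gen (B : Finset ℕ) (lo hi : ℕ → ℝ) (V1 V2 h : ℝ) (f : ℝ → ℝ) (hV : V1 ≤ V2)
    (hf : Continuous f) (hh : 0 ≤ h) (hB : ∀ n ∈ B, V1 ≤ lo n ∧ hi n ≤ V2 ∧ h ≤ hi n - lo n)
    (hp : ∀ t : ℝ, V1 ≤ t → t ≤ V2 →
      ((B.filter (fun n => lo n ≤ t ∧ t ≤ hi n)).card : ℝ) ≤ f t) :
    (B.card : ℝ) * h ≤ ∫ t in V1..V2, f t := by
  classical
  have hii : ∀ n ∈ B, IntervalIntegrable ((Set.Icc (lo n) (hi n)).indicator
      (fun _ => (1 : ℝ))) volume V1 V2 ∧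
      h ≤ ∫ t in V1..V2, (Set.Icc (lo n) (hi n)).indicator (fun _ => (1 : ℝ)) t := by
    intro n hn
    obtain ⟨h1, h2, h3⟩ := hB n hn
    obtain ⟨h4, h5⟩ := LG.CTAux.ind_int (lo n) (hi n) V1 V2 (by linarith) h1 h2
    exact ⟨h4, h3.trans h5⟩
  have h1 : (B.card : ℝ) * h ≤ ∫ t in V1..V2,
      ∑ n ∈ B, (Set.Icc (lo n) (hi n)).indicator (fun _ => (1 : ℝ)) t := by
    rw [intervalIntegral.integral_finsetSum (fun n hn => (hii n hn).1)]
    calc (B.card : ℝ) * h = ∑ n ∈ B, h := by rw [Finset.sum_const, nsmul_eq_mul]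
      _ ≤ _ := Finset.sum_le_sum fun n hn => (hii n hn).2
  refine h1.trans ?_
  apply intervalIntegral.integral_mono_on hV
  · have h3 := IntervalIntegrable.sum B (fun n hn => (hii n hn).1)
    have h4 : (∑ n ∈ B, (Set.Icc (lo n) (hi n)).indicator
        (fun _ => (1 : ℝ))) = fun t => ∑ n ∈ B,
        (Set.Icc (lo n) (hi n)).indicator (fun _ => (1 : ℝ)) t := by
      funext t
      rw [Finset.sum_apply]
    rw [← h4]
    exact h3
  · exact hf.intervalIntegrable _ _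
  · intro t ht
    refine le_trans (le_of_eq ?_) (hp t ht.1 ht.2)
    rw [Finset.card_filter]
    push_cast
    apply Finset.sum_congr rfl
    intro n _
    by_cases hn : lo n ≤ t ∧ t ≤ hi n
    · rw [if_pos hn]
      exact Set.indicator_of_mem (show t ∈ Set.Icc (lo n) (hi n) from hn) _
    · rw [if_neg hn]
      exact Set.indicator_of_notMem (show t ∉ Set.Icc (lo n) (hi n) from hn) _

/-- many zeros in a window which contains the ordinates `n, …, n + m` -/
theorem cnt_ge {T : ℝ} (hT : 1 ≤ T) {n m : ℕ} (hn : 1 ≤ n) (h1 : T < ord n) (h2 : ord (n + m) ≤ 2 * T)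
    {t r : ℝ} (h3 : t - r ≤ ord n) (h4 : ord (n + m) ≤ t + r) : (m : ℝ) + 1 ≤ cnt hT t r := by
  classical
  have h5 := LG.CTAux.zeros_between hT hn (by omega : n ≤ n + m) h1 h2
  push_cast at h5
  have h6 : (m : ℝ) + 1 ≤ ∑ s ∈ (SP.Mom2.ZZ_finite T hT).toFinset.filter
      (fun s => ord n ≤ s.im ∧ s.im ≤ ord (n + m)), (mu s : ℝ) := by linarith
  refine h6.trans ?_
  unfold cnt
  apply Finset.sum_le_sum_of_subset_of_nonneg
  · intro s hs
    rw [Finset.mem_filter] at hs ⊢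
    refine ⟨?_, ?_⟩
    · rw [Set.Finite.mem_toFinset] at hs ⊢
      exact hs.1
    · rw [abs_le]
      constructor <;> linarith [hs.2.1, hs.2.2]
  · intro s _ _
    exact Nat.cast_nonneg _

/-- few zeros in a window strictly between the ordinates `n` and `n + m` -/
theorem cnt_le {T : ℝ} (hT : 1 ≤ T) {n m : ℕ} (hn : 1 ≤ n) (hm : 1 ≤ m)
    {t r : ℝ} (h3 : ord n < t - r) (h4 : t + r < ord (n + m)) (hr : 0 ≤ r) :
    cnt hT t r ≤ (m : ℝ) - 1 := by
  classical
  have h5 : ¬ n + m ≤ NZ (t + r) := by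
    intro h
    have := (SG.ord_le_iff (by omega : 1 ≤ n + m) (t + r)).mpr h
    linarith
  have h6 := SG.le_NZ_ord hn
  have hsub : ∀ s ∈ (ZZf hT).toFinset.filter (fun s => |s.im - t| ≤ r),
      s ∈ ZS (t + r) ∧ ord n < s.im := by
    intro s hs
    rw [Finset.mem_filter, Set.Finite.mem_toFinset] at hs
    obtain ⟨⟨a1, a2, a3, a4, a5⟩, a6⟩ := hs
    rw [abs_le] at a6
    exact ⟨⟨a5, a1, a2, by linarith, by linarith [a6.2]⟩, by linarith [a6.1]⟩
  have h7 := SG.NZ_add_le (ord n) (t + r) (by linarith) _ hsub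
  have h8 : ∑ s ∈ (ZZf hT).toFinset.filter (fun s => |s.im - t| ≤ r), zmult s + 1 ≤ m := by omega
  have h9 : cnt hT t r = ((∑ s ∈ (ZZf hT).toFinset.filter (fun s => |s.im - t| ≤ r), zmult s : ℕ) : ℝ) := by
    unfold cnt
    rw [Nat.cast_sum]
    rfl
  rw [h9]
  have h10 : ((∑ s ∈ (ZZf hT).toFinset.filter (fun s => |s.im - t| ≤ r), zmult s + 1 : ℕ) : ℝ) ≤ m := by
    exact_mod_cast h8
  push_cast at h10 ⊢
  linarith

/-- the number of indices with ordinate in the window -/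
theorem card_win {T : ℝ} (hT : 1 ≤ T) {t r : ℝ} (N : Finset ℕ)
    (hN : ∀ n ∈ N, 1 ≤ n ∧ T < ord n ∧ ord n ≤ 2 * T ∧ |ord n - t| ≤ r) :
    (N.card : ℝ) ≤ cnt hT t r := by
  by_cases hne : N.Nonempty
  · have ha := N.min'_mem hne
    have hb := N.max'_mem hne
    set a := N.min' hne
    set b := N.max' hne
    have hab : a ≤ b := N.min'_le b hb
    obtain ⟨a1, a2, a3, a4⟩ := hN a ha
    obtain ⟨b1, b2, b3, b4⟩ := hN b hb
    rw [abs_le] at a4 b4
    have hb' : a + (b - a) = b := by omega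
    have h := cnt_ge (m := b - a) hT (t := t) (r := r) a1 a2 (by rw [hb']; exact b3) (by linarith)
      (by rw [hb']; linarith)
    have h1 : N ⊆ Finset.Icc a b := fun n hn => by
      rw [Finset.mem_Icc]
      exact ⟨N.min'_le n hn, N.le_max' n hn⟩
    have h2 := Finset.card_le_card h1
    rw [Nat.card_Icc] at h2
    have h3 : N.card ≤ (b - a) + 1 := by omega
    have h4 : (N.card : ℝ) ≤ ((b - a : ℕ) : ℝ) + 1 := by exact_mod_cast h3
    linarith
  · rw [Finset.not_nonempty_iff_eq_empty] at hne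
    rw [hne]
    simp
    exact cnt_nonneg _ _ _

end Pool.Agent.TH800.LD
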