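import Pool.Agent.TH800.LD.Main
import Pool.Agent.H382L.EFWm
import Pool.Agent.H382L.MomQW
import Pool.Agent.H382L.ClusterTail

/-! Window counts of zeros through the explicit formula (owner helper800). -/

set_option autoImplicit false

open Complex Filter Topology Set MeasureTheory

namespace Pool.Agent.TH800.LD

open SP (zs ps QW ell W1 RHs ZZ mu Q1)

theorem ZZf {T : ℝ} (hT : 1 ≤ T) : (ZZ T).Finite := LG.NoZero.ZZ_finite hT

/-- the weight as a complex function -/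
noncomputable def Wc (a l : ℝ) (u : ℝ) : ℂ := ((w a l u : ℝ) : ℂ)

theorem Wc_cont (a : ℝ) {l : ℝ} (hl : 0 < l) : Continuous (Wc a l) :=
  Complex.continuous_ofReal.comp (w_cont a hl)

theorem Wc_norm (a : ℝ) {l : ℝ} (hl : 0 < l) (u : ℝ) : ‖Wc a l u‖ ≤ 2 := by
  unfold Wc
  rw [Complex.norm_real, Real.norm_eq_abs]
  exact w_abs a hl u

/-- real part of the zero sum for a real weight -/
theorem re_zs {T : ℝ} (hT : 1 ≤ T) (t : ℝ) (v : ℝ → ℝ) (hv : Continuous v) :
    (zs T t (fun u => (v u : ℂ))).re = ∑ s ∈ (ZZf hT).toFinset,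
      (mu s : ℝ) * Real.exp (-(s.im - t) ^ 2 / 2) *
        ∫ u in (0 : ℝ)..Real.log T, v u * Real.cos (u * (s.im - t)) := by
  rw [LG.NoZero.zs_eq hT, Complex.re_sum]
  refine Finset.sum_congr rfl fun s _ => ?_
  have e3 : (mu s : ℂ) * (Real.exp (-(s.im - t) ^ 2 / 2) : ℂ) =
      (((mu s : ℝ) * Real.exp (-(s.im - t) ^ 2 / 2) : ℝ) : ℂ) := by push_cast; rfl
  rw [e3, Complex.re_ofReal_mul]
  congr 1
  have hint : IntervalIntegrable (fun u : ℝ => (v u : ℂ) * cexp (I * ((u * (s.im - t) : ℝ) : ℂ)))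
      volume 0 (Real.log T) := by
    apply Continuous.intervalIntegrable
    refine Continuous.mul (Complex.continuous_ofReal.comp hv) ?_
    fun_prop
  have h1 := Complex.reCLM.intervalIntegral_comp_comm hint
  rw [Complex.reCLM_apply] at h1
  rw [← h1]
  apply intervalIntegral.integral_congr
  intro u _
  simp only [Complex.reCLM_apply]
  rw [Complex.re_ofReal_mul, mul_comm I, Complex.exp_ofReal_mul_I_re]

/-- the smoothed number of zeros -/
noncomputable def SS {T : ℝ} (hT : 1 ≤ T) (t a l : ℝ) : ℝ := ∑ s ∈ (ZZf hT).toFinset,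
  (mu s : ℝ) * Real.exp (-(s.im - t) ^ 2 / 2) * G a l (s.im - t)

/-- the explicit formula for the smoothed number of zeros -/
theorem formula (hRH : RHs) : ∃ C T0 : ℝ, 1 ≤ C ∧ 10 ≤ T0 ∧ ∀ T : ℝ, T0 ≤ T → ∀ (hT : 1 ≤ T) (t : ℝ),
    T + Real.log T ≤ t → t ≤ 2 * T - Real.log T → ∀ a l : ℝ, 0 < a → 0 < l → l ≤ Real.log T →
    |SS hT t a l - Real.log T| ≤ Real.log T * ‖QW T t l (Wc a l)‖ +
      C * (Real.log T / l + Real.log T * a ^ 2 + 1 + l) := by
  obtain ⟨C1, T1, hC1, hT1, h1⟩ := LG.EFWm hRH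
  obtain ⟨C2, hC2, h2⟩ := LG.prime_part2
  refine ⟨8 + 2 * C1 + C2, T1, by linarith, hT1, ?_⟩
  intro T hT0 hT t ht1 ht2 a l ha hl hlL
  have hT10 : 10 ≤ T := hT1.trans hT0
  have hL : 0 < Real.log T := Real.log_pos (by linarith)
  set L := Real.log T with hLdef
  have e1 := h1 T hT0 t ht1 ht2 (Wc a l) 2 (Wc_cont a hl) (fun u _ => Wc_norm a hl u)
  have e2 := h2 T hT10 t l hl hlL (Wc a l) (Wc_cont a hl) (fun u _ => Wc_norm a hl u)
    (fun u hu => by unfold Wc; rw [w_zero hl hu]; simp)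
  -- the zero side
  have e3 : (zs T t (Wc a l)).re = SS hT t a l := by
    have := re_zs hT t (w a l) (w_cont a hl)
    unfold SS
    rw [show (Wc a l) = (fun u => ((w a l u : ℝ) : ℂ)) from rfl, this]
    refine Finset.sum_congr rfl fun s _ => ?_
    rw [G_eq ha hl hlL]
  -- the main term
  have e4 : ∫ u in (0 : ℝ)..L, Wc a l u * (Real.exp (-u ^ 2 / 2) : ℂ) =
      ((∫ u in (0 : ℝ)..L, w a l u * Real.exp (-u ^ 2 / 2) : ℝ) : ℂ) := by
    rw [← intervalIntegral.integral_ofReal]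
    apply intervalIntegral.integral_congr
    intro u _
    simp only [Wc]
    push_cast
    rfl
  rw [e4, ← Complex.ofReal_mul] at e1
  set J := ∫ u in (0 : ℝ)..L, w a l u * Real.exp (-u ^ 2 / 2) with hJ
  have e5 := main_int (a := a) hl hL
  rw [← hJ] at e5
  have hs : 0 < Real.sqrt (2 * Real.pi) := Real.sqrt_pos.2 (by positivity)
  have hs1 : 1 ≤ Real.sqrt (2 * Real.pi) := by
    rw [Real.one_le_sqrt]
    linarith [Real.pi_gt_three]
  have e6 : |L / Real.sqrt (2 * Real.pi) * J - L| ≤ L * (2 / l + 8 * a ^ 2 + 2 / L) := by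
    have : L / Real.sqrt (2 * Real.pi) * J - L =
        L / Real.sqrt (2 * Real.pi) * (J - Real.sqrt (2 * Real.pi)) := by
      field_simp
    rw [this, abs_mul, abs_of_pos (by positivity)]
    have h3 : L / Real.sqrt (2 * Real.pi) ≤ L := div_le_self hL.le hs1
    exact mul_le_mul h3 e5 (abs_nonneg _) hL.le
  have e7 : L * (2 / l + 8 * a ^ 2 + 2 / L) = 2 * (L / l) + 8 * (L * a ^ 2) + 2 := by
    field_simp
  rw [e7] at e6
  have f1 := (Complex.abs_re_le_norm _).trans e1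
  have f2 := (Complex.abs_re_le_norm _).trans e2
  rw [Complex.sub_re, Complex.add_re, Complex.ofReal_re, e3] at f1
  rw [Complex.sub_re] at f2
  have f3 : |((L : ℂ) * QW T t l (Wc a l)).re| ≤ L * ‖QW T t l (Wc a l)‖ := by
    refine (Complex.abs_re_le_norm _).trans ?_
    rw [norm_mul, Complex.norm_real, Real.norm_eq_abs, abs_of_pos hL]
  rw [abs_le] at e6 f1 f2 f3 ⊢
  have hLl : 0 ≤ L / l := by positivity
  have hLa : 0 ≤ L * a ^ 2 := by positivity
  have b1 : 2 * (L / l) + 8 * (L * a ^ 2) + 2 + C1 * 2 + C2 * (1 + l) ≤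
      (8 + 2 * C1 + C2) * (L / l + L * a ^ 2 + 1 + l) := by
    nlinarith [mul_nonneg hC1.le hLl, mul_nonneg hC1.le hLa, mul_nonneg hC2.le hLl,
      mul_nonneg hC2.le hLa, mul_nonneg hC1.le hl.le, mul_nonneg hC2.le hl.le]
  constructor <;> linarith [f1.1, f1.2, f2.1, f2.2, f3.1, f3.2, e6.1, e6.2]

/-- the number of zeros in the window `[t - r, t + r]` -/
noncomputable def cnt {T : ℝ} (hT : 1 ≤ T) (t r : ℝ) : ℝ :=
  ∑ s ∈ (ZZf hT).toFinset.filter (fun s => |s.im - t| ≤ r), (mu s : ℝ)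

theorem cnt_nonneg {T : ℝ} (hT : 1 ≤ T) (t r : ℝ) : 0 ≤ cnt hT t r :=
  Finset.sum_nonneg fun _ _ => Nat.cast_nonneg _

/-- upper bound for the count by the smoothed count -/
theorem cnt_up {T : ℝ} (hT : 1 ≤ T) {t a1 a l : ℝ} (h1 : 0 < a1) (h2 : a1 < a) (hl : 0 < l) :
    cnt hT t a1 * ((Real.pi / a - 4 * Real.pi ^ 2 / (a * l * (a - a1))) *
      Real.exp (-a1 ^ 2 / 2)) ≤ SS hT t a l ∨
    Real.pi / a - 4 * Real.pi ^ 2 / (a * l * (a - a1)) < 0 := by
  by_cases hneg : Real.pi / a - 4 * Real.pi ^ 2 / (a * l * (a - a1)) < 0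
  · exact Or.inr hneg
  left
  push Not at hneg
  have ha : 0 < a := by linarith
  unfold cnt SS
  rw [Finset.sum_mul]
  calc _ ≤ ∑ s ∈ (ZZf hT).toFinset.filter (fun s => |s.im - t| ≤ a1),
        (mu s : ℝ) * Real.exp (-(s.im - t) ^ 2 / 2) * G a l (s.im - t) := by
        refine Finset.sum_le_sum fun s hs => ?_
        rw [Finset.mem_filter] at hs
        have h3 := G_low (x := s.im - t) h1 h2 hl hs.2
        have h4 : Real.exp (-a1 ^ 2 / 2) ≤ Real.exp (-(s.im - t) ^ 2 / 2) := by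
          apply Real.exp_le_exp.mpr
          have : (s.im - t) ^ 2 ≤ a1 ^ 2 := by
            rw [← sq_abs]
            exact pow_le_pow_left₀ (abs_nonneg _) hs.2 2
          linarith
        have h5 : 0 ≤ (mu s : ℝ) := Nat.cast_nonneg _
        calc (mu s : ℝ) * ((Real.pi / a - 4 * Real.pi ^ 2 / (a * l * (a - a1))) *
              Real.exp (-a1 ^ 2 / 2)) ≤ (mu s : ℝ) * (G a l (s.im - t) *
              Real.exp (-(s.im - t) ^ 2 / 2)) := by
              apply mul_le_mul_of_nonneg_left _ h5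
              exact mul_le_mul h3 h4 (Real.exp_pos _).le (hneg.trans h3)
          _ = _ := by ring
    _ ≤ _ := by
        apply Finset.sum_le_sum_of_subset_of_nonneg (Finset.filter_subset _ _)
        intro s _ _
        have := G_nonneg ha hl (s.im - t)
        positivity

/-- a sum over all zeros with the weight `1/(1 + (b x)^2)` -/
theorem far_sum (hRH : RHs) : ∃ C T0 : ℝ, 1 ≤ C ∧ 10 ≤ T0 ∧ ∀ T : ℝ, T0 ≤ T → ∀ (hT : 1 ≤ T) (t : ℝ),
    T + Real.log T ≤ t → t ≤ 2 * T - Real.log T → ∀ b l : ℝ, 0 < b → b ≤ l → l ≤ Real.log T →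
    ∑ s ∈ (ZZf hT).toFinset, (mu s : ℝ) * Real.exp (-(s.im - t) ^ 2 / 2) *
      (1 / (1 + (b * (s.im - t)) ^ 2)) ≤ C * (Real.log T / b) * (1 + ‖QW T t l (W1 b)‖) +
        C * (l / b) := by
  obtain ⟨C1, T1, hC1, hT1, h1⟩ := LG.EFWm hRH
  obtain ⟨C2, hC2, h2⟩ := LG.prime_part2
  refine ⟨10 * (2 + 2 * C1 + C2), T1, by linarith, hT1, ?_⟩
  intro T hT0 hT t ht1 ht2 b l hb hbl hlL
  have hT10 : 10 ≤ T := hT1.trans hT0
  have hL1 : 1 ≤ Real.log T := by
    rw [Real.le_log_iff_exp_le (by linarith)]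
    have := Real.exp_one_lt_d9
    linarith
  have hL : 0 < Real.log T := by linarith
  set L := Real.log T with hLdef
  have hl : 0 < l := by linarith
  have hW : ∀ u, ‖W1 b u‖ ≤ 1 := SP.MkB.W1_norm hb
  have e1 := h1 T hT0 t ht1 ht2 (W1 b) 2 (SP.MkB.W1_cont b) (fun u _ => (hW u).trans (by norm_num))
  have e2 := h2 T hT10 t l hl hlL (W1 b) (SP.MkB.W1_cont b)
    (fun u _ => (hW u).trans (by norm_num)) (fun u hu => SP.MkB.W1_zero hb (hbl.trans hu))
  have e3 : b / 10 * ∑ s ∈ (ZZf hT).toFinset, (mu s : ℝ) * Real.exp (-(s.im - t) ^ 2 / 2) *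
      (1 / (1 + (b * (s.im - t)) ^ 2)) ≤ (zs T t (W1 b)).re := by
    rw [LG.NoZero.zs_eq hT, Complex.re_sum, Finset.mul_sum]
    refine Finset.sum_le_sum fun s _ => ?_
    have e3 : (mu s : ℂ) * (Real.exp (-(s.im - t) ^ 2 / 2) : ℂ) =
        (((mu s : ℝ) * Real.exp (-(s.im - t) ^ 2 / 2) : ℝ) : ℂ) := by push_cast; rfl
    rw [e3, Complex.re_ofReal_mul, SP.MkB.re_int hb (hbl.trans hlL)]
    have e4 := SP.MkB.int_cos (x := s.im - t) hb
    calc b / 10 * ((mu s : ℝ) * Real.exp (-(s.im - t) ^ 2 / 2) *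
          (1 / (1 + (b * (s.im - t)) ^ 2)))
        = (mu s : ℝ) * Real.exp (-(s.im - t) ^ 2 / 2) *
          (b / 10 / (1 + (b * (s.im - t)) ^ 2)) := by ring
      _ ≤ _ := mul_le_mul_of_nonneg_left e4 (by positivity)
  -- the Gaussian term
  have e4 : ‖((L / Real.sqrt (2 * Real.pi) : ℝ) : ℂ) *
      ∫ u in (0 : ℝ)..L, W1 b u * (Real.exp (-u ^ 2 / 2) : ℂ)‖ ≤ L := by
    have hs : 0 < Real.sqrt (2 * Real.pi) := Real.sqrt_pos.2 (by positivity)
    obtain ⟨g0, g1, g2⟩ := gauss_head hL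
    have h3 : ‖∫ u in (0 : ℝ)..L, W1 b u * (Real.exp (-u ^ 2 / 2) : ℂ)‖ ≤
        ∫ u in (0 : ℝ)..L, Real.exp (-u ^ 2 / 2) := by
      apply intervalIntegral.norm_integral_le_of_norm_le hL.le
      · refine Filter.Eventually.of_forall fun u _ => ?_
        rw [norm_mul, Complex.norm_real, Real.norm_eq_abs, abs_of_pos (Real.exp_pos _)]
        have := (Real.exp_pos (-u ^ 2 / 2)).le
        nlinarith [hW u]
      · apply Continuous.intervalIntegrable; fun_prop
    rw [norm_mul, Complex.norm_real, Real.norm_eq_abs, abs_of_pos (by positivity)]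
    calc L / Real.sqrt (2 * Real.pi) * ‖∫ u in (0 : ℝ)..L, W1 b u * (Real.exp (-u ^ 2 / 2) : ℂ)‖
        ≤ L / Real.sqrt (2 * Real.pi) * (Real.sqrt (2 * Real.pi) / 2) :=
          mul_le_mul_of_nonneg_left (h3.trans g1) (by positivity)
      _ = L / 2 := by field_simp
      _ ≤ L := by linarith
  set X := ((L / Real.sqrt (2 * Real.pi) : ℝ) : ℂ) *
      ∫ u in (0 : ℝ)..L, W1 b u * (Real.exp (-u ^ 2 / 2) : ℂ) with hX
  have f1 := (Complex.abs_re_le_norm _).trans e1
  have f2 := (Complex.abs_re_le_norm _).trans e2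
  have f4 := (Complex.abs_re_le_norm _).trans e4
  rw [Complex.sub_re, Complex.add_re] at f1
  rw [Complex.sub_re] at f2
  have f3 : |((L : ℂ) * QW T t l (W1 b)).re| ≤ L * ‖QW T t l (W1 b)‖ := by
    refine (Complex.abs_re_le_norm _).trans ?_
    rw [norm_mul, Complex.norm_real, Real.norm_eq_abs, abs_of_pos hL]
  rw [abs_le] at f1 f2 f3 f4
  have f5 : (zs T t (W1 b)).re ≤ L * ‖QW T t l (W1 b)‖ + L + C1 * 2 + C2 * (1 + l) := by
    linarith [f1.2, f2.1, f3.1, f4.2]
  set Y := ∑ s ∈ (ZZf hT).toFinset, (mu s : ℝ) * Real.exp (-(s.im - t) ^ 2 / 2) *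
      (1 / (1 + (b * (s.im - t)) ^ 2)) with hY
  have hq : 0 ≤ ‖QW T t l (W1 b)‖ := norm_nonneg _
  have f6 : Y ≤ 10 / b * (L * ‖QW T t l (W1 b)‖ + L + C1 * 2 + C2 * (1 + l)) := by
    have h7 : b / 10 * Y ≤ L * ‖QW T t l (W1 b)‖ + L + C1 * 2 + C2 * (1 + l) := e3.trans f5
    calc Y = 10 / b * (b / 10 * Y) := by field_simp
      _ ≤ _ := mul_le_mul_of_nonneg_left h7 (by positivity)
  refine f6.trans ?_
  have f7 : L * ‖QW T t l (W1 b)‖ + L + C1 * 2 + C2 * (1 + l) ≤
      (2 + 2 * C1 + C2) * (L * (1 + ‖QW T t l (W1 b)‖)) + (2 + 2 * C1 + C2) * l := by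
    nlinarith [mul_nonneg hL.le hq, mul_nonneg hC1.le (mul_nonneg hL.le hq),
      mul_nonneg hC2.le (mul_nonneg hL.le hq), mul_nonneg hC1.le hl.le, mul_nonneg hC1.le
      (by linarith : 0 ≤ L - 1), mul_nonneg hC2.le (by linarith : 0 ≤ L - 1)]
  calc 10 / b * (L * ‖QW T t l (W1 b)‖ + L + C1 * 2 + C2 * (1 + l))
      ≤ 10 / b * ((2 + 2 * C1 + C2) * (L * (1 + ‖QW T t l (W1 b)‖)) + (2 + 2 * C1 + C2) * l) :=
        mul_le_mul_of_nonneg_left f7 (by positivity)
    _ = _ := by ring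

/-- lower bound for the count by the smoothed count -/
theorem cnt_low {T : ℝ} (hT : 1 ≤ T) {t a2 a l b : ℝ} (h1 : 0 < a) (h2 : a < a2) (hl : 0 < l)
    (hb : 1 ≤ b * a2) :
    SS hT t a l ≤ Real.pi / a * cnt hT t a2 + 8 * b ^ 2 / (l * (1 - (a / a2) ^ 2)) *
      ∑ s ∈ (ZZf hT).toFinset, (mu s : ℝ) * Real.exp (-(s.im - t) ^ 2 / 2) *
        (1 / (1 + (b * (s.im - t)) ^ 2)) := by
  classical
  have ha2 : 0 < a2 := by linarith
  have hb0 : 0 < b := by
    by_contra h
    push Not at h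
    nlinarith
  have hr : 0 < 1 - (a / a2) ^ 2 := by
    have h3 : a / a2 < 1 := by rw [div_lt_one ha2]; exact h2
    have h4 : 0 < a / a2 := by positivity
    nlinarith
  unfold SS cnt
  rw [← Finset.sum_filter_add_sum_filter_not (ZZf hT).toFinset (fun s => |s.im - t| ≤ a2)
    (fun s => (mu s : ℝ) * Real.exp (-(s.im - t) ^ 2 / 2) * G a l (s.im - t))]
  apply add_le_add
  · rw [Finset.mul_sum]
    refine Finset.sum_le_sum fun s _ => ?_
    have h3 := G_le_all h1 hl (s.im - t)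
    have h4 : Real.exp (-(s.im - t) ^ 2 / 2) ≤ 1 := by
      apply Real.exp_le_one_iff.mpr
      have := sq_nonneg (s.im - t)
      linarith
    have h5 : 0 ≤ (mu s : ℝ) := Nat.cast_nonneg _
    have h6 := G_nonneg h1 hl (s.im - t)
    calc (mu s : ℝ) * Real.exp (-(s.im - t) ^ 2 / 2) * G a l (s.im - t)
        ≤ (mu s : ℝ) * 1 * (Real.pi / a) := by
          apply mul_le_mul _ h3 h6 (by positivity)
          exact mul_le_mul_of_nonneg_left h4 h5
      _ = _ := by ring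
  · rw [Finset.mul_sum]
    calc _ ≤ ∑ s ∈ (ZZf hT).toFinset.filter (fun s => ¬ |s.im - t| ≤ a2),
          8 * b ^ 2 / (l * (1 - (a / a2) ^ 2)) * ((mu s : ℝ) * Real.exp (-(s.im - t) ^ 2 / 2) *
            (1 / (1 + (b * (s.im - t)) ^ 2))) := by
          refine Finset.sum_le_sum fun s hs => ?_
          rw [Finset.mem_filter, not_le] at hs
          set x := s.im - t with hx
          have hx2 : a2 < |x| := hs.2
          have h3 := G_far h1 hl (h2.trans hx2)
          have hxsq : a2 ^ 2 < x ^ 2 := by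
            rw [← sq_abs x]
            exact pow_lt_pow_left₀ hx2 ha2.le (by norm_num)
          have hx0 : 0 < x ^ 2 := (by positivity : 0 < a2 ^ 2).trans hxsq
          have h4 : x ^ 2 * (1 - (a / a2) ^ 2) ≤ x ^ 2 - a ^ 2 := by
            have : a ^ 2 ≤ x ^ 2 * (a / a2) ^ 2 := by
              rw [div_pow]
              calc a ^ 2 = a2 ^ 2 * (a ^ 2 / a2 ^ 2) := by field_simp
                _ ≤ x ^ 2 * (a ^ 2 / a2 ^ 2) :=
                  mul_le_mul_of_nonneg_right hxsq.le (by positivity)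
            linarith
          have h5 : 4 / (l * (x ^ 2 - a ^ 2)) ≤ 4 / (l * (x ^ 2 * (1 - (a / a2) ^ 2))) := by
            apply div_le_div_of_nonneg_left (by norm_num) (by positivity)
            exact mul_le_mul_of_nonneg_left h4 hl.le
          have h6 : 1 ≤ (b * x) ^ 2 := by
            rw [mul_pow]
            have h7 : 1 ≤ b ^ 2 * a2 ^ 2 := by
              rw [← mul_pow]
              exact one_le_pow₀ hb
            exact h7.trans (mul_le_mul_of_nonneg_left hxsq.le (by positivity))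
          have h7 : 1 / x ^ 2 ≤ 2 * b ^ 2 * (1 / (1 + (b * x) ^ 2)) := by
            rw [mul_one_div, div_le_div_iff₀ hx0 (by positivity)]
            rw [mul_pow] at h6 ⊢
            nlinarith
          have h8 : G a l x ≤ 8 * b ^ 2 / (l * (1 - (a / a2) ^ 2)) * (1 / (1 + (b * x) ^ 2)) := by
            calc G a l x ≤ 4 / (l * (x ^ 2 * (1 - (a / a2) ^ 2))) := h3.trans h5
              _ = 4 / (l * (1 - (a / a2) ^ 2)) * (1 / x ^ 2) := by field_simp
              _ ≤ 4 / (l * (1 - (a / a2) ^ 2)) * (2 * b ^ 2 * (1 / (1 + (b * x) ^ 2))) :=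
                mul_le_mul_of_nonneg_left h7 (by positivity)
              _ = _ := by ring
          calc (mu s : ℝ) * Real.exp (-x ^ 2 / 2) * G a l x
              ≤ (mu s : ℝ) * Real.exp (-x ^ 2 / 2) *
                (8 * b ^ 2 / (l * (1 - (a / a2) ^ 2)) * (1 / (1 + (b * x) ^ 2))) :=
                mul_le_mul_of_nonneg_left h8 (by positivity)
            _ = _ := by ring
      _ ≤ _ := by
          apply Finset.sum_le_sum_of_subset_of_nonneg (Finset.filter_subset _ _)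
          intro s _ _
          positivity

end Pool.Agent.TH800.LD
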